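import Mathlib

/-!
# Linear isometries of a normed plane

`E` is a real plane with an area form `ω`.  A norm on `E` with a linear isometry of determinant `1`
and trace `2 cos θ`, `θ / π` irrational, is Euclidean.
-/

namespace Pool.Agent.Lib_MP_1de93e_gt.Gen

open Set Filter Topology

variable {E : Type*} [NormedAddCommGroup E] [NormedSpace ℝ E]

/-- `N` is a norm. -/
structure GNorm (N : E → ℝ) : Prop where
  smul : ∀ (a : ℝ) (y : E), N (a • y) = |a| * N y
  add : ∀ y z : E, N (y + z) ≤ N y + N z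
  pos : ∀ y : E, y ≠ 0 → 0 < N y

lemma GNorm.zero {N : E → ℝ} (hN : GNorm N) : N 0 = 0 := by
  have := hN.smul 0 0
  simpa using this

lemma GNorm.neg {N : E → ℝ} (hN : GNorm N) (y : E) : N (-y) = N y := by
  have := hN.smul (-1) y
  simpa using this

lemma GNorm.nonneg {N : E → ℝ} (hN : GNorm N) (y : E) : 0 ≤ N y := by
  by_cases h : y = 0
  · rw [h, hN.zero]
  · exact (hN.pos y h).le

/-- `N` comes from a symmetric bilinear form. -/
def GEuclid (N : E → ℝ) : Prop :=
  ∃ B : E →ₗ[ℝ] E →ₗ[ℝ] ℝ, (∀ u v, B u v = B v u) ∧ ∀ u, N u ^ 2 = B u u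

/-- `ω` is an area form on the plane `E`. -/
structure IsArea (ω : E →L[ℝ] E →L[ℝ] ℝ) : Prop where
  self : ∀ a, ω a a = 0
  id3 : ∀ a b c, ω a b • c + ω b c • a + ω c a • b = 0
  one : ∃ e f, ω e f = 1

namespace IsArea

variable {ω : E →L[ℝ] E →L[ℝ] ℝ} (hω : IsArea ω)
include hω

lemma antisymm (a b : E) : ω a b = - ω b a := by
  have h := hω.self (a + b)
  simp only [map_add, add_apply] at h
  rw [hω.self a, hω.self b] at h
  linarith

lemma expand {e f : E} (h : ω e f = 1) (v : E) : v = ω v f • e + ω e v • f := by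
  have h1 := hω.id3 e f v
  rw [h, one_smul] at h1
  have h2 : ω f v = - ω v f := hω.antisymm f v
  have h3 : ω v e = - ω e v := hω.antisymm v e
  rw [h2, h3] at h1
  have h4 : v = (v + -(ω v f) • e + -(ω e v) • f) + (ω v f • e + ω e v • f) := by module
  rw [h1, zero_add] at h4
  exact h4

lemma ne_zero_of {a b : E} (h : ω a b ≠ 0) : a ≠ 0 := by
  rintro rfl
  simp at h

lemma exists_ne {a : E} (ha : a ≠ 0) : ∃ b, ω a b ≠ 0 := by
  obtain ⟨e, f, h⟩ := hω.one
  by_contra hcon
  push Not at hcon
  have h1 := hω.expand h a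
  have h2 : ω e a = 0 := by rw [hω.antisymm, hcon e, neg_zero]
  rw [hcon f, h2, zero_smul, zero_smul, add_zero] at h1
  exact ha h1

end IsArea

/-- trace of `g` in the basis `e, f` -/
noncomputable def tr (ω : E →L[ℝ] E →L[ℝ] ℝ) (e f : E) (g : E →ₗ[ℝ] E) : ℝ := ω (g e) f + ω e (g f)

section

variable {ω : E →L[ℝ] E →L[ℝ] ℝ} (hω : IsArea ω) {e f : E} (hef : ω e f = 1)
include hω hef

lemma cayley (g : E →ₗ[ℝ] E) (y : E) :
    g (g y) = tr ω e f g • g y - ω (g e) (g f) • y := by
  obtain ⟨α, hα⟩ : ∃ α, α = ω (g e) f := ⟨_, rfl⟩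
  obtain ⟨γ, hγ⟩ : ∃ γ, γ = ω e (g e) := ⟨_, rfl⟩
  obtain ⟨β, hβ⟩ : ∃ β, β = ω (g f) f := ⟨_, rfl⟩
  obtain ⟨δ, hδ⟩ : ∃ δ, δ = ω e (g f) := ⟨_, rfl⟩
  have h1 : g e = α • e + γ • f := by rw [hα, hγ]; exact hω.expand hef (g e)
  have h2 : g f = β • e + δ • f := by rw [hβ, hδ]; exact hω.expand hef (g f)
  have hfe : ω f e = -1 := by rw [hω.antisymm, hef]
  have h3 : ω (g e) (g f) = α * δ - γ * β := by
    rw [h1, h2]
    simp only [map_add, map_smul, add_apply, smul_apply, smul_eq_mul, hω.self, hef, hfe]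
    ring
  have h4 : tr ω e f g = α + δ := by rw [tr, hα, hδ]
  rw [h3, h4]
  obtain ⟨s, hs⟩ : ∃ s, s = ω y f := ⟨_, rfl⟩
  obtain ⟨t, ht⟩ : ∃ t, t = ω e y := ⟨_, rfl⟩
  have h5 : y = s • e + t • f := by rw [hs, ht]; exact hω.expand hef y
  rw [h5]
  simp only [map_add, map_smul, h1, h2]
  module

variable {N : E → ℝ} (hN : GNorm N) {g : E →ₗ[ℝ] E} (hg : ∀ y, N (g y) = N y)
  (hdet : ω (g e) (g f) = 1)
include hN hg hdet

lemma cayley' (y : E) : g (g y) = tr ω e f g • g y - y := by
  rw [cayley hω hef g y, hdet, one_smul]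

lemma e_ne : e ≠ 0 := hω.ne_zero_of (by rw [hef]; exact one_ne_zero)

lemma tr_le : tr ω e f g ≤ 2 := by
  by_contra hcon
  push Not at hcon
  set T := tr ω e f g with hT
  set μ : ℝ := (T + Real.sqrt (T ^ 2 - 4)) / 2 with hμ
  have h1 : 0 < T ^ 2 - 4 := by nlinarith
  have h2 : Real.sqrt (T ^ 2 - 4) ^ 2 = T ^ 2 - 4 := Real.sq_sqrt h1.le
  have h3 : 0 ≤ Real.sqrt (T ^ 2 - 4) := Real.sqrt_nonneg _
  have hμ1 : 1 < μ := by rw [hμ]; linarith
  have hμeq : μ * (T - μ) = 1 := by rw [hμ]; nlinarith
  have he := e_ne hω hef hN hg hdet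
  -- `(g - (T - μ)) y` is an eigenvector with eigenvalue `μ`
  have key : ∀ y : E, g (g y - (T - μ) • y) = μ • (g y - (T - μ) • y) := by
    intro y
    rw [map_sub, map_smul, cayley' hω hef hN hg hdet, ← hT]
    have h4 : μ • (g y - (T - μ) • y) = μ • g y - (μ * (T - μ)) • y := by module
    rw [h4, hμeq, one_smul]
    module
  have hz : ∀ y : E, g y - (T - μ) • y = 0 := by
    intro y
    by_contra hne
    have h4 := hg (g y - (T - μ) • y)
    rw [key y, hN.smul, abs_of_pos (by linarith)] at h4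
    have h5 := hN.pos _ hne
    nlinarith
  have h6 : g e = (T - μ) • e := sub_eq_zero.1 (hz e)
  have h7 := hg e
  rw [h6, hN.smul] at h7
  have h8 := hN.pos e he
  have h9 : |T - μ| = 1 := by nlinarith
  have h10 : T - μ = μ⁻¹ := by field_simp; linarith
  rw [h10, abs_of_pos (by positivity)] at h9
  have : μ = 1 := by field_simp at h9; linarith
  linarith

lemma eq_id_of_tr (htr : tr ω e f g = 2) (y : E) : g y = y := by
  have h1 : ∀ y, g (g y) = (2 : ℝ) • g y - y := by
    intro y; rw [cayley' hω hef hN hg hdet, htr]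
  have h2 : ∀ n : ℕ, (g ^ n) y = y + (n : ℝ) • (g y - y) := by
    intro n
    induction n with
    | zero => simp
    | succ n ih =>
      rw [pow_succ', Module.End.mul_apply, ih, map_add, map_smul, map_sub, h1 y]
      push_cast
      module
  have h3 : ∀ n : ℕ, N ((g ^ n) y) = N y := by
    intro n
    induction n with
    | zero => simp
    | succ n ih => rw [pow_succ', Module.End.mul_apply, hg, ih]
  have h4 : ∀ n : ℕ, (n : ℝ) * N (g y - y) ≤ 2 * N y := by
    intro n
    have h5 : (n : ℝ) • (g y - y) = (g ^ n) y + -y := by rw [h2]; module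
    have h6 := hN.add ((g ^ n) y) (-y)
    rw [← h5, hN.smul, Nat.abs_cast, h3, hN.neg] at h6
    linarith
  by_contra hne
  have h5 : 0 < N (g y - y) := hN.pos _ (sub_ne_zero.2 hne)
  obtain ⟨n, hn⟩ := exists_nat_gt (2 * N y / N (g y - y))
  rw [div_lt_iff₀ h5] at hn
  linarith [h4 n]

/-- An isometry with determinant `1` and irrational rotation angle forces the norm to be
Euclidean. -/
theorem euclid_of_irrational (hNc : Continuous N) {θ : ℝ} (htr : tr ω e f g = 2 * Real.cos θ)
    (hθ : Irrational (θ / (2 * Real.pi))) : GEuclid N := by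
  have hsin : Real.sin θ ≠ 0 := by
    intro h
    rw [Real.sin_eq_zero_iff] at h
    obtain ⟨n, hn⟩ := h
    apply hθ
    refine ⟨(n : ℚ) / 2, ?_⟩
    rw [← hn]
    have := Real.pi_ne_zero
    push_cast
    field_simp
  set J : E →ₗ[ℝ] E := (Real.sin θ)⁻¹ • (g - Real.cos θ • LinearMap.id) with hJ
  have hJy : ∀ y, J y = (Real.sin θ)⁻¹ • (g y - Real.cos θ • y) := fun y => rfl
  have hgJ : ∀ y, g y = Real.cos θ • y + Real.sin θ • J y := by
    intro y
    rw [hJy, smul_smul, mul_inv_cancel₀ hsin, one_smul]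
    abel
  have hJ2 : ∀ y, J (J y) = -y := by
    intro y
    have h1 : J (J y) = (Real.sin θ)⁻¹ • ((Real.sin θ)⁻¹ • (g (g y) - Real.cos θ • g y)
        - Real.cos θ • ((Real.sin θ)⁻¹ • (g y - Real.cos θ • y))) := by
      rw [hJy (J y), hJy y, map_smul, map_sub, map_smul]
    rw [h1, cayley' hω hef hN hg hdet, htr]
    have h2 : (Real.sin θ)⁻¹ • ((Real.sin θ)⁻¹ • ((2 * Real.cos θ) • g y - y - Real.cos θ • g y)
        - Real.cos θ • ((Real.sin θ)⁻¹ • (g y - Real.cos θ • y)))
        = ((Real.sin θ)⁻¹ * (Real.sin θ)⁻¹ * (Real.cos θ ^ 2 - 1)) • y := by module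
    rw [h2]
    have h3 : (Real.sin θ)⁻¹ * (Real.sin θ)⁻¹ * (Real.cos θ ^ 2 - 1) = -1 := by
      have h4 := Real.sin_sq_add_cos_sq θ
      have h5 : Real.cos θ ^ 2 - 1 = - (Real.sin θ * Real.sin θ) := by nlinarith
      rw [h5]
      field_simp
    rw [h3]
    module
  -- the group of angles
  set S : AddSubgroup ℝ :=
    { carrier := {φ | ∀ y, N (Real.cos φ • y + Real.sin φ • J y) = N y}
      zero_mem' := by intro y; simp
      add_mem' := by
        intro a b ha hb y
        have h1 := ha (Real.cos b • y + Real.sin b • J y)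
        rw [hb y] at h1
        rw [← h1]
        congr 1
        rw [Real.cos_add, Real.sin_add, map_add, map_smul, map_smul, hJ2]
        module
      neg_mem' := by
        intro a ha y
        have h1 := ha (Real.cos (-a) • y + Real.sin (-a) • J y)
        rw [← h1]
        congr 1
        rw [Real.cos_neg, Real.sin_neg, map_add, map_smul, map_smul, hJ2]
        have h2 := Real.sin_sq_add_cos_sq a
        have h3 : Real.cos a • (Real.cos a • y + -Real.sin a • J y)
            + Real.sin a • (Real.cos a • J y + -Real.sin a • -y)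
            = (Real.sin a ^ 2 + Real.cos a ^ 2) • y := by module
        rw [h3, h2, one_smul] } with hS
  have hθS : θ ∈ S := by
    intro y
    rw [← hgJ, hg]
  have h2πS : 2 * Real.pi ∈ S := by
    intro y
    simp
  have hdense : Dense (S : Set ℝ) := by
    rcases AddSubgroup.dense_or_cyclic S with h | ⟨a, ha⟩
    · exact h
    · exfalso
      rw [ha, AddSubgroup.mem_closure_singleton] at hθS h2πS
      obtain ⟨n, hn⟩ := hθS
      obtain ⟨k, hk⟩ := h2πS
      apply hθ
      refine ⟨(n : ℚ) / k, ?_⟩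
      rw [← hn, ← hk]
      have hk0 : (k : ℝ) ≠ 0 := by
        intro h0
        have : (2 : ℝ) * Real.pi = 0 := by
          rw [← hk, zsmul_eq_mul, h0, zero_mul]
        have := Real.pi_pos
        linarith
      have ha0 : a ≠ 0 := by
        rintro rfl
        have : (2 : ℝ) * Real.pi = 0 := by rw [← hk]; simp
        have := Real.pi_pos
        linarith
      rw [zsmul_eq_mul, zsmul_eq_mul]
      push_cast
      field_simp
  have hall : ∀ φ : ℝ, ∀ y, N (Real.cos φ • y + Real.sin φ • J y) = N y := by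
    intro φ y
    have hclosed : IsClosed {φ : ℝ | N (Real.cos φ • y + Real.sin φ • J y) = N y} := by
      refine isClosed_eq (hNc.comp ?_) continuous_const
      exact (Real.continuous_cos.smul continuous_const).add
        (Real.continuous_sin.smul continuous_const)
    have hsub : (S : Set ℝ) ⊆ {φ : ℝ | N (Real.cos φ • y + Real.sin φ • J y) = N y} :=
      fun ψ hψ => hψ y
    have := hclosed.closure_subset_iff.2 hsub
    rw [hdense.closure_eq] at this
    exact this (mem_univ φ)
  -- the quadratic form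
  have he := e_ne hω hef hN hg hdet
  set κ := ω e (J e) with hκ
  have hκ0 : κ ≠ 0 := by
    intro h0
    -- then `J e` is parallel to `e`
    have h1 : J e = ω (J e) f • e := by
      have := hω.expand hef (J e)
      rw [← hκ, h0, zero_smul, add_zero] at this
      exact this
    set k := ω (J e) f with hk
    have h2 : J (J e) = (k * k) • e := by
      conv_lhs => rw [h1]
      rw [map_smul, h1, smul_smul]
    rw [hJ2] at h2
    have h3 : (k * k + 1) • e = 0 := by
      rw [add_smul, ← h2, one_smul]; abel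
    rcases smul_eq_zero.1 h3 with h4 | h4
    · nlinarith
    · exact he h4
  have hval : ∀ a b : ℝ, N (a • e + b • J e) ^ 2 = (a ^ 2 + b ^ 2) * N e ^ 2 := by
    intro a b
    by_cases h0 : a ^ 2 + b ^ 2 = 0
    · have ha : a = 0 := by nlinarith [sq_nonneg a, sq_nonneg b]
      have hb : b = 0 := by nlinarith [sq_nonneg a, sq_nonneg b]
      rw [ha, hb]
      simp [hN.zero]
    · set z : ℂ := ⟨a, b⟩ with hz
      have hz0 : z ≠ 0 := by
        intro h
        apply h0
        have h1 : a = 0 := congrArg Complex.re h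
        have h2 : b = 0 := congrArg Complex.im h
        rw [h1, h2]; ring
      have h1 : a = ‖z‖ * Real.cos z.arg := by
        rw [Complex.cos_arg hz0]
        have : ‖z‖ ≠ 0 := norm_ne_zero_iff.2 hz0
        field_simp
        rfl
      have h2 : b = ‖z‖ * Real.sin z.arg := by
        rw [Complex.sin_arg]
        have : ‖z‖ ≠ 0 := norm_ne_zero_iff.2 hz0
        field_simp
        rfl
      have h3 : a • e + b • J e = ‖z‖ • (Real.cos z.arg • e + Real.sin z.arg • J e) := by
        conv_lhs => rw [h1, h2]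
        module
      have h4 : ‖z‖ ^ 2 = a ^ 2 + b ^ 2 := by
        rw [← Complex.normSq_eq_norm_sq, Complex.normSq_mk]; ring
      rw [h3, hN.smul, hall, abs_of_nonneg (norm_nonneg z), mul_pow, h4]
  -- coordinates with respect to `e, J e`
  have hcoord : ∀ w : E, w = (ω w (J e) / κ) • e + (ω e w / κ) • J e := by
    intro w
    have h1 := hω.id3 e (J e) w
    rw [← hκ] at h1
    have h2 : ω (J e) w = - ω w (J e) := hω.antisymm _ _
    have h3 : ω w e = - ω e w := hω.antisymm _ _
    rw [h2, h3] at h1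
    have h4 : κ • w = ω w (J e) • e + ω e w • J e := by
      have h5 : κ • w = (κ • w + -(ω w (J e)) • e + -(ω e w) • J e)
          + (ω w (J e) • e + ω e w • J e) := by module
      rw [h1, zero_add] at h5
      exact h5
    have h5 : w = κ⁻¹ • (κ • w) := by rw [smul_smul, inv_mul_cancel₀ hκ0, one_smul]
    rw [h4] at h5
    rw [h5]
    simp only [smul_add, smul_smul]
    congr 2
    · rw [map_add, map_smul, map_smul]
      simp only [add_apply, smul_apply, smul_eq_mul]
      rw [← hκ, hω.self]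
      field_simp
      ring
    · rw [map_add, map_smul, map_smul, hω.self, ← hκ]
      simp only [smul_eq_mul]
      field_simp
      ring
  refine ⟨LinearMap.mk₂ ℝ (fun u v => (N e ^ 2 / κ ^ 2) * (ω u (J e) * ω v (J e) + ω e u * ω e v))
    ?_ ?_ ?_ ?_, ?_, ?_⟩
  · intro u u' v
    simp only [map_add, add_apply]; ring
  · intro c u v
    simp only [map_smul, smul_apply, smul_eq_mul]; ring
  · intro u v v'
    simp only [map_add, add_apply]; ring
  · intro c u v
    simp only [map_smul, smul_apply, smul_eq_mul]; ring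
  · intro u v
    simp only [LinearMap.mk₂_apply]; ring
  · intro u
    simp only [LinearMap.mk₂_apply]
    conv_lhs => rw [hcoord u]
    rw [hval]
    field_simp

end

end Pool.Agent.Lib_MP_1de93e_gt.Gen
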