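import Mathlib
import Pool.Agent.Lib_MP_1de93e_gt.Isometry

/-!
# Parallel transport and classification in low regularity

`F` is a Finsler function on a convex open subset `M` of a plane `E`, differentiable off the zero
section, whose derivative in the base point is
`F_x[w] = -(dλ[w] F + dλ[u] F_u[w]) / λ` with `λ > 0` of class `C¹`.  Then `F` is Euclidean at every
point, or `F` is the pull-back of a norm by a projective map.
-/

namespace Pool.Agent.Lib_MP_1de93e_gt.Gen

open Set Filter Topology MeasureTheory intervalIntegral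

variable {E : Type*} [NormedAddCommGroup E] [NormedSpace ℝ E]

/-- the data -/
structure ZData (ω : E →L[ℝ] E →L[ℝ] ℝ) (M : Set E) (F : E → E → ℝ) (lam : E → ℝ)
    (L : E → E →L[ℝ] ℝ) : Prop where
  area : IsArea ω
  isOpen : IsOpen M
  convex : Convex ℝ M
  norm : ∀ x ∈ M, GNorm (F x)
  cont : ∀ x ∈ M, Continuous (F x)
  lam_pos : ∀ x ∈ M, 0 < lam x
  lam_deriv : ∀ x ∈ M, HasFDerivAt lam (L x) x
  L_cont : ContinuousOn L M
  deriv : ∀ x ∈ M, ∀ u : E, u ≠ 0 → ∃ Φ : E × E →L[ℝ] ℝ,
    HasFDerivAt (fun p : E × E => F p.1 p.2) Φ (x, u) ∧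
    ∀ w v : E, Φ (w, v) = -(L x w * F x u + L x u * Φ (0, w)) / lam x + Φ (0, v)

/-- clamp to `[0, 1]` -/
noncomputable def cl (s : ℝ) : ℝ := max 0 (min 1 s)

lemma cl_cont : Continuous cl := by unfold cl; fun_prop

lemma cl_mem (s : ℝ) : cl s ∈ Icc (0 : ℝ) 1 :=
  ⟨le_max_left _ _, max_le zero_le_one (min_le_left _ _)⟩

lemma cl_eq {s : ℝ} (hs : s ∈ Icc (0 : ℝ) 1) : cl s = s := by
  rw [cl, min_eq_right hs.2, max_eq_right hs.1]

section

variable {ω : E →L[ℝ] E →L[ℝ] ℝ} {M : Set E} {F : E → E → ℝ} {lam : E → ℝ} {L : E → E →L[ℝ] ℝ}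

/-- the integrated form of `dλ/λ²` along the segment from `x` to `x'` -/
noncomputable def I (lam : E → ℝ) (L : E → E →L[ℝ] ℝ) (x x' : E) : E →L[ℝ] ℝ :=
  ∫ s in (0 : ℝ)..1, ((lam (x + s • (x' - x)) ^ 2)⁻¹ • L (x + s • (x' - x)))

/-- parallel transport along the segment from `x` to `x'` -/
noncomputable def T (lam : E → ℝ) (L : E → E →L[ℝ] ℝ) (x x' : E) : E →ₗ[ℝ] E :=
  (lam x' / lam x) • (LinearMap.id + lam x' • (((I lam L x x') : E →ₗ[ℝ] ℝ).smulRight (x' - x)))

lemma glin_key (L : E →L[ℝ] ℝ) {a b c : ℝ} {u v w : E} (h : a • u = b • v + c • w) :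
    a * L u = b * L v + c * L w := by
  have h1 := congrArg L h
  rw [map_smul, map_add, map_smul, map_smul] at h1
  simpa using h1

lemma T_apply (x x' y : E) : T lam L x x' y
    = (lam x' / lam x) • (y + (lam x' * I lam L x x' y) • (x' - x)) := by
  simp only [T, LinearMap.smul_apply, LinearMap.add_apply, LinearMap.id_apply,
    LinearMap.smulRight_apply, ContinuousLinearMap.coe_coe, smul_smul]

variable (hZ : ZData ω M F lam L)
include hZ

lemma seg_mem {x x' : E} (hx : x ∈ M) (hx' : x' ∈ M) {t : ℝ} (ht : t ∈ Icc (0 : ℝ) 1) :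
    x + t • (x' - x) ∈ M := by
  have := hZ.convex hx hx' (show 0 ≤ 1 - t by linarith [ht.2]) ht.1 (by ring)
  have e : x + t • (x' - x) = (1 - t) • x + t • x' := by module
  rw [e]; exact this

lemma lam_cont : ContinuousOn lam M := fun x hx =>
  (hZ.lam_deriv x hx).continuousAt.continuousWithinAt

lemma g_contOn : ContinuousOn (fun x => (lam x ^ 2)⁻¹ • L x) M := by
  refine ContinuousOn.smul (ContinuousOn.inv₀ ((lam_cont hZ).pow 2) fun x hx => ?_) hZ.L_cont
  have := hZ.lam_pos x hx
  exact (pow_pos this 2).ne'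

/-- continuity of `I` along continuous families of segments -/
lemma I_cont {X : Type*} [TopologicalSpace X] [FirstCountableTopology X] {a b : X → E}
    (ha : Continuous a) (hb : Continuous b)
    (haM : ∀ τ, a τ ∈ M) (hbM : ∀ τ, b τ ∈ M) : Continuous (fun τ => I lam L (a τ) (b τ)) := by
  set p : X × ℝ → E := fun q => a q.1 + cl q.2 • (b q.1 - a q.1) with hp
  have hpM : ∀ q, p q ∈ M := fun q => seg_mem hZ (haM _) (hbM _) (cl_mem _)
  have hpc : Continuous p := by
    have := cl_cont
    fun_prop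
  have hG : Continuous (fun q : X × ℝ => (lam (p q) ^ 2)⁻¹ • L (p q)) :=
    (g_contOn hZ).comp_continuous hpc hpM
  have h1 : (fun τ => I lam L (a τ) (b τ)) = fun τ => ∫ s in (0 : ℝ)..1,
      (lam (p (τ, s)) ^ 2)⁻¹ • L (p (τ, s)) := by
    funext τ
    refine intervalIntegral.integral_congr fun s hs => ?_
    rw [uIcc_of_le zero_le_one] at hs
    simp only [hp, cl_eq hs]
  rw [h1]
  exact intervalIntegral.continuous_parametric_intervalIntegral_of_continuous'
    (f := fun τ s => (lam (p (τ, s)) ^ 2)⁻¹ • L (p (τ, s))) hG 0 1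

/-- the primitive of the integrand -/
lemma exists_primitive {x x' : E} (hx : x ∈ M) (hx' : x' ∈ M) :
    ∃ J : ℝ → E →L[ℝ] ℝ, Continuous J ∧ J 0 = 0 ∧ J 1 = I lam L x x' ∧
      ∀ t ∈ Icc (0 : ℝ) 1, HasDerivAt J
        ((lam (x + t • (x' - x)) ^ 2)⁻¹ • L (x + t • (x' - x))) t := by
  set g : ℝ → E →L[ℝ] ℝ := fun s =>
    (lam (x + cl s • (x' - x)) ^ 2)⁻¹ • L (x + cl s • (x' - x)) with hg
  have hgc : Continuous g := by
    have hpc : Continuous (fun s : ℝ => x + cl s • (x' - x)) := by
      have := cl_cont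
      fun_prop
    exact (g_contOn hZ).comp_continuous hpc (fun s => seg_mem hZ hx hx' (cl_mem s))
  have hd : ∀ t, HasDerivAt (fun t => ∫ s in (0 : ℝ)..t, g s) (g t) t := fun t =>
    intervalIntegral.integral_hasDerivAt_right (hgc.intervalIntegrable 0 t)
      (hgc.stronglyMeasurableAtFilter _ _) hgc.continuousAt
  refine ⟨fun t => ∫ s in (0 : ℝ)..t, g s, ?_, ?_, ?_, ?_⟩
  · exact continuous_iff_continuousAt.2 fun t => (hd t).continuousAt
  · simp
  · refine intervalIntegral.integral_congr fun s hs => ?_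
    rw [uIcc_of_le zero_le_one] at hs
    simp only [hg, cl_eq hs]
  · intro t ht
    have := hd t
    simp only [hg, cl_eq ht] at this
    exact this

lemma hasDerivAt_lam_seg {x x' : E} (hx : x ∈ M) (hx' : x' ∈ M) {t : ℝ} (ht : t ∈ Icc (0 : ℝ) 1) :
    HasDerivAt (fun t : ℝ => lam (x + t • (x' - x))) (L (x + t • (x' - x)) (x' - x)) t := by
  have hl : HasDerivAt (fun t : ℝ => x + t • (x' - x)) (x' - x) t := by
    have := ((hasDerivAt_id t).smul_const (x' - x)).const_add x
    rw [one_smul] at this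
    exact this
  exact HasFDerivAt.comp_hasDerivAt (l := lam) (f := fun t : ℝ => x + t • (x' - x)) t
    (hZ.lam_deriv _ (seg_mem hZ hx hx' ht)) hl

/-- `I(x, x')(x' - x) = 1/λ(x) - 1/λ(x')`, in the parametric form -/
lemma primitive_self {x x' : E} (hx : x ∈ M) (hx' : x' ∈ M) {J : ℝ → E →L[ℝ] ℝ} (hJ0 : J 0 = 0)
    (hJ : ∀ t ∈ Icc (0 : ℝ) 1, HasDerivAt J
        ((lam (x + t • (x' - x)) ^ 2)⁻¹ • L (x + t • (x' - x))) t) {t : ℝ}
    (ht : t ∈ Icc (0 : ℝ) 1) :
    J t (x' - x) = 1 / lam x - 1 / lam (x + t • (x' - x)) := by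
  have hd : ∀ t ∈ Icc (0 : ℝ) 1, HasDerivAt
      (fun t : ℝ => J t (x' - x) + (lam (x + t • (x' - x)))⁻¹) 0 t := by
    intro t ht
    have h1 := (hJ t ht).clm_apply (hasDerivAt_const t (x' - x))
    have h2 := (hasDerivAt_lam_seg hZ hx hx' ht).inv (hZ.lam_pos _ (seg_mem hZ hx hx' ht)).ne'
    refine (h1.add h2).congr_deriv ?_
    simp only [smul_apply, smul_eq_mul, map_zero, add_zero]
    have := hZ.lam_pos _ (seg_mem hZ hx hx' ht)
    field_simp
    ring
  have h2 := constant_of_has_deriv_right_zero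
    (f := fun t : ℝ => J t (x' - x) + (lam (x + t • (x' - x)))⁻¹) (a := 0) (b := 1)
    (fun r hr => (hd r hr).continuousAt.continuousWithinAt)
    (fun r hr => (hd r ⟨hr.1, hr.2.le⟩).hasDerivWithinAt) t ht
  simp only [hJ0, zero_smul, add_zero, zero_apply, zero_add] at h2
  rw [one_div, one_div]
  linarith

lemma I_self {x x' : E} (hx : x ∈ M) (hx' : x' ∈ M) :
    I lam L x x' (x' - x) = 1 / lam x - 1 / lam x' := by
  obtain ⟨J, hJc, hJ0, hJ1, hJ⟩ := exists_primitive hZ hx hx'
  have := primitive_self hZ hx hx' hJ0 hJ (right_mem_Icc.2 zero_le_one)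
  rw [hJ1, one_smul, add_sub_cancel] at this
  exact this

omit hZ in
lemma I_symm (x x' : E) : I lam L x' x = I lam L x x' := by
  have h1 := intervalIntegral.integral_comp_sub_left (a := (0 : ℝ)) (b := 1)
    (fun s => ((lam (x + s • (x' - x)) ^ 2)⁻¹ • L (x + s • (x' - x)))) 1
  rw [sub_self, sub_zero] at h1
  rw [I, I, ← h1]
  refine intervalIntegral.integral_congr fun s _ => ?_
  have : x' + s • (x - x') = x + (1 - s) • (x' - x) := by module
  simp only [this]

/-- **Transport preserves `F`.** -/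
theorem F_T {x x' : E} (hx : x ∈ M) (hx' : x' ∈ M) (y : E) : F x' (T lam L x x' y) = F x y := by
  by_cases hy : y = 0
  · subst hy
    rw [map_zero, (hZ.norm _ hx).zero, (hZ.norm _ hx').zero]
  obtain ⟨J, hJc, hJ0, hJ1, hJ⟩ := exists_primitive hZ hx hx'
  set z := x' - x with hz
  set Y : ℝ → E := fun t => (lam (x + t • z) / lam x) • (y + (lam (x + t • z) * J t y) • z) with hY
  have hlx := hZ.lam_pos x hx
  have hYne : ∀ t ∈ Icc (0 : ℝ) 1, Y t ≠ 0 := by
    intro t ht h0
    have hlt := hZ.lam_pos _ (seg_mem hZ hx hx' ht)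
    rw [← hz] at hlt
    have h1 : y + (lam (x + t • z) * J t y) • z = 0 := by
      rcases smul_eq_zero.1 h0 with h | h
      · exact absurd h (by positivity)
      · exact h
    have h2 : J t z = 1 / lam x - 1 / lam (x + t • z) := primitive_self hZ hx hx' hJ0 hJ ht
    have h3 := congrArg (J t) h1
    rw [map_add, map_smul, map_zero, smul_eq_mul, h2] at h3
    have h4 : J t y * (lam (x + t • z) / lam x) = 0 := by
      rw [← h3]; field_simp; ring
    have h5 : J t y = 0 := (mul_eq_zero.1 h4).resolve_right (by positivity)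
    rw [h5, mul_zero, zero_smul, add_zero] at h1
    exact hy h1
  have hd : ∀ t ∈ Icc (0 : ℝ) 1, HasDerivAt (fun t : ℝ => F (x + t • z) (Y t)) 0 t := by
    intro t ht
    have hxt := seg_mem hZ hx hx' ht
    rw [← hz] at hxt
    have hlt := hZ.lam_pos _ hxt
    have hYt := hYne t ht
    obtain ⟨Φ, hΦ, hform⟩ := hZ.deriv _ hxt _ hYt
    have hl : HasDerivAt (fun t : ℝ => x + t • z) z t := by
      have := ((hasDerivAt_id t).smul_const z).const_add x
      rw [one_smul] at this
      exact this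
    have hlam : HasDerivAt (fun t : ℝ => lam (x + t • z)) (L (x + t • z) z) t :=
      hasDerivAt_lam_seg hZ hx hx' ht
    have hJy : HasDerivAt (fun t : ℝ => J t y) ((lam (x + t • z) ^ 2)⁻¹ * L (x + t • z) y) t := by
      have := (hJ t ht).clm_apply (hasDerivAt_const t y)
      simpa using this
    obtain ⟨Y', hY'⟩ : ∃ Y' : E, Y' = (lam (x + t • z) / lam x) •
        ((L (x + t • z) z * J t y + lam (x + t • z) * ((lam (x + t • z) ^ 2)⁻¹ * L (x + t • z) y)) • z)
        + (L (x + t • z) z / lam x) • (y + (lam (x + t • z) * J t y) • z) := ⟨_, rfl⟩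
    have hYd : HasDerivAt Y Y' t := by
      rw [hY']
      exact (hlam.div_const (lam x)).smul (((hlam.mul hJy).smul_const z).const_add y)
    have h1 := HasFDerivAt.comp_hasDerivAt (l := fun p : E × E => F p.1 p.2)
      (f := fun t : ℝ => (x + t • z, Y t)) t hΦ (hl.prodMk hYd)
    refine h1.congr_deriv ?_
    rw [hform]
    -- `λ Y' = L z • Y + L Y • z`
    have hLY : L (x + t • z) (Y t) = (lam (x + t • z) / lam x) *
        (L (x + t • z) y + (lam (x + t • z) * J t y) * L (x + t • z) z) := by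
      simp only [hY, map_smul, map_add, smul_eq_mul]
    have hkey : lam (x + t • z) • Y' = L (x + t • z) z • Y t + L (x + t • z) (Y t) • z := by
      rw [hLY, hY']
      simp only [hY]
      have e1 : lam (x + t • z) * ((lam (x + t • z) ^ 2)⁻¹ * L (x + t • z) y)
          = L (x + t • z) y / lam (x + t • z) := by field_simp
      rw [e1]
      generalize L (x + t • z) y = p at *
      generalize L (x + t • z) z = q at *
      generalize J t y = j at *
      generalize lam (x + t • z) = l at *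
      generalize lam x = l0 at *
      have e2 : l • ((l / l0) • ((q * j + p / l) • z) + (q / l0) • (y + (l * j) • z))
          = (q * (l / l0)) • y + ((l * (l / l0)) * (q * j) + (l / l0) * (l * (p / l))
            + (l * (q / l0)) * (l * j)) • z := by module
      have e3 : q • (l / l0) • (y + (l * j) • z) + (l / l0 * (p + l * j * q)) • z
          = (q * (l / l0)) • y + (q * (l / l0) * (l * j) + l / l0 * (p + l * j * q)) • z := by module
      rw [e2, e3]
      congr 2
      field_simp
      ring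
    -- apply `Φ (0, ·)`
    have hlin : ∀ v, Φ (0, v) = (Φ.comp (ContinuousLinearMap.inr ℝ E E)) v := fun v => by simp
    have hEuler : Φ (0, Y t) = F (x + t • z) (Y t) := by
      have g1 : HasDerivAt (fun r : ℝ => (x + t • z, r • Y t)) ((0 : E), Y t) 1 := by
        have := (hasDerivAt_id (1 : ℝ)).smul_const (Y t)
        rw [one_smul] at this
        exact (hasDerivAt_const (1 : ℝ) (x + t • z)).prodMk this
      have g2 : HasFDerivAt (fun p : E × E => F p.1 p.2) Φ (x + t • z, (1 : ℝ) • Y t) := by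
        simpa using hΦ
      have g3 := HasFDerivAt.comp_hasDerivAt (l := fun p : E × E => F p.1 p.2)
        (f := fun r : ℝ => (x + t • z, r • Y t)) 1 g2 g1
      have g4 : HasDerivAt (fun r : ℝ => F (x + t • z) (r • Y t)) (F (x + t • z) (Y t)) 1 := by
        have g5 : HasDerivAt (fun r : ℝ => r * F (x + t • z) (Y t)) (F (x + t • z) (Y t)) 1 := by
          simpa using (hasDerivAt_id (1 : ℝ)).mul_const (F (x + t • z) (Y t))
        refine g5.congr_of_eventuallyEq ?_
        filter_upwards [lt_mem_nhds (show (0 : ℝ) < 1 by norm_num)] with r hr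
        rw [(hZ.norm _ hxt).smul, abs_of_pos hr]
      exact g3.unique g4
    have h2 := glin_key (Φ.comp (ContinuousLinearMap.inr ℝ E E)) hkey
    rw [← hlin, ← hlin, ← hlin, hEuler] at h2
    rw [neg_div, neg_add_eq_zero, div_eq_iff hlt.ne']
    linarith
  have h2 := constant_of_has_deriv_right_zero
    (f := fun t : ℝ => F (x + t • z) (Y t)) (a := 0) (b := 1)
    (fun r hr => (hd r hr).continuousAt.continuousWithinAt)
    (fun r hr => (hd r ⟨hr.1, hr.2.le⟩).hasDerivWithinAt) 1 (right_mem_Icc.2 zero_le_one)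
  have e0 : Y 0 = y := by
    simp only [hY, hJ0, zero_smul, add_zero, zero_apply, mul_zero]
    rw [div_self hlx.ne', one_smul]
  have e1 : x + (1 : ℝ) • z = x' := by rw [one_smul, hz]; abel
  have e2 : Y 1 = T lam L x x' y := by
    simp only [hY]
    rw [T_apply, e1, hJ1, ← hz]
  rw [e0, e1, e2, zero_smul, add_zero] at h2
  exact h2

lemma T_T {x x' : E} (hx : x ∈ M) (hx' : x' ∈ M) (y : E) : T lam L x' x (T lam L x x' y) = y := by
  have h1 := I_self hZ hx hx'
  have hl := hZ.lam_pos x hx
  have hl' := hZ.lam_pos x' hx'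
  have h2 : I lam L x x' x' = I lam L x x' x + (1 / lam x - 1 / lam x') := by
    rw [map_sub] at h1; linarith
  rw [T_apply, T_apply, I_symm x x', map_smul, map_add, map_smul, h1]
  simp only [smul_eq_mul]
  generalize I lam L x x' y = p at *
  generalize lam x = l at *
  generalize lam x' = l' at *
  have e1 : (l / l') • ((l' / l) • (y + (l' * p) • (x' - x)) +
      (l * (l' / l * (p + l' * p * (1 / l - 1 / l')))) • (x - x'))
      = (l / l' * (l' / l)) • y + (l / l' * (l' / l) * (l' * p)
        - l / l' * (l * (l' / l * (p + l' * p * (1 / l - 1 / l'))))) • (x' - x) := by module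
  rw [e1]
  have e2 : l / l' * (l' / l) = 1 := by field_simp
  have e3 : l / l' * (l' / l) * (l' * p)
        - l / l' * (l * (l' / l * (p + l' * p * (1 / l - 1 / l')))) = 0 := by
    field_simp; ring
  rw [e3, e2, one_smul, zero_smul, add_zero]

lemma T_det {x x' : E} (hx : x ∈ M) (hx' : x' ∈ M) (a b : E) :
    ω (T lam L x x' a) (T lam L x x' b) = (lam x' / lam x) ^ 3 * ω a b := by
  have h1 := I_self hZ hx hx'
  have hl := hZ.lam_pos x hx
  have hl' := hZ.lam_pos x' hx'
  set z := x' - x with hz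
  set m := I lam L x x' with hm
  have h3 := congrArg m (hZ.area.id3 a b z)
  simp only [map_add, map_smul, map_zero, smul_eq_mul] at h3
  rw [h1] at h3
  have h4 : ω z a = - ω a z := hZ.area.antisymm _ _
  have h5 : ω b z = - ω z b := hZ.area.antisymm _ _
  rw [T_apply, T_apply, ← hz, ← hm]
  simp only [map_smul, map_add, smul_apply, add_apply, smul_eq_mul, hZ.area.self]
  rw [h4, h5] at h3
  have h6 : ω z b * m a + ω a z * m b = ω a b * (1 / lam x - 1 / lam x') := by linarith
  have h7 : lam x' / lam x * (lam x' / lam x *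
      (ω a b + lam x' * m a * ω z b + (lam x' * m b) * (ω a z + lam x' * m a * 0)))
      = (lam x' / lam x) ^ 2 * (ω a b + lam x' * (ω z b * m a + ω a z * m b)) := by ring
  have h8 : (lam x' / lam x) ^ 2 * (ω a b + lam x' * (ω a b * (1 / lam x - 1 / lam x')))
      = (lam x' / lam x) ^ 3 * ω a b := by
    field_simp
    ring
  rw [← h8, ← h6]
  ring

lemma T_self {x : E} (hx : x ∈ M) (y : E) : T lam L x x y = y := by
  rw [T_apply, sub_self, smul_zero, add_zero, div_self (hZ.lam_pos x hx).ne', one_smul]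

lemma T_dir {x x' : E} (hx : x ∈ M) (hx' : x' ∈ M) :
    T lam L x x' (x' - x) = (lam x' / lam x) ^ 2 • (x' - x) := by
  rw [T_apply, I_self hZ hx hx']
  have hl := hZ.lam_pos x hx
  have hl' := hZ.lam_pos x' hx'
  have : (x' - x) + (lam x' * (1 / lam x - 1 / lam x')) • (x' - x)
      = (1 + lam x' * (1 / lam x - 1 / lam x')) • (x' - x) := by module
  rw [this, smul_smul]
  congr 1
  field_simp
  ring

end

end Pool.Agent.Lib_MP_1de93e_gt.Gen
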