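import Mathlib
import Pool.Agent.Lib_MP_1de93e_gt.Transport

/-!
# Classification in low regularity
-/

namespace Pool.Agent.Lib_MP_1de93e_gt.Gen

open Set Filter Topology MeasureTheory intervalIntegral

variable {E : Type*} [NormedAddCommGroup E] [NormedSpace ℝ E]
variable {ω : E →L[ℝ] E →L[ℝ] ℝ} {M : Set E} {F : E → E → ℝ} {lam : E → ℝ} {L : E → E →L[ℝ] ℝ}

section

variable (hZ : ZData ω M F lam L)
include hZ

/-- The holonomy of triangles is trivial at a non-Euclidean point. -/
theorem holonomy {x₀ x₁ x₂ : E} (h0 : x₀ ∈ M) (h1 : x₁ ∈ M) (h2 : x₂ ∈ M)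
    (hne : ¬ GEuclid (F x₀)) (y : E) :
    T lam L x₂ x₀ (T lam L x₁ x₂ (T lam L x₀ x₁ y)) = y := by
  obtain ⟨e, f, hef⟩ := hZ.area.one
  set c : ℝ → E := fun τ => x₁ + cl τ • (x₂ - x₁) with hc
  have hcM : ∀ τ, c τ ∈ M := fun τ => seg_mem hZ h1 h2 (cl_mem τ)
  have hcc : Continuous c := by
    have := cl_cont
    simp only [hc]
    fun_prop
  set h : ℝ → (E →ₗ[ℝ] E) := fun τ =>
    (T lam L (c τ) x₀).comp ((T lam L x₁ (c τ)).comp (T lam L x₀ x₁)) with hh
  have hhy : ∀ τ y, h τ y = T lam L (c τ) x₀ (T lam L x₁ (c τ) (T lam L x₀ x₁ y)) :=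
    fun τ y => rfl
  have hiso : ∀ τ y, F x₀ (h τ y) = F x₀ y := by
    intro τ y
    rw [hhy, F_T hZ (hcM τ) h0, F_T hZ h1 (hcM τ), F_T hZ h0 h1]
  have hdet : ∀ τ, ω (h τ e) (h τ f) = 1 := by
    intro τ
    rw [hhy, hhy, T_det hZ (hcM τ) h0, T_det hZ h1 (hcM τ), T_det hZ h0 h1, hef]
    have a0 := hZ.lam_pos x₀ h0
    have a1 := hZ.lam_pos x₁ h1
    have a2 := hZ.lam_pos _ (hcM τ)
    field_simp
  have hlc : Continuous (fun τ => lam (c τ)) := (lam_cont hZ).comp_continuous hcc hcM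
  have hlne : ∀ τ, lam (c τ) ≠ 0 := fun τ => (hZ.lam_pos _ (hcM τ)).ne'
  have hcont : ∀ y, Continuous (fun τ => h τ y) := by
    intro y
    set y1 := T lam L x₀ x₁ y with hy1
    have hI1 : Continuous (fun τ => I lam L x₁ (c τ)) :=
      I_cont hZ continuous_const hcc (fun _ => h1) hcM
    have hI2 : Continuous (fun τ => I lam L (c τ) x₀) :=
      I_cont hZ hcc continuous_const hcM (fun _ => h0)
    have hu : Continuous (fun τ => T lam L x₁ (c τ) y1) := by
      simp only [T_apply]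
      exact (hlc.div_const _).smul (continuous_const.add
        ((hlc.mul (hI1.clm_apply continuous_const)).smul (hcc.sub continuous_const)))
    have hv : Continuous (fun τ => T lam L (c τ) x₀ (T lam L x₁ (c τ) y1)) := by
      have : (fun τ => T lam L (c τ) x₀ (T lam L x₁ (c τ) y1)) = fun τ =>
          (lam x₀ / lam (c τ)) • (T lam L x₁ (c τ) y1
            + (lam x₀ * I lam L (c τ) x₀ (T lam L x₁ (c τ) y1)) • (x₀ - c τ)) := by
        funext τ
        rw [T_apply (c τ) x₀]
      rw [this]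
      exact (continuous_const.div hlc hlne).smul (hu.add
        ((continuous_const.mul (hI2.clm_apply hu)).smul (continuous_const.sub hcc)))
    exact hv
  have htrc : Continuous (fun τ => tr ω e f (h τ)) := by
    simp only [tr]
    exact ((ω.continuous.comp (hcont e)).clm_apply continuous_const).add
      ((ω e).continuous.comp (hcont f))
  have hN := hZ.norm x₀ h0
  have htr0 : tr ω e f (h 0) = 2 := by
    have hc0 : c 0 = x₁ := by simp [hc, cl]
    have hid : ∀ y, h 0 y = y := by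
      intro y
      rw [hhy, hc0, T_self hZ h1, T_T hZ h0 h1]
    rw [tr, hid, hid, hef]
    norm_num
  have htr1 : tr ω e f (h 1) = 2 := by
    by_contra hcon
    have hle := tr_le hZ.area hef hN (hiso 1) (hdet 1)
    have hlt : tr ω e f (h 1) < 2 := lt_of_le_of_ne hle hcon
    -- a small angle
    have hev : ∀ᶠ θ in 𝓝 (0 : ℝ), tr ω e f (h 1) / 2 < Real.cos θ := by
      have : tr ω e f (h 1) / 2 < Real.cos 0 := by rw [Real.cos_zero]; linarith
      exact Real.continuous_cos.continuousAt.eventually (lt_mem_nhds this)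
    obtain ⟨δ, hδ, hδs⟩ := Metric.eventually_nhds_iff.1 hev
    have hpi := Real.pi_pos
    obtain ⟨r, hr, hr0, hr1⟩ := exists_irrational_btwn (show (0 : ℝ) < δ / (2 * Real.pi) by positivity)
    set θ := 2 * Real.pi * r with hθ
    have hθ0 : 0 < θ := by positivity
    have hθ1 : θ < δ := by
      rw [lt_div_iff₀ (by positivity)] at hr1
      rw [hθ]; linarith
    have hcos : tr ω e f (h 1) / 2 < Real.cos θ := by
      refine hδs ?_
      rw [Real.dist_eq, sub_zero, abs_of_pos hθ0]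
      exact hθ1
    have hmem : 2 * Real.cos θ ∈ Icc (tr ω e f (h 1)) (tr ω e f (h 0)) := by
      rw [htr0]
      constructor
      · linarith
      · linarith [Real.cos_le_one θ]
    obtain ⟨τ, -, hτ⟩ := intermediate_value_Icc' (zero_le_one) htrc.continuousOn hmem
    apply hne
    refine euclid_of_irrational hZ.area hef hN (hiso τ) (hdet τ) (hZ.cont x₀ h0) hτ ?_
    have : θ / (2 * Real.pi) = r := by rw [hθ]; field_simp
    rw [this]
    exact hr
  have hfin := eq_id_of_tr hZ.area hef hN (hiso 1) (hdet 1) htr1 y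
  have hc1 : c 1 = x₂ := by simp [hc, cl]
  rw [hhy, hc1] at hfin
  exact hfin

/-- **Classification.** -/
theorem classification :
    (∀ x ∈ M, GEuclid (F x)) ∨ ∃ x₀ ∈ M, ∃ m : E →L[ℝ] ℝ, (∀ x ∈ M, 0 < 1 + m (x - x₀)) ∧
      ∀ x ∈ M, ∀ v : E, F x v = F x₀ ((1 + m (x - x₀))⁻¹ • v
        - (((1 + m (x - x₀)) ^ 2)⁻¹ * m v) • (x - x₀)) := by
  by_cases hall : ∀ x ∈ M, GEuclid (F x)
  · exact Or.inl hall
  push Not at hall
  obtain ⟨x₀, hx₀, hne⟩ := hall
  right
  have hω := hZ.area
  -- the parallel frame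
  have hA : ∀ x₁ ∈ M, ∀ x₂ ∈ M, ∀ y, T lam L x₂ x₀ (T lam L x₁ x₂ y) = T lam L x₁ x₀ y := by
    intro x₁ h1 x₂ h2 y
    have := holonomy hZ hx₀ h1 h2 hne (T lam L x₁ x₀ y)
    rwa [T_T hZ h1 hx₀] at this
  set W : E → (E →ₗ[ℝ] E) := fun x => lam x ^ 2 • T lam L x x₀ with hW
  have hWy : ∀ x y, W x y = lam x ^ 2 • T lam L x x₀ y := fun x y => rfl
  have hWdir : ∀ x ∈ M, ∀ a, x + a ∈ M → W (x + a) a = W x a := by
    intro x hx a hxa
    have h1 := hA x hx (x + a) hxa a
    have h2 := T_dir hZ hx hxa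
    rw [add_sub_cancel_left] at h2
    rw [h2, map_smul] at h1
    rw [hWy, hWy, ← h1, smul_smul]
    congr 1
    have := hZ.lam_pos x hx
    field_simp
  -- the vector `v`
  have hD : ∀ x ∈ M, ∀ a, x + a ∈ M → a ≠ 0 → ∃ v : E, ∀ y, W (x + a) y - W x y = ω a y • v := by
    intro x hx a hxa ha
    obtain ⟨b, hb⟩ := hω.exists_ne ha
    refine ⟨(ω a b)⁻¹ • (W (x + a) b - W x b), fun y => ?_⟩
    have h1 := hω.id3 a b y
    have h2 : ω a b • y = ω a y • b - ω b y • a := by
      have h3 : ω y a = - ω a y := hω.antisymm _ _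
      rw [h3] at h1
      have h4 : ω a b • y = (ω a b • y + ω b y • a + -(ω a y) • b) + (ω a y • b - ω b y • a) := by
        module
      rw [h1, zero_add] at h4
      exact h4
    have h5 : ω a b • (W (x + a) y - W x y) = ω a y • (W (x + a) b - W x b) := by
      have h6 := congrArg (W (x + a) - W x) h2
      simp only [map_smul, map_sub, LinearMap.sub_apply] at h6
      rw [hWdir x hx a hxa, sub_self, smul_zero, sub_zero] at h6
      exact h6
    have h7 : W (x + a) y - W x y = (ω a b)⁻¹ • (ω a b • (W (x + a) y - W x y)) := by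
      rw [smul_smul, inv_mul_cancel₀ hb, one_smul]
    rw [h7, h5, smul_smul, smul_smul, mul_comm]
  have hindep : ∀ a b v v', x₀ + a ∈ M → x₀ + b ∈ M → ω a b ≠ 0 →
      (∀ y, W (x₀ + a) y - W x₀ y = ω a y • v) → (∀ y, W (x₀ + b) y - W x₀ y = ω b y • v') →
      v = v' := by
    intro a b v v' ha hb hab hv hv'
    have hba : b - a ≠ 0 := by
      intro h0
      apply hab
      rw [sub_eq_zero.1 h0]
      exact hω.self a
    have hmem : x₀ + a + (b - a) ∈ M := by
      have : x₀ + a + (b - a) = x₀ + b := by abel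
      rw [this]; exact hb
    obtain ⟨v'', hv''⟩ := hD (x₀ + a) ha (b - a) hmem hba
    have e1 : x₀ + a + (b - a) = x₀ + b := by abel
    rw [e1] at hv''
    have hsum : ∀ y, ω b y • v' = ω a y • v + ω (b - a) y • v'' := by
      intro y
      rw [← hv, ← hv', ← hv'']
      abel
    have h1 := hsum a
    have h2 := hsum b
    simp only [map_sub, sub_apply, hω.self, zero_smul, zero_add, sub_zero, zero_sub] at h1 h2
    have h3 : ω b a ≠ 0 := by rw [hω.antisymm]; exact neg_ne_zero.2 hab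
    have h4 : v' = v'' := smul_right_injective E h3 h1
    have h5 : ω a b • v = ω a b • v'' := by
      have : ω a b • v = ω a b • v + -ω a b • v'' + ω a b • v'' := by module
      rw [this, ← h2, zero_add]
    have h6 : v = v'' := smul_right_injective E hab h5
    rw [h4, h6]
  obtain ⟨v, hv⟩ : ∃ v : E, ∀ x ∈ M, ∀ y, W x y - W x₀ y = ω (x - x₀) y • v := by
    obtain ⟨e, f, hef⟩ := hω.one
    -- two small independent vectors
    obtain ⟨r, hr, hrM⟩ := Metric.isOpen_iff.1 hZ.isOpen x₀ hx₀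
    have hsmall : ∀ w : E, ∃ t : ℝ, 0 < t ∧ x₀ + t • w ∈ M := by
      intro w
      refine ⟨r / (2 * (‖w‖ + 1)), by positivity, hrM ?_⟩
      rw [Metric.mem_ball, dist_eq_norm, add_sub_cancel_left, norm_smul, Real.norm_eq_abs,
        abs_of_pos (by positivity)]
      rw [div_mul_eq_mul_div, div_lt_iff₀ (by positivity)]
      nlinarith [norm_nonneg w]
    obtain ⟨s, hs, hse⟩ := hsmall e
    obtain ⟨t, ht, htf⟩ := hsmall f
    have he : e ≠ 0 := hω.ne_zero_of (by rw [hef]; exact one_ne_zero)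
    have hf : f ≠ 0 := by
      rintro rfl
      simp at hef
    obtain ⟨v1, hv1⟩ := hD x₀ hx₀ (s • e) hse (smul_ne_zero hs.ne' he)
    obtain ⟨v2, hv2⟩ := hD x₀ hx₀ (t • f) htf (smul_ne_zero ht.ne' hf)
    have hst : ω (s • e) (t • f) ≠ 0 := by
      simp only [map_smul, smul_apply, smul_eq_mul, hef]
      positivity
    have h12 : v1 = v2 := hindep _ _ _ _ hse htf hst hv1 hv2
    refine ⟨v1, fun x hx y => ?_⟩
    by_cases hx0 : x - x₀ = 0
    · have : x = x₀ := sub_eq_zero.1 hx0
      rw [hx0, this]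
      simp
    have hxm : x₀ + (x - x₀) ∈ M := by simpa using hx
    obtain ⟨v3, hv3⟩ := hD x₀ hx₀ (x - x₀) hxm hx0
    have hv3' : v3 = v1 := by
      by_cases h3 : ω (x - x₀) (s • e) = 0
      · have h4 : ω (x - x₀) (t • f) ≠ 0 := by
          intro h4
          apply hx0
          have h5 := hω.expand hef (x - x₀)
          have h6 : ω (x - x₀) f = 0 := by
            simp only [map_smul, smul_eq_mul] at h4
            exact (mul_eq_zero.1 h4).resolve_left ht.ne'
          have h7 : ω e (x - x₀) = 0 := by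
            simp only [map_smul, smul_eq_mul] at h3
            rw [hω.antisymm, (mul_eq_zero.1 h3).resolve_left hs.ne', neg_zero]
          rw [h6, h7] at h5
          simpa using h5
        rw [hindep _ _ _ _ hxm htf h4 hv3 hv2, h12]
      · exact hindep _ _ _ _ hxm hse h3 hv3 hv1
    have h8 := hv3 y
    rw [hv3'] at h8
    have e1 : x₀ + (x - x₀) = x := by abel
    rw [e1] at h8
    exact h8
  have hl0 := hZ.lam_pos x₀ hx₀
  have hW0 : ∀ y, W x₀ y = lam x₀ ^ 2 • y := by
    intro y; rw [hWy, T_self hZ hx₀]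
  have hWform : ∀ x ∈ M, ∀ y, W x y = lam x₀ ^ 2 • y + ω (x - x₀) y • v := by
    intro x hx y
    rw [← hv x hx y, hW0]; abel
  -- determinants give `λ`
  have hlam : ∀ x ∈ M, lam x = lam x₀ + ω (x - x₀) v / lam x₀ := by
    intro x hx
    obtain ⟨e, f, hef⟩ := hω.one
    have hl := hZ.lam_pos x hx
    set z := x - x₀ with hz
    have h1 : ω (W x e) (W x f) = lam x * lam x₀ ^ 3 := by
      rw [hWy, hWy]
      simp only [map_smul, smul_apply, smul_eq_mul]
      rw [T_det hZ hx hx₀, hef]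
      field_simp
    rw [hWform x hx, hWform x hx, ← hz] at h1
    simp only [map_add, map_smul, add_apply, smul_apply, smul_eq_mul, hω.self, hef] at h1
    have h2 := congrArg (fun u => ω u v) (hω.id3 e f z)
    simp only [map_add, map_smul, add_apply, smul_apply, smul_eq_mul, hef, map_zero,
      zero_apply] at h2
    have h3 : ω v f = - ω f v := hω.antisymm _ _
    have h4 : ω z f = - ω f z := hω.antisymm _ _
    rw [h3, h4] at h1
    have h5 : lam x * lam x₀ ^ 3 = lam x₀ ^ 4 + lam x₀ ^ 2 * ω z v := by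
      have h6 : ω z v = -(ω f z * ω e v) - ω z e * ω f v := by linarith
      rw [h6, ← h1]
      ring
    have h7 : lam x₀ + ω z v / lam x₀ = (lam x₀ ^ 4 + lam x₀ ^ 2 * ω z v) / lam x₀ ^ 3 := by
      field_simp
    rw [h7, ← h5]
    field_simp
  set m : E →L[ℝ] ℝ := (lam x₀ ^ 2)⁻¹ • (ω.flip v) with hm
  have hmy : ∀ y, m y = ω y v / lam x₀ ^ 2 := by
    intro y
    simp only [hm, smul_apply, ContinuousLinearMap.flip_apply, smul_eq_mul]
    field_simp
  have hk : ∀ x ∈ M, 1 + m (x - x₀) = lam x / lam x₀ := by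
    intro x hx
    rw [hmy, hlam x hx]
    field_simp
  refine ⟨x₀, hx₀, m, fun x hx => ?_, fun x hx y => ?_⟩
  · rw [hk x hx]
    exact div_pos (hZ.lam_pos x hx) hl0
  · have hl := hZ.lam_pos x hx
    rw [← F_T hZ hx hx₀ y]
    congr 1
    have h1 : T lam L x x₀ y = (lam x ^ 2)⁻¹ • W x y := by
      rw [hWy, smul_smul, inv_mul_cancel₀ (by positivity), one_smul]
    rw [h1, hWform x hx, hk x hx, hmy]
    have h2 := hω.id3 (x - x₀) v y
    have h3 : ω v y = - ω y v := hω.antisymm _ _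
    have h4 : ω y (x - x₀) = - ω (x - x₀) y := hω.antisymm _ _
    rw [h3, h4] at h2
    have h5 : ω (x - x₀) y • v = ω (x - x₀) v • y - ω y v • (x - x₀) := by
      have h6 : ω (x - x₀) y • v = ω (x - x₀) v • y - ω y v • (x - x₀)
          - (ω (x - x₀) v • y + -ω y v • (x - x₀) + -ω (x - x₀) y • v) := by module
      rw [h2, sub_zero] at h6
      exact h6
    rw [h5]
    have h7 : ω (x - x₀) v = lam x₀ * (lam x - lam x₀) := by
      rw [hlam x hx]; field_simp; ring
    rw [h7]
    have h8 : (lam x ^ 2)⁻¹ • (lam x₀ ^ 2 • y + ((lam x₀ * (lam x - lam x₀)) • y - ω y v • (x - x₀)))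
        = ((lam x ^ 2)⁻¹ * (lam x₀ ^ 2 + lam x₀ * (lam x - lam x₀))) • y
          - ((lam x ^ 2)⁻¹ * ω y v) • (x - x₀) := by module
    rw [h8]
    congr 2
    · field_simp
      ring
    · field_simp

end

end Pool.Agent.Lib_MP_1de93e_gt.Gen
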