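import Mathlib

/-!
# Finslerian projective-metric planes: definitions

The affine plane is `V = ℝ × ℝ`, with its usual topology.
-/

namespace Pool.Agent.Lib_MP_1de93e_gt

open Set Filter Topology

/-- The affine plane. -/
abbrev V : Type := ℝ × ℝ

/-- `N` is a norm on the plane. -/
structure IsNorm (N : V → ℝ) : Prop where
  smul : ∀ (a : ℝ) (y : V), N (a • y) = |a| * N y
  add : ∀ y z : V, N (y + z) ≤ N y + N z
  pos : ∀ y : V, y ≠ 0 → 0 < N y

/-- Birkhoff orthogonality in the normed plane `(V, N)`: `y ⊥ z`. -/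
def Birkhoff (N : V → ℝ) (y z : V) : Prop := ∀ t : ℝ, N y ≤ N (y + t • z)

/-- Birkhoff orthogonality is symmetric, i.e. the normed plane `(V, N)` is a Radon plane. -/
def SymmPerp (N : V → ℝ) : Prop := ∀ y z : V, Birkhoff N y z → Birkhoff N z y

/-- The square of `N` is a quadratic form. (For a norm `N` this says that `N` comes from an inner
product.) -/
def IsEuclid (N : V → ℝ) : Prop :=
  ∃ a b c : ℝ, ∀ y : V, N y ^ 2 = a * y.1 ^ 2 + b * (y.1 * y.2) + c * y.2 ^ 2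

/-- A projective-metric plane of affine type: `M` is a nonempty open convex subset of the plane and
`d` is a metric on `M` inducing the usual topology, such that `d A B + d B C = d A C` holds exactly
when `B` lies on the segment `[A, C]`. -/
structure ProjMetricPlane (M : Set V) (d : V → V → ℝ) : Prop where
  isOpen : IsOpen M
  convex : Convex ℝ M
  nonempty : M.Nonempty
  self : ∀ P ∈ M, d P P = 0
  pos : ∀ P ∈ M, ∀ Q ∈ M, P ≠ Q → 0 < d P Q
  symm : ∀ P ∈ M, ∀ Q ∈ M, d P Q = d Q P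
  triangle : ∀ P ∈ M, ∀ Q ∈ M, ∀ R ∈ M, d P R ≤ d P Q + d Q R
  topology : ∀ P ∈ M, ∀ U : Set V, U ∈ 𝓝 P ↔ ∃ ε : ℝ, 0 < ε ∧ ∀ Q ∈ M, d P Q < ε → Q ∈ U
  additive : ∀ A ∈ M, ∀ B ∈ M, ∀ C ∈ M, d A B + d B C = d A C ↔ B ∈ segment ℝ A C

/-- `d` is the length metric of the continuous Finsler function `F`: each `F x` is a norm, and
`d P Q` is the infimum of the lengths of the `C¹` curves `γ : [0, 1] → M` from `P` to `Q`. -/
structure IsFinsler (M : Set V) (d : V → V → ℝ) (F : V → V → ℝ) : Prop where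
  cont : ContinuousOn (fun p : V × V => F p.1 p.2) (M ×ˢ univ)
  norm : ∀ x ∈ M, IsNorm (F x)
  length : ∀ P ∈ M, ∀ Q ∈ M, IsGLB {L : ℝ | ∃ γ : ℝ → V, ContDiff ℝ 1 γ ∧ γ 0 = P ∧ γ 1 = Q ∧
    (∀ t ∈ Icc (0 : ℝ) 1, γ t ∈ M) ∧ L = ∫ t in (0 : ℝ)..1, F (γ t) (deriv γ t)} (d P Q)

/-- The metric space `(M, d)` is complete. -/
def IsCompleteMetric (M : Set V) (d : V → V → ℝ) : Prop :=
  ∀ u : ℕ → V, (∀ n, u n ∈ M) →
    (∀ ε > 0, ∃ n₀, ∀ i ≥ n₀, ∀ j ≥ n₀, d (u i) (u j) < ε) →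
    ∃ y ∈ M, ∀ ε > 0, ∃ n₀, ∀ n ≥ n₀, d (u n) y < ε

/-- The projective (fractional linear) map `x ↦ (x - x₀) / (1 + m (x - x₀))`. -/
noncomputable def proj (x₀ : V) (m : V →L[ℝ] ℝ) (x : V) : V := (1 + m (x - x₀))⁻¹ • (x - x₀)

end Pool.Agent.Lib_MP_1de93e_gt
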