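import Mathlib
import Pool.Agent.Lib_MP_1de93e_gt.Defs

/-!
# The two-dimensional core lemma

`N` is a norm on the plane, `C²` away from the origin, with symmetric Birkhoff orthogonality
(a Radon norm).  `Q` is an odd, `1`-homogeneous function, differentiable away from `0`, with
`dQ_{ξ(y)}[y] + 2 Q(y) = 0` for all `y ≠ 0`, where `ξ(y)` is the rotated gradient of `N`.
Then `Q = 0`.
-/

namespace Pool.Agent.Lib_MP_1de93e_gt

open Set Filter Topology

/-- the determinant of two vectors -/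
def det (a b : V) : ℝ := a.1 * b.2 - a.2 * b.1

lemma det_add_smul (a b : V) (s : ℝ) : det (a + s • b) b = det a b := by
  simp only [det, Prod.fst_add, Prod.snd_add, Prod.smul_fst, Prod.smul_snd, smul_eq_mul]; ring

lemma parallel_of_det {z y : V} (hy : y ≠ 0) (h : det z y = 0) : ∃ k : ℝ, z = k • y := by
  rcases y with ⟨y1, y2⟩
  rcases z with ⟨z1, z2⟩
  simp only [det] at h
  by_cases h1 : y1 = 0
  · have h2 : y2 ≠ 0 := by
      intro h2
      exact hy (by simp [h1, h2])
    refine ⟨z2 / y2, ?_⟩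
    have hz : z1 = 0 := by
      rw [h1] at h
      have : z1 * y2 = 0 := by linarith
      exact (mul_eq_zero.1 this).resolve_right h2
    ext
    · simp [h1, hz]
    · simp only [Prod.smul_mk, smul_eq_mul]
      field_simp
  · refine ⟨z1 / y1, ?_⟩
    ext
    · simp only [Prod.smul_mk, smul_eq_mul]
      field_simp
    · simp only [Prod.smul_mk, smul_eq_mul]
      field_simp
      linarith

/-- A linear functional killing `y ≠ 0` kills every `z` with `det z y = 0`. -/
lemma lin_zero_of_det {L : V →L[ℝ] ℝ} {z y : V} (hy : y ≠ 0) (hL : L y = 0) (h : det z y = 0) :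
    L z = 0 := by
  obtain ⟨k, rfl⟩ := parallel_of_det hy h
  rw [map_smul, hL, smul_zero]

lemma lin_eq (L : V →L[ℝ] ℝ) (w : V) : L w = w.1 * L (1, 0) + w.2 * L (0, 1) := by
  have h : w = w.1 • ((1, 0) : V) + w.2 • ((0, 1) : V) := by
    ext <;> simp
  conv_lhs => rw [h]
  rw [map_add, map_smul, map_smul, smul_eq_mul, smul_eq_mul]

/-- rotation of a covector to a vector in its kernel -/
def rot (L : V →L[ℝ] ℝ) : V := (-(L (0, 1)), L (1, 0))

lemma rot_ker (L : V →L[ℝ] ℝ) : L (rot L) = 0 := by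
  rw [lin_eq]; simp only [rot]; ring

lemma det_rot (L : V →L[ℝ] ℝ) (y : V) : det y (rot L) = L y := by
  rw [lin_eq L y]; simp only [det, rot]; ring

lemma det_rot' (L : V →L[ℝ] ℝ) (y : V) : det (rot L) y = - L y := by
  rw [lin_eq L y]; simp only [det, rot]; ring

variable {N : V → ℝ}

lemma IsNorm.zero (hN : IsNorm N) : N 0 = 0 := by
  have := hN.smul 0 0
  simpa using this

lemma IsNorm.neg (hN : IsNorm N) (y : V) : N (-y) = N y := by
  have := hN.smul (-1) y
  simpa using this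

section Deriv

variable (hN : IsNorm N) (hd : ∀ y : V, y ≠ 0 → DifferentiableAt ℝ N y)
include hN hd

/-- Euler's identity -/
lemma euler (y : V) (hy : y ≠ 0) : fderiv ℝ N y y = N y := by
  have h1 : HasDerivAt (fun t : ℝ => N (t • y)) (fderiv ℝ N y y) 1 := by
    have h := (hd y hy).hasFDerivAt
    have h' : HasFDerivAt N (fderiv ℝ N y) ((1 : ℝ) • y) := by simpa using h
    have hl : HasDerivAt (fun t : ℝ => t • y) y 1 := by
      simpa using (hasDerivAt_id (1 : ℝ)).smul_const y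
    exact HasFDerivAt.comp_hasDerivAt (l := N) 1 h' hl
  have h2 : HasDerivAt (fun t : ℝ => N (t • y)) (N y) 1 := by
    have h3 : HasDerivAt (fun t : ℝ => t * N y) (N y) 1 := by
      simpa using (hasDerivAt_id (1 : ℝ)).mul_const (N y)
    refine h3.congr_of_eventuallyEq ?_
    filter_upwards [lt_mem_nhds (show (0 : ℝ) < 1 by norm_num)] with t ht
    rw [hN.smul, abs_of_pos ht]
  exact h1.unique h2

lemma fderiv_smul' (y : V) (hy : y ≠ 0) (a : ℝ) (ha : a ≠ 0) :
    a • fderiv ℝ N (a • y) = |a| • fderiv ℝ N y := by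
  have hay : a • y ≠ 0 := smul_ne_zero ha hy
  have h1 : HasFDerivAt (fun z : V => N (a • z)) ((fderiv ℝ N (a • y)).comp
      (a • ContinuousLinearMap.id ℝ V)) y := by
    have h2 : HasFDerivAt (fun z : V => a • z) (a • ContinuousLinearMap.id ℝ V) y :=
      (hasFDerivAt_id y).const_smul a
    exact HasFDerivAt.comp (g := N) y (hd _ hay).hasFDerivAt h2
  have h3 : HasFDerivAt (fun z : V => N (a • z)) (|a| • fderiv ℝ N y) y := by
    have h4 : (fun z : V => N (a • z)) = fun z => |a| * N z := by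
      funext z; exact hN.smul a z
    rw [h4]
    exact (hd y hy).hasFDerivAt.const_mul |a|
  have h5 := h1.unique h3
  ext z
  · have := congrArg (fun L : V →L[ℝ] ℝ => L (1, 0)) h5
    simpa using this
  · have := congrArg (fun L : V →L[ℝ] ℝ => L (0, 1)) h5
    simpa using this

end Deriv

/-- second derivative data of a norm -/
structure C2Norm (N : V → ℝ) : Prop extends IsNorm N where
  c2 : ContDiffOn ℝ 2 N {0}ᶜ

namespace C2Norm

variable (hN : C2Norm N)
include hN

lemma contDiffAt {y : V} (hy : y ≠ 0) : ContDiffAt ℝ 2 N y :=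
  hN.c2.contDiffAt (isOpen_compl_singleton.mem_nhds hy)

lemma diff {y : V} (hy : y ≠ 0) : DifferentiableAt ℝ N y :=
  (hN.contDiffAt hy).differentiableAt (by norm_num)

lemma diff' {y : V} (hy : y ≠ 0) : DifferentiableAt ℝ (fderiv ℝ N) y := by
  have h : ContDiffAt ℝ 1 (fderiv ℝ N) y := (hN.contDiffAt hy).fderiv_right (by norm_num)
  exact h.differentiableAt (by norm_num)

lemma eul {y : V} (hy : y ≠ 0) : fderiv ℝ N y y = N y :=
  euler hN.toIsNorm (fun _ h => hN.diff h) y hy

lemma fd_smul {y : V} (hy : y ≠ 0) {a : ℝ} (ha : 0 < a) :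
    fderiv ℝ N (a • y) = fderiv ℝ N y := by
  have h := fderiv_smul' hN.toIsNorm (fun _ h => hN.diff h) y hy a ha.ne'
  rw [abs_of_pos ha] at h
  exact smul_right_injective _ ha.ne' h

lemma fd_neg {y : V} (hy : y ≠ 0) : fderiv ℝ N (-y) = - fderiv ℝ N y := by
  have h := fderiv_smul' hN.toIsNorm (fun _ h => hN.diff h) y hy (-1) (by norm_num)
  rw [abs_neg, abs_one, one_smul, neg_smul, one_smul] at h
  refine ContinuousLinearMap.ext fun z => ?_
  have hz := congrArg (fun L : V →L[ℝ] ℝ => L z) h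
  simp only [smul_apply, smul_eq_mul] at hz
  rw [neg_apply]
  linarith

/-- symmetry of the second derivative -/
lemma symm {y : V} (hy : y ≠ 0) (v w : V) :
    fderiv ℝ (fderiv ℝ N) y v w = fderiv ℝ (fderiv ℝ N) y w v := by
  have h := (hN.contDiffAt hy).isSymmSndFDerivAt (by simp)
  exact h v w

/-- `D²N_y[y] = 0` -/
lemma hess_self {y : V} (hy : y ≠ 0) : fderiv ℝ (fderiv ℝ N) y y = 0 := by
  have h1 : HasDerivAt (fun t : ℝ => fderiv ℝ N (t • y)) (fderiv ℝ (fderiv ℝ N) y y) 1 := by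
    have h := (hN.diff' hy).hasFDerivAt
    have h' : HasFDerivAt (fderiv ℝ N) (fderiv ℝ (fderiv ℝ N) y) ((1 : ℝ) • y) := by simpa using h
    have hl : HasDerivAt (fun t : ℝ => t • y) y 1 := by
      simpa using (hasDerivAt_id (1 : ℝ)).smul_const y
    exact HasFDerivAt.comp_hasDerivAt (l := fderiv ℝ N) 1 h' hl
  have h2 : HasDerivAt (fun t : ℝ => fderiv ℝ N (t • y)) 0 1 := by
    refine (hasDerivAt_const (1 : ℝ) (fderiv ℝ N y)).congr_of_eventuallyEq ?_
    filter_upwards [lt_mem_nhds (show (0 : ℝ) < 1 by norm_num)] with t ht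
    exact hN.fd_smul hy ht
  exact h1.unique h2

end C2Norm

/-- The rotated gradient `ξ(y)`, which spans the kernel of `dN_y`. -/
noncomputable def xi (N : V → ℝ) (y : V) : V := rot (fderiv ℝ N y)

/-- symmetric Birkhoff orthogonality, in differential form -/
def RadonDiff (N : V → ℝ) : Prop := ∀ y : V, y ≠ 0 → fderiv ℝ N (xi N y) y = 0

namespace C2Norm

variable (hN : C2Norm N)
include hN

lemma det_xi {y : V} (hy : y ≠ 0) : det y (xi N y) = N y := by
  rw [xi, det_rot, hN.eul hy]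

lemma xi_ne {y : V} (hy : y ≠ 0) : xi N y ≠ 0 := by
  intro h
  have h1 := hN.det_xi hy
  rw [h] at h1
  simp only [det, Prod.fst_zero, Prod.snd_zero, mul_zero, sub_zero] at h1
  exact (hN.pos y hy).ne h1

lemma fd_xi (y : V) : fderiv ℝ N y (xi N y) = 0 := rot_ker _

lemma hasFDerivAt_xi {y : V} (hy : y ≠ 0) (w : V) :
    HasDerivAt (fun t : ℝ => xi N (y + t • w)) (rot (fderiv ℝ (fderiv ℝ N) y w)) 0 := by
  have hl : HasDerivAt (fun t : ℝ => y + t • w) w 0 := by
    simpa using ((hasDerivAt_id (0 : ℝ)).smul_const w).const_add y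
  have h' : HasFDerivAt (fderiv ℝ N) (fderiv ℝ (fderiv ℝ N) y) (y + (0 : ℝ) • w) := by
    simpa using (hN.diff' hy).hasFDerivAt
  have h1 : HasDerivAt (fun t : ℝ => fderiv ℝ N (y + t • w)) (fderiv ℝ (fderiv ℝ N) y w) 0 :=
    HasFDerivAt.comp_hasDerivAt (f := fun t : ℝ => y + t • w) (l := fderiv ℝ N) 0 h' hl
  have h2 := h1.clm_apply (hasDerivAt_const (0 : ℝ) ((0, 1) : V))
  have h3 := h1.clm_apply (hasDerivAt_const (0 : ℝ) ((1, 0) : V))
  have h4 := h2.neg.prodMk h3
  simp only [map_zero, add_zero] at h4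
  exact h4

/-- `dξ_y[w]` is parallel to `y`. -/
lemma det_dxi {y : V} (hy : y ≠ 0) (w : V) : det (rot (fderiv ℝ (fderiv ℝ N) y w)) y = 0 := by
  rw [det_rot', hN.symm hy, hN.hess_self hy]
  simp

variable (hR : RadonDiff N)
include hR

/-- `N(ξ(y))` does not depend on `y`. -/
lemma c_const {y z : V} (hy : y ≠ 0) (hz : z ≠ 0) : N (xi N y) = N (xi N z) := by
  have hopen : IsOpen ({0}ᶜ : Set V) := isOpen_compl_singleton
  have hconn : IsPreconnected ({0}ᶜ : Set V) := by
    refine (isConnected_compl_singleton_of_one_lt_rank ?_ _).isPreconnected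
    rw [rank_prod', Module.rank_self]
    norm_num
  have hξ : ContDiffOn ℝ 1 (xi N) {0}ᶜ := by
    have h1 : ContDiffOn ℝ 1 (fderiv ℝ N) {0}ᶜ := hN.c2.fderiv_of_isOpen hopen (by norm_num)
    have h2 : ContDiffOn ℝ 1 (fun y => fderiv ℝ N y (0, 1)) {0}ᶜ := h1.clm_apply contDiffOn_const
    have h3 : ContDiffOn ℝ 1 (fun y => fderiv ℝ N y (1, 0)) {0}ᶜ := h1.clm_apply contDiffOn_const
    exact h2.neg.prodMk h3
  have hdiff : DifferentiableOn ℝ (fun y => N (xi N y)) {0}ᶜ := by
    intro y hy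
    have h1 : DifferentiableAt ℝ (xi N) y :=
      (hξ.contDiffAt (hopen.mem_nhds hy)).differentiableAt (by norm_num)
    exact (DifferentiableAt.comp y (hN.diff (hN.xi_ne hy)) h1).differentiableWithinAt
  refine hopen.is_const_of_fderiv_eq_zero hconn hdiff ?_ hy hz
  intro y hy
  have hy' : y ≠ 0 := hy
  have hda : DifferentiableAt ℝ (fun y => N (xi N y)) y := (hdiff y hy).differentiableAt (hopen.mem_nhds hy)
  have key : ∀ w : V, fderiv ℝ (fun y => N (xi N y)) y w = 0 := by
    intro w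
    have hl : HasDerivAt (fun t : ℝ => y + t • w) w 0 := by
      simpa using ((hasDerivAt_id (0 : ℝ)).smul_const w).const_add y
    have h' : HasFDerivAt (fun y => N (xi N y)) (fderiv ℝ (fun y => N (xi N y)) y)
        (y + (0 : ℝ) • w) := by
      simpa using hda.hasFDerivAt
    have h1 : HasDerivAt (fun t : ℝ => N (xi N (y + t • w)))
        (fderiv ℝ (fun y => N (xi N y)) y w) 0 :=
      HasFDerivAt.comp_hasDerivAt (f := fun t : ℝ => y + t • w) (l := fun y => N (xi N y)) 0 h' hl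
    have h2 := hN.hasFDerivAt_xi hy' w
    have h3 : HasFDerivAt N (fderiv ℝ N (xi N y)) (xi N (y + (0 : ℝ) • w)) := by
      simpa using (hN.diff (hN.xi_ne hy')).hasFDerivAt
    have h4 : HasDerivAt (fun t : ℝ => N (xi N (y + t • w)))
        (fderiv ℝ N (xi N y) (rot (fderiv ℝ (fderiv ℝ N) y w))) 0 :=
      HasFDerivAt.comp_hasDerivAt (f := fun t : ℝ => xi N (y + t • w)) (l := N) 0 h3 h2
    rw [h1.unique h4]
    exact lin_zero_of_det hy' (hR y hy') (hN.det_dxi hy' w)
  ext w
  · simpa using key (1, 0)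
  · simpa using key (0, 1)

/-- `ξ(ξ(y)) = -(c / N y) y`, `c = N (ξ y)`. -/
lemma xi_xi {y : V} (hy : y ≠ 0) : xi N (xi N y) = (-(N (xi N y) / N y)) • y := by
  have hξ := hN.xi_ne hy
  have h1 : det (xi N (xi N y)) y = 0 := by
    rw [xi, det_rot', hR y hy, neg_zero]
  obtain ⟨k, hk⟩ := parallel_of_det hy h1
  have h2 : det (xi N y) (xi N (xi N y)) = N (xi N y) := hN.det_xi hξ
  rw [hk] at h2
  have h3 : det (xi N y) (k • y) = - (k * N y) := by
    rw [← hN.det_xi hy]
    simp only [det, Prod.smul_fst, Prod.smul_snd, smul_eq_mul]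
    ring
  rw [h3] at h2
  have hpos := hN.pos y hy
  rw [hk]
  congr 1
  field_simp
  linarith

/-- the derivative of `N` at `ξ(y)` -/
lemma fd_at_xi {y : V} (hy : y ≠ 0) (w : V) :
    fderiv ℝ N (xi N y) w = N (xi N y) / N y * det y w := by
  have h := hN.xi_xi hR hy
  have h1 : det w (xi N (xi N y)) = fderiv ℝ N (xi N y) w := det_rot _ _
  rw [← h1, h]
  simp only [det, Prod.smul_fst, Prod.smul_snd, smul_eq_mul]
  ring

end C2Norm

/-! ### The function `Q` -/

/-- An odd `1`-homogeneous function with the relation `dQ_{ξ(y)}[y] + 2 Q(y) = 0`. -/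
structure QRel (N Q : V → ℝ) : Prop where
  smul : ∀ (a : ℝ) (y : V), Q (a • y) = a * Q y
  diff : ∀ y : V, y ≠ 0 → DifferentiableAt ℝ Q y
  rel : ∀ y : V, y ≠ 0 → fderiv ℝ Q (xi N y) y + 2 * Q y = 0

namespace QRel

variable {Q : V → ℝ} (hQ : QRel N Q)
include hQ

lemma eul {y : V} (hy : y ≠ 0) : fderiv ℝ Q y y = Q y := by
  have h1 : HasDerivAt (fun t : ℝ => Q (t • y)) (fderiv ℝ Q y y) 1 := by
    have h' : HasFDerivAt Q (fderiv ℝ Q y) ((1 : ℝ) • y) := by simpa using (hQ.diff y hy).hasFDerivAt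
    have hl : HasDerivAt (fun t : ℝ => t • y) y 1 := by
      simpa using (hasDerivAt_id (1 : ℝ)).smul_const y
    exact HasFDerivAt.comp_hasDerivAt (l := Q) 1 h' hl
  have h2 : HasDerivAt (fun t : ℝ => Q (t • y)) (Q y) 1 := by
    have h3 : HasDerivAt (fun t : ℝ => t * Q y) (Q y) 1 := by
      simpa using (hasDerivAt_id (1 : ℝ)).mul_const (Q y)
    have h4 : (fun t : ℝ => Q (t • y)) = fun t => t * Q y := by
      funext t; exact hQ.smul t y
    rw [h4]
    exact h3
  exact h1.unique h2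

lemma fd_smul {y : V} (hy : y ≠ 0) {a : ℝ} (ha : a ≠ 0) : fderiv ℝ Q (a • y) = fderiv ℝ Q y := by
  have hay : a • y ≠ 0 := smul_ne_zero ha hy
  have h1 : HasFDerivAt (fun z : V => Q (a • z)) ((fderiv ℝ Q (a • y)).comp
      (a • ContinuousLinearMap.id ℝ V)) y := by
    have h2 : HasFDerivAt (fun z : V => a • z) (a • ContinuousLinearMap.id ℝ V) y :=
      (hasFDerivAt_id y).const_smul a
    exact HasFDerivAt.comp (g := Q) y (hQ.diff _ hay).hasFDerivAt h2
  have h3 : HasFDerivAt (fun z : V => Q (a • z)) (a • fderiv ℝ Q y) y := by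
    have h4 : (fun z : V => Q (a • z)) = fun z => a * Q z := by
      funext z; exact hQ.smul a z
    rw [h4]
    exact (hQ.diff y hy).hasFDerivAt.const_mul a
  have h5 := h1.unique h3
  have h6 : a • fderiv ℝ Q (a • y) = a • fderiv ℝ Q y := by
    rw [← h5]
    ext <;> simp
  exact smul_right_injective _ ha h6

lemma zero : Q 0 = 0 := by
  have := hQ.smul 0 0
  simpa using this

lemma neg (y : V) : Q (-y) = - Q y := by
  have := hQ.smul (-1) y
  simpa using this

lemma rel2 (hN : C2Norm N) (hR : RadonDiff N) {y : V} (hy : y ≠ 0) :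
    fderiv ℝ Q y (xi N y) + 2 * Q (xi N y) = 0 := by
  have hξ := hN.xi_ne hy
  have h := hQ.rel (xi N y) hξ
  have hc : -(N (xi N y) / N y) ≠ 0 := by
    have h1 := hN.pos y hy
    have h2 := hN.pos _ hξ
    have : 0 < N (xi N y) / N y := by positivity
    linarith
  rw [hN.xi_xi hR hy, hQ.fd_smul hy hc] at h
  exact h

/-- **Core lemma.** -/
theorem eq_zero (hN : C2Norm N) (hR : RadonDiff N) (y : V) : Q y = 0 := by
  -- a maximum point of `Q / N`
  obtain ⟨y0, hy0, hmax⟩ : ∃ y0 : V, y0 ≠ 0 ∧ ∀ z : V, z ≠ 0 → Q z / N z ≤ Q y0 / N y0 := by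
    have hS : IsCompact (Metric.sphere (0 : V) 1) := isCompact_sphere _ _
    have hne : (Metric.sphere (0 : V) 1).Nonempty := by
      refine ⟨(1, 0), ?_⟩
      simp
    have hcont : ContinuousOn (fun z : V => Q z / N z) (Metric.sphere (0 : V) 1) := by
      intro z hz
      have hz0 : z ≠ 0 := by
        rintro rfl
        simp at hz
      exact ((hQ.diff z hz0).continuousAt.div (hN.diff hz0).continuousAt
        (hN.pos z hz0).ne').continuousWithinAt
    obtain ⟨y0, hy0S, hy0⟩ := hS.exists_isMaxOn hne hcont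
    have hy0' : y0 ≠ 0 := by
      rintro rfl
      simp at hy0S
    refine ⟨y0, hy0', fun z hz => ?_⟩
    have hzn : 0 < ‖z‖ := norm_pos_iff.2 hz
    have hmem : ‖z‖⁻¹ • z ∈ Metric.sphere (0 : V) 1 := by
      simp [norm_smul, hzn.ne']
    have h1 : Q (‖z‖⁻¹ • z) / N (‖z‖⁻¹ • z) ≤ Q y0 / N y0 := hy0 hmem
    rw [hQ.smul, hN.smul, abs_of_pos (inv_pos.2 hzn),
      mul_div_mul_left _ _ (inv_pos.2 hzn).ne'] at h1
    exact h1
  set m : ℝ := Q y0 / N y0 with hm
  have hle : ∀ z : V, Q z ≤ m * N z := by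
    intro z
    by_cases hz : z = 0
    · rw [hz, hQ.zero, hN.zero, mul_zero]
    · have := hmax z hz
      rwa [div_le_iff₀ (hN.pos z hz)] at this
  have hge : ∀ z : V, -(m * N z) ≤ Q z := by
    intro z
    have := hle (-z)
    rw [hQ.neg, hN.neg] at this
    linarith
  -- it suffices to show `m = 0`
  suffices hm0 : m = 0 by
    have h1 := hle y
    have h2 := hge y
    rw [hm0, zero_mul] at h1 h2
    linarith
  -- normalised points
  have hNy0 := hN.pos y0 hy0
  set a : V := (N y0)⁻¹ • y0 with ha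
  have ha0 : a ≠ 0 := smul_ne_zero (inv_pos.2 hNy0).ne' hy0
  have hNa : N a = 1 := by
    rw [ha, hN.smul, abs_of_pos (inv_pos.2 hNy0), inv_mul_cancel₀ hNy0.ne']
  have hQa : Q a = m := by
    rw [ha, hQ.smul, hm]
    field_simp
  set c : ℝ := N (xi N a) with hc
  have hξ0 := hN.xi_ne ha0
  have hc0 : 0 < c := hN.pos _ hξ0
  set b : V := c⁻¹ • xi N a with hb
  have hb0 : b ≠ 0 := smul_ne_zero (inv_pos.2 hc0).ne' hξ0
  have hNb : N b = 1 := by
    rw [hb, hN.smul, abs_of_pos (inv_pos.2 hc0), ← hc, inv_mul_cancel₀ hc0.ne']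
  have hdNab : fderiv ℝ N a b = 0 := by
    rw [hb, map_smul, hN.fd_xi, smul_zero]
  have hdNba : fderiv ℝ N b a = 0 := by
    rw [hb, hN.fd_smul hξ0 (inv_pos.2 hc0)]
    exact hR a ha0
  -- the derivative of `Q` at `a`
  have hdQa : fderiv ℝ Q a = m • fderiv ℝ N a := by
    have h1 : IsLocalMin (fun z => m * N z - Q z) a := by
      refine Filter.Eventually.of_forall fun z => ?_
      have h2 := hle z
      show m * N a - Q a ≤ m * N z - Q z
      rw [hNa, hQa]
      linarith
    have h3 : HasFDerivAt (fun z => m * N z - Q z) (m • fderiv ℝ N a - fderiv ℝ Q a) a :=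
      ((hN.diff ha0).hasFDerivAt.const_mul m).sub (hQ.diff a ha0).hasFDerivAt
    have h4 := h1.hasFDerivAt_eq_zero h3
    exact (sub_eq_zero.1 h4).symm
  have hdQab : fderiv ℝ Q a b = 0 := by
    rw [hdQa, smul_apply, hdNab, smul_zero]
  have hQb : Q b = 0 := by
    have h1 := hQ.rel2 hN hR ha0
    have h2 : fderiv ℝ Q a (xi N a) = 0 := by
      rw [hdQa, smul_apply, hN.fd_xi, smul_zero]
    rw [hb, hQ.smul]
    have : Q (xi N a) = 0 := by linarith
    rw [this, mul_zero]
  have hdQba : fderiv ℝ Q b a = -2 * m := by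
    rw [hb, hQ.fd_smul hξ0 (inv_pos.2 hc0).ne']
    have := hQ.rel a ha0
    rw [hQa] at this
    linarith
  have hdab : det b a = -(1 / c) := by
    have h1 : det a (xi N a) = 1 := by rw [hN.det_xi ha0, hNa]
    rw [hb]
    simp only [det, Prod.smul_fst, Prod.smul_snd, smul_eq_mul] at h1 ⊢
    field_simp
    linarith
  -- the path
  set w : V := a - b with hw
  set Y : ℝ → V := fun τ => b + τ • w with hY
  have hdetYw : ∀ τ, det (Y τ) w = -(1 / c) := by
    intro τ
    rw [hY]
    simp only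
    rw [det_add_smul, ← hdab, hw]
    simp only [det, Prod.fst_sub, Prod.snd_sub]
    ring
  have hY0 : ∀ τ, Y τ ≠ 0 := by
    intro τ h
    have h1 := hdetYw τ
    rw [h] at h1
    simp only [det, Prod.fst_zero, Prod.snd_zero, zero_mul, sub_zero] at h1
    have : 0 < 1 / c := by positivity
    linarith
  have hYd : ∀ τ, HasDerivAt Y w τ := by
    intro τ
    have h := ((hasDerivAt_id τ).smul_const w).const_add b
    rw [one_smul] at h
    exact h
  -- the functions along the path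
  set f : ℝ → ℝ := fun τ => N (Y τ) with hf
  set f1 : ℝ → ℝ := fun τ => fderiv ℝ N (Y τ) w with hf1
  set f2 : ℝ → ℝ := fun τ => fderiv ℝ (fderiv ℝ N) (Y τ) w w with hf2
  set r : ℝ → ℝ := fun τ => Q (Y τ) with hr
  set r1 : ℝ → ℝ := fun τ => fderiv ℝ Q (Y τ) w with hr1
  set q : ℝ → ℝ := fun τ => Q (xi N (Y τ)) with hq
  have hfd : ∀ τ, HasDerivAt f (f1 τ) τ := fun τ =>
    HasFDerivAt.comp_hasDerivAt (l := N) τ (hN.diff (hY0 τ)).hasFDerivAt (hYd τ)
  have hf1d : ∀ τ, HasDerivAt f1 (f2 τ) τ := by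
    intro τ
    have h1 : HasDerivAt (fun τ => fderiv ℝ N (Y τ)) (fderiv ℝ (fderiv ℝ N) (Y τ) w) τ :=
      HasFDerivAt.comp_hasDerivAt (l := fderiv ℝ N) τ (hN.diff' (hY0 τ)).hasFDerivAt (hYd τ)
    have h2 := h1.clm_apply (hasDerivAt_const τ w)
    simpa using h2
  have hrd : ∀ τ, HasDerivAt r (r1 τ) τ := fun τ =>
    HasFDerivAt.comp_hasDerivAt (l := Q) τ (hQ.diff _ (hY0 τ)).hasFDerivAt (hYd τ)
  have hfpos : ∀ τ, 0 < f τ := fun τ => hN.pos _ (hY0 τ)
  -- derivative of `xi N (Y τ)`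
  have hqd : ∀ τ, HasDerivAt q (-2 * c * f2 τ * r τ) τ := by
    intro τ
    have h1 : HasDerivAt (fun τ => fderiv ℝ N (Y τ)) (fderiv ℝ (fderiv ℝ N) (Y τ) w) τ :=
      HasFDerivAt.comp_hasDerivAt (l := fderiv ℝ N) τ (hN.diff' (hY0 τ)).hasFDerivAt (hYd τ)
    have h2 := h1.clm_apply (hasDerivAt_const τ ((0, 1) : V))
    have h3 := h1.clm_apply (hasDerivAt_const τ ((1, 0) : V))
    have h4 := h2.neg.prodMk h3
    simp only [map_zero, add_zero] at h4
    have h5 : HasDerivAt (fun τ => xi N (Y τ)) (rot (fderiv ℝ (fderiv ℝ N) (Y τ) w)) τ := h4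
    -- `rot (D²N w) = c f2 (Y τ)`
    have h6 : rot (fderiv ℝ (fderiv ℝ N) (Y τ) w) = (c * f2 τ) • Y τ := by
      obtain ⟨k, hk⟩ := parallel_of_det (hY0 τ) (hN.det_dxi (hY0 τ) w)
      have h7 : det w (rot (fderiv ℝ (fderiv ℝ N) (Y τ) w)) = f2 τ := det_rot _ _
      rw [hk] at h7
      have h8 : det w (k • Y τ) = -(k * det (Y τ) w) := by
        simp only [det, Prod.smul_fst, Prod.smul_snd, smul_eq_mul]
        ring
      rw [h8, hdetYw τ] at h7
      rw [hk]
      congr 1
      rw [← h7]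
      field_simp
    have h9 : HasDerivAt q (fderiv ℝ Q (xi N (Y τ)) (rot (fderiv ℝ (fderiv ℝ N) (Y τ) w))) τ :=
      HasFDerivAt.comp_hasDerivAt (l := Q) τ
        (hQ.diff _ (hN.xi_ne (hY0 τ))).hasFDerivAt h5
    refine h9.congr_deriv ?_
    rw [h6, map_smul, smul_eq_mul]
    have h10 := hQ.rel (Y τ) (hY0 τ)
    have h11 : fderiv ℝ Q (xi N (Y τ)) (Y τ) = -2 * r τ := by
      simp only [hr]; linarith
    rw [h11]; ring
  -- decomposition of `w`
  have hdec : ∀ τ, f τ * r1 τ = f1 τ * r τ + 2 / c * q τ := by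
    intro τ
    have hξ := hN.xi_ne (hY0 τ)
    have h1 : w = (f1 τ / f τ) • Y τ + (det (Y τ) w / f τ) • xi N (Y τ) := by
      have hfne := (hfpos τ).ne'
      have e1 : det (Y τ) (xi N (Y τ)) = f τ := hN.det_xi (hY0 τ)
      have e2 : det w (xi N (Y τ)) = f1 τ := det_rot _ _
      have e3 : f τ • w = f1 τ • Y τ + det (Y τ) w • xi N (Y τ) := by
        rw [← e2, ← e1]
        ext
        · simp only [Prod.fst_add, Prod.smul_fst, smul_eq_mul, det]
          ring
        · simp only [Prod.snd_add, Prod.smul_snd, smul_eq_mul, det]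
          ring
      have e4 : w = (f τ)⁻¹ • (f1 τ • Y τ + det (Y τ) w • xi N (Y τ)) := by
        rw [← e3, smul_smul, inv_mul_cancel₀ hfne, one_smul]
      rw [smul_add, smul_smul, smul_smul] at e4
      rw [div_eq_inv_mul, div_eq_inv_mul]
      exact e4
    have h2 : r1 τ = (f1 τ / f τ) * r τ + (det (Y τ) w / f τ) * (-2 * q τ) := by
      have h3 : r1 τ = fderiv ℝ Q (Y τ) ((f1 τ / f τ) • Y τ + (det (Y τ) w / f τ) • xi N (Y τ)) := by
        rw [← h1]
      rw [h3, map_add, map_smul, map_smul, hQ.eul (hY0 τ)]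
      have h4 := hQ.rel2 hN hR (hY0 τ)
      have h5 : fderiv ℝ Q (Y τ) (xi N (Y τ)) = -2 * q τ := by
        simp only [hq]; linarith
      rw [h5]
      simp only [smul_eq_mul, hr]
    rw [h2, hdetYw τ]
    have hfne := (hfpos τ).ne'
    field_simp
  -- second derivative of `r`
  have hr1d : ∀ τ, HasDerivAt r1 (-3 * (r τ / f τ) * f2 τ) τ := by
    intro τ
    have h1 : r1 = fun τ => (f1 τ * r τ + 2 / c * q τ) / f τ := by
      funext τ
      rw [← hdec τ]
      field_simp [(hfpos τ).ne']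
    have h2 : HasDerivAt (fun τ => (f1 τ * r τ + 2 / c * q τ) / f τ)
        (((f2 τ * r τ + f1 τ * r1 τ + 2 / c * (-2 * c * f2 τ * r τ)) * f τ
          - (f1 τ * r τ + 2 / c * q τ) * f1 τ) / f τ ^ 2) τ :=
      (((hf1d τ).mul (hrd τ)).add ((hqd τ).const_mul (2 / c))).div (hfd τ) (hfpos τ).ne'
    rw [h1]
    refine h2.congr_deriv ?_
    rw [← hdec τ]
    have hfne := (hfpos τ).ne'
    have hcne := hc0.ne'
    field_simp
    ring
  -- convexity of `N` along the path
  have hf2nn : ∀ τ, 0 ≤ f2 τ := by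
    intro τ
    have hmono : Monotone f1 := by
      have hconv : ConvexOn ℝ univ f := by
        refine ⟨convex_univ, fun x _ y _ s t hs ht hst => ?_⟩
        have h1 : Y (s • x + t • y) = s • Y x + t • Y y := by
          have : b = s • b + t • b := by rw [← add_smul, hst, one_smul]
          simp only [hY, smul_eq_mul]
          rw [smul_add, smul_add]
          conv_lhs => rw [this]
          module
        simp only [hf]
        rw [h1]
        calc N (s • Y x + t • Y y) ≤ N (s • Y x) + N (t • Y y) := hN.add _ _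
          _ = s • N (Y x) + t • N (Y y) := by
            rw [hN.smul, hN.smul, abs_of_nonneg hs, abs_of_nonneg ht, smul_eq_mul, smul_eq_mul]
      have h2 : f1 = deriv f := by
        funext τ; exact (hfd τ).deriv.symm
      rw [h2]
      have h3 := hconv.monotoneOn_deriv (fun x _ => (hfd x).differentiableAt)
      exact fun x y hxy => h3 (mem_univ x) (mem_univ y) hxy
    have h1 : 0 ≤ deriv f1 τ := hmono.deriv_nonneg
    rwa [(hf1d τ).deriv] at h1
  -- the concave function `H = r - 3 m f`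
  set H1 : ℝ → ℝ := fun τ => r1 τ - 3 * m * f1 τ with hH1
  have hH1d : ∀ τ, HasDerivAt H1 (-3 * (r τ / f τ) * f2 τ - 3 * m * f2 τ) τ := fun τ =>
    (hr1d τ).sub ((hf1d τ).const_mul (3 * m))
  have hanti : Antitone H1 := by
    refine antitone_of_deriv_nonpos (fun τ => (hH1d τ).differentiableAt) fun τ => ?_
    rw [(hH1d τ).deriv]
    have h1 : -m ≤ r τ / f τ := by
      rw [le_div_iff₀ (hfpos τ)]
      have := hge (Y τ)
      simp only [hr, hf]
      linarith
    have h2 := mul_nonneg (hf2nn τ) (show 0 ≤ r τ / f τ + m by linarith)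
    nlinarith
  set K : ℝ → ℝ := fun τ => (r 0 - 3 * m * f 0) + τ * H1 0 - (r τ - 3 * m * f τ) with hK
  have hKd : ∀ τ, HasDerivAt K (H1 0 - H1 τ) τ := by
    intro τ
    have h1 : HasDerivAt (fun τ : ℝ => (r 0 - 3 * m * f 0) + τ * H1 0) (H1 0) τ := by
      simpa using ((hasDerivAt_id τ).mul_const (H1 0)).const_add (r 0 - 3 * m * f 0)
    exact h1.sub ((hrd τ).sub ((hfd τ).const_mul (3 * m)))
  have hYz : Y 0 = b := by simp [hY]
  have hYo : Y 1 = a := by simp [hY, hw]
  have hf0 : f 0 = 1 := by simp only [hf]; rw [hYz, hNb]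
  have hfo : f 1 = 1 := by simp only [hf]; rw [hYo, hNa]
  have hr0 : r 0 = 0 := by simp only [hr]; rw [hYz, hQb]
  have hro : r 1 = m := by simp only [hr]; rw [hYo, hQa]
  have hf10 : f1 0 = -1 := by
    simp only [hf1]; rw [hYz, hw, map_sub, hdNba, hN.eul hb0, hNb]; ring
  have hf11 : f1 1 = 1 := by
    simp only [hf1]; rw [hYo, hw, map_sub, hdNab, hN.eul ha0, hNa]; ring
  have hr10 : r1 0 = -2 * m := by
    simp only [hr1]; rw [hYz, hw, map_sub, hdQba, hQ.eul hb0, hQb]; ring
  have hr11 : r1 1 = m := by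
    simp only [hr1]; rw [hYo, hw, map_sub, hdQab, hQ.eul ha0, hQa]; ring
  have hH10 : H1 0 = m := by
    simp only [hH1]; rw [hr10, hf10]; ring
  have hH11 : H1 1 = -2 * m := by
    simp only [hH1]; rw [hr11, hf11]; ring
  have hK0 : K 0 = 0 := by simp only [hK]; ring
  have hKo : K 1 = 0 := by simp only [hK]; rw [hr0, hf0, hH10, hro, hfo]; ring
  -- `K` is nondecreasing on `[0, 1]`, hence zero there
  have hKmono : MonotoneOn K (Icc 0 1) := by
    refine monotoneOn_of_deriv_nonneg (convex_Icc 0 1)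
      (fun τ _ => (hKd τ).continuousAt.continuousWithinAt)
      (fun τ _ => (hKd τ).differentiableAt.differentiableWithinAt) fun τ hτ => ?_
    rw [(hKd τ).deriv]
    rw [interior_Icc] at hτ
    have := hanti hτ.1.le
    linarith
  have hKz : ∀ τ ∈ Icc (0 : ℝ) 1, K τ = 0 := by
    intro τ hτ
    have h1 := hKmono (left_mem_Icc.2 zero_le_one) hτ hτ.1
    have h2 := hKmono hτ (right_mem_Icc.2 zero_le_one) hτ.2
    linarith
  have hK1 : HasDerivWithinAt K 0 (Icc 0 1) 1 := by
    refine (hasDerivWithinAt_const (1 : ℝ) (Icc 0 1) (0 : ℝ)).congr (fun τ hτ => hKz τ hτ) ?_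
    exact hKz 1 (right_mem_Icc.2 zero_le_one)
  have hK2 : HasDerivWithinAt K (H1 0 - H1 1) (Icc 0 1) 1 := (hKd 1).hasDerivWithinAt
  have hun : UniqueDiffWithinAt ℝ (Icc (0 : ℝ) 1) 1 :=
    uniqueDiffOn_Icc zero_lt_one 1 (right_mem_Icc.2 zero_le_one)
  have h1 : H1 0 - H1 1 = 0 := by
    have e1 := hK2.derivWithin hun
    have e2 := hK1.derivWithin hun
    rw [e1] at e2
    exact e2
  rw [hH10, hH11] at h1
  linarith

end QRel

end Pool.Agent.Lib_MP_1de93e_gt
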