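import Mathlib
import Pool.Agent.Lib_MP_1de93e_gt.Core

/-!
# First variation: Hamel's equation from minimality of straight segments
-/

namespace Pool.Agent.Lib_MP_1de93e_gt

open Set Filter Topology MeasureTheory intervalIntegral

lemma exists_tube {U : Set (ℝ × ℝ)} (hU : IsOpen U)
    (h0 : ∀ t ∈ Icc (0 : ℝ) 1, ((0 : ℝ), t) ∈ U) :
    ∃ δ : ℝ, 0 < δ ∧ ∀ ε ∈ Icc (-δ) δ, ∀ t ∈ Icc (0 : ℝ) 1, (ε, t) ∈ U := by
  obtain ⟨u, v, hu, hv, h0u, h1v, huv⟩ := generalized_tube_lemma (isCompact_singleton (x := (0 : ℝ)))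
    (isCompact_Icc (a := (0 : ℝ)) (b := 1)) hU (by
      rintro ⟨a, b⟩ ⟨ha, hb⟩
      have ha' : a = 0 := ha
      rw [ha']
      exact h0 b hb)
  have h0u' : (0 : ℝ) ∈ u := h0u rfl
  obtain ⟨r, hr, hru⟩ := Metric.isOpen_iff.1 hu 0 h0u'
  refine ⟨r / 2, by positivity, fun ε hε t ht => huv ⟨hru ?_, h1v ht⟩⟩
  rw [Metric.mem_ball, Real.dist_eq, sub_zero, abs_lt]
  constructor <;> [linarith [hε.1]; linarith [hε.2]]

/-- Differentiation under the integral sign for `C¹` integrands. -/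
lemma hasDerivAt_param_integral {Φ : ℝ × ℝ → ℝ} {U : Set (ℝ × ℝ)} (hU : IsOpen U)
    (hΦ : ContDiffOn ℝ 1 Φ U) (h0 : ∀ t ∈ Icc (0 : ℝ) 1, ((0 : ℝ), t) ∈ U) :
    HasDerivAt (fun ε : ℝ => ∫ t in (0 : ℝ)..1, Φ (ε, t))
      (∫ t in (0 : ℝ)..1, fderiv ℝ Φ (0, t) (1, 0)) 0 := by
  obtain ⟨δ, hδ, htube⟩ := exists_tube hU h0
  have hK : IsCompact (Icc (-δ) δ ×ˢ Icc (0 : ℝ) 1) := isCompact_Icc.prod isCompact_Icc
  have hKU : Icc (-δ) δ ×ˢ Icc (0 : ℝ) 1 ⊆ U := fun p hp => htube p.1 hp.1 p.2 hp.2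
  have hcd : ContinuousOn (fun p => fderiv ℝ Φ p (1, 0)) U := by
    have h1 : ContinuousOn (fderiv ℝ Φ) U := hΦ.continuousOn_fderiv_of_isOpen hU (by norm_num)
    exact h1.clm_apply continuousOn_const
  obtain ⟨C, hC⟩ := hK.exists_bound_of_continuousOn (hcd.mono hKU)
  have hcont : ∀ ε ∈ Icc (-δ) δ, ContinuousOn (fun t => Φ (ε, t)) (Icc (0 : ℝ) 1) := by
    intro ε hε
    exact hΦ.continuousOn.comp (by fun_prop) (fun t ht => htube ε hε t ht)
  have hcont' : ContinuousOn (fun t => fderiv ℝ Φ (0, t) (1, 0)) (Icc (0 : ℝ) 1) := by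
    have := hcd.comp (f := fun t : ℝ => ((0 : ℝ), t)) (s := Icc (0 : ℝ) 1) (by fun_prop)
      (fun t ht => h0 t ht)
    exact this
  have hδmem : Ioo (-δ) δ ∈ 𝓝 (0 : ℝ) := Ioo_mem_nhds (by linarith) hδ
  have hIoc : uIoc (0 : ℝ) 1 = Ioc 0 1 := uIoc_of_le zero_le_one
  refine (intervalIntegral.hasDerivAt_integral_of_dominated_loc_of_deriv_le (μ := volume)
    (F := fun ε t => Φ (ε, t)) (F' := fun ε t => fderiv ℝ Φ (ε, t) (1, 0)) (bound := fun _ => C)
    hδmem ?_ ?_ ?_ ?_ ?_ ?_).2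
  · filter_upwards [hδmem] with ε hε
    have h1 := (hcont ε ⟨hε.1.le, hε.2.le⟩).intervalIntegrable_of_Icc (μ := volume) zero_le_one
    rw [hIoc]
    exact h1.1.aestronglyMeasurable
  · exact (hcont 0 ⟨by linarith, hδ.le⟩).intervalIntegrable_of_Icc zero_le_one
  · have h1 := hcont'.intervalIntegrable_of_Icc (μ := volume) zero_le_one
    rw [hIoc]
    exact h1.1.aestronglyMeasurable
  · refine Filter.Eventually.of_forall fun t ht ε hε => ?_
    rw [hIoc] at ht
    exact hC (ε, t) ⟨⟨hε.1.le, hε.2.le⟩, ⟨ht.1.le, ht.2⟩⟩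
  · exact intervalIntegrable_const
  · refine Filter.Eventually.of_forall fun t ht ε hε => ?_
    rw [hIoc] at ht
    have hmem : (ε, t) ∈ U := htube ε ⟨hε.1.le, hε.2.le⟩ t ⟨ht.1.le, ht.2⟩
    have hd : HasFDerivAt Φ (fderiv ℝ Φ (ε, t)) (ε, t) :=
      ((hΦ.contDiffAt (hU.mem_nhds hmem)).differentiableAt (by norm_num)).hasFDerivAt
    have hl : HasDerivAt (fun ε : ℝ => (ε, t)) ((1 : ℝ), (0 : ℝ)) ε :=
      (hasDerivAt_id ε).prodMk (hasDerivAt_const ε t)
    exact HasFDerivAt.comp_hasDerivAt (l := Φ) ε hd hl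

/-- `F` is a Finsler function on the open set `M`, of class `C²` off the zero section. -/
structure FData (M : Set V) (F : V → V → ℝ) : Prop where
  isOpen : IsOpen M
  norm : ∀ x ∈ M, IsNorm (F x)
  c2 : ContDiffOn ℝ 2 (fun p : V × V => F p.1 p.2) (M ×ˢ {0}ᶜ)

/-- Straight segments are locally shortest among `C¹` curves. -/
def LocMin (M : Set V) (F : V → V → ℝ) : Prop :=
  ∀ x ∈ M, ∃ r : ℝ, 0 < r ∧ Metric.ball x r ⊆ M ∧ ∀ γ : ℝ → V, ContDiff ℝ 1 γ →
    (∀ t ∈ Icc (0 : ℝ) 1, γ t ∈ Metric.ball x r) →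
    ∫ t in (0 : ℝ)..1, F (γ 0 + t • (γ 1 - γ 0)) (γ 1 - γ 0) ≤ ∫ t in (0 : ℝ)..1, F (γ t) (deriv γ t)

/-- derivative in the base point -/
noncomputable def Fx (F : V → V → ℝ) (x y : V) : V →L[ℝ] ℝ := fderiv ℝ (fun x' => F x' y) x

/-- derivative in the fibre -/
noncomputable def Fy (F : V → V → ℝ) (x y : V) : V →L[ℝ] ℝ := fderiv ℝ (F x) y

namespace FData

variable {M : Set V} {F : V → V → ℝ} (hF : FData M F)
include hF

lemma isOpen_prod : IsOpen (M ×ˢ ({0}ᶜ : Set V)) := hF.isOpen.prod isOpen_compl_singleton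

lemma contDiffAt {x y : V} (hx : x ∈ M) (hy : y ≠ 0) :
    ContDiffAt ℝ 2 (fun p : V × V => F p.1 p.2) (x, y) :=
  hF.c2.contDiffAt (hF.isOpen_prod.mem_nhds ⟨hx, hy⟩)

lemma hasFDerivAt {x y : V} (hx : x ∈ M) (hy : y ≠ 0) :
    HasFDerivAt (fun p : V × V => F p.1 p.2) (fderiv ℝ (fun p : V × V => F p.1 p.2) (x, y)) (x, y) :=
  ((hF.contDiffAt hx hy).differentiableAt (by norm_num)).hasFDerivAt

lemma c2norm {x : V} (hx : x ∈ M) : C2Norm (F x) where
  toIsNorm := hF.norm x hx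
  c2 := hF.c2.comp (f := fun y : V => (x, y)) (by fun_prop) (fun y hy => ⟨hx, hy⟩)

lemma hasFDerivAt_x {x y : V} (hx : x ∈ M) (hy : y ≠ 0) :
    HasFDerivAt (fun x' => F x' y) (Fx F x y) x := by
  have h1 : HasFDerivAt (fun x' : V => (x', y)) (ContinuousLinearMap.inl ℝ V V) x :=
    (hasFDerivAt_id x).prodMk (hasFDerivAt_const y x)
  have h2 := HasFDerivAt.comp (g := fun p : V × V => F p.1 p.2) (f := fun x' : V => (x', y)) x
    (hF.hasFDerivAt hx hy) h1
  exact h2.differentiableAt.hasFDerivAt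

lemma Fx_eq {x y : V} (hx : x ∈ M) (hy : y ≠ 0) (w : V) :
    Fx F x y w = fderiv ℝ (fun p : V × V => F p.1 p.2) (x, y) (w, 0) := by
  have h1 : HasFDerivAt (fun x' : V => (x', y)) (ContinuousLinearMap.inl ℝ V V) x :=
    (hasFDerivAt_id x).prodMk (hasFDerivAt_const y x)
  have h2 := HasFDerivAt.comp (g := fun p : V × V => F p.1 p.2) (f := fun x' : V => (x', y)) x
    (hF.hasFDerivAt hx hy) h1
  have h3 := h2.fderiv
  have h4 : Fx F x y = (fderiv ℝ (fun p : V × V => F p.1 p.2) (x, y)).comp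
    (ContinuousLinearMap.inl ℝ V V) := h3
  rw [h4]
  simp

lemma Fy_eq {x y : V} (hx : x ∈ M) (hy : y ≠ 0) (w : V) :
    Fy F x y w = fderiv ℝ (fun p : V × V => F p.1 p.2) (x, y) (0, w) := by
  have h1 : HasFDerivAt (fun y' : V => (x, y')) (ContinuousLinearMap.inr ℝ V V) y :=
    (hasFDerivAt_const x y).prodMk (hasFDerivAt_id y)
  have h2 := HasFDerivAt.comp (g := fun p : V × V => F p.1 p.2) (f := fun y' : V => (x, y')) y
    (hF.hasFDerivAt hx hy) h1
  have h3 := h2.fderiv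
  have h4 : Fy F x y = (fderiv ℝ (fun p : V × V => F p.1 p.2) (x, y)).comp
    (ContinuousLinearMap.inr ℝ V V) := h3
  rw [h4]
  simp

lemma Fx_smul {x y : V} (hx : x ∈ M) (hy : y ≠ 0) {a : ℝ} (ha : a ≠ 0) (w : V) :
    Fx F x (a • y) w = |a| * Fx F x y w := by
  have h1 : HasFDerivAt (fun x' => F x' (a • y)) (Fx F x (a • y)) x :=
    hF.hasFDerivAt_x hx (smul_ne_zero ha hy)
  have h2 : HasFDerivAt (fun x' => |a| * F x' y) (|a| • Fx F x y) x :=
    (hF.hasFDerivAt_x hx hy).const_mul |a|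
  have h3 : HasFDerivAt (fun x' => F x' (a • y)) (|a| • Fx F x y) x := by
    refine h2.congr_of_eventuallyEq ?_
    filter_upwards [hF.isOpen.mem_nhds hx] with x' hx'
    exact (hF.norm x' hx').smul a y
  rw [h1.unique h3]
  rfl

lemma Fy_smul {x y : V} (hx : x ∈ M) (hy : y ≠ 0) {a : ℝ} (ha : 0 < a) :
    Fy F x (a • y) = Fy F x y := (hF.c2norm hx).fd_smul hy ha

/-- The mixed second derivative `∂_s F_y(x + s u, y)[w]`. -/
noncomputable def mixed (F : V → V → ℝ) (x y w z : V) : ℝ :=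
  fderiv ℝ (fderiv ℝ (fun p : V × V => F p.1 p.2)) (x, y) (z, 0) (0, w)

lemma differentiableAt_D {x y : V} (hx : x ∈ M) (hy : y ≠ 0) :
    DifferentiableAt ℝ (fderiv ℝ (fun p : V × V => F p.1 p.2)) (x, y) := by
  have h : ContDiffAt ℝ 1 (fderiv ℝ (fun p : V × V => F p.1 p.2)) (x, y) :=
    (hF.contDiffAt hx hy).fderiv_right (by norm_num)
  exact h.differentiableAt (by norm_num)

lemma hasDerivAt_Fy {x y : V} (w z : V) (s : ℝ) (hx : x + s • z ∈ M) (hy : y ≠ 0) :
    HasDerivAt (fun s : ℝ => Fy F (x + s • z) y w) (mixed F (x + s • z) y w z) s := by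
  have hl : HasDerivAt (fun s : ℝ => (x + s • z, y)) (z, (0 : V)) s := by
    have h1 : HasDerivAt (fun s : ℝ => x + s • z) z s := by
      have h := ((hasDerivAt_id s).smul_const z).const_add x
      rw [one_smul] at h
      exact h
    exact h1.prodMk (hasDerivAt_const s y)
  have h1 : HasDerivAt (fun s : ℝ => fderiv ℝ (fun p : V × V => F p.1 p.2) (x + s • z, y))
      (fderiv ℝ (fderiv ℝ (fun p : V × V => F p.1 p.2)) (x + s • z, y) (z, 0)) s :=
    HasFDerivAt.comp_hasDerivAt (l := fderiv ℝ (fun p : V × V => F p.1 p.2))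
      (f := fun s : ℝ => (x + s • z, y)) s (hF.differentiableAt_D hx hy).hasFDerivAt hl
  have h2 := h1.clm_apply (hasDerivAt_const s ((0 : V), w))
  simp only [map_zero, add_zero] at h2
  refine h2.congr_of_eventuallyEq ?_
  have hcont : ContinuousAt (fun s : ℝ => x + s • z) s := by fun_prop
  filter_upwards [hcont (hF.isOpen.mem_nhds hx)] with s' hs'
  exact hF.Fy_eq hs' hy w

/-- **Hamel's equation.** -/
theorem hamel (hmin : LocMin M F) {x u : V} (hx : x ∈ M) (hu : u ≠ 0) (w : V) :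
    Fx F x u w = mixed F x u w u := by
  set G : V × V → ℝ := fun p => F p.1 p.2 with hG
  obtain ⟨r, hr, hball, hmin⟩ := hmin x hx
  by_contra hne
  -- the two functions along the line
  set f : ℝ → ℝ := fun s => Fx F (x + s • u) u w with hf
  set g : ℝ → ℝ := fun s => Fy F (x + s • u) u w with hg
  set g1 : ℝ → ℝ := fun s => mixed F (x + s • u) u w u with hg1
  set S : Set ℝ := {s | x + s • u ∈ Metric.ball x r} with hS
  have hSopen : IsOpen S := Metric.isOpen_ball.preimage (by fun_prop)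
  have hS0 : (0 : ℝ) ∈ S := by simp [hS, hr]
  have hSM : ∀ s ∈ S, x + s • u ∈ M := fun s hs => hball hs
  have hfc : ContinuousOn f S := by
    have h1 : ContinuousOn (fun s : ℝ => fderiv ℝ G (x + s • u, u) (w, 0)) S := by
      have h2 : ContinuousOn (fderiv ℝ G) (M ×ˢ ({0}ᶜ : Set V)) :=
        hF.c2.continuousOn_fderiv_of_isOpen hF.isOpen_prod (by norm_num)
      have h3 := h2.comp (f := fun s : ℝ => (x + s • u, u)) (s := S) (by fun_prop)
        (fun s hs => ⟨hSM s hs, hu⟩)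
      exact h3.clm_apply continuousOn_const
    exact h1.congr fun s hs => hF.Fx_eq (hSM s hs) hu w
  have hg1c : ContinuousOn g1 S := by
    have h1 : ContDiffOn ℝ 1 (fderiv ℝ G) (M ×ˢ ({0}ᶜ : Set V)) :=
      hF.c2.fderiv_of_isOpen hF.isOpen_prod (by norm_num)
    have h2 : ContinuousOn (fderiv ℝ (fderiv ℝ G)) (M ×ˢ ({0}ᶜ : Set V)) :=
      h1.continuousOn_fderiv_of_isOpen hF.isOpen_prod (by norm_num)
    have h3 := h2.comp (f := fun s : ℝ => (x + s • u, u)) (s := S) (by fun_prop)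
      (fun s hs => ⟨hSM s hs, hu⟩)
    exact (h3.clm_apply continuousOn_const).clm_apply continuousOn_const
  have hgd : ∀ s ∈ S, HasDerivAt g (g1 s) s := fun s hs =>
    hF.hasDerivAt_Fy w u s (hSM s hs) hu
  have hgc : ContinuousOn g S := fun s hs => (hgd s hs).continuousAt.continuousWithinAt
  set κ : ℝ → ℝ := fun s => f s - g1 s with hκ
  have hκc : ContinuousOn κ S := hfc.sub hg1c
  have hκ0 : κ 0 ≠ 0 := by
    intro h
    apply hne
    have : f 0 = g1 0 := by simp only [hκ] at h; linarith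
    simpa [hf, hg1] using this
  -- a step `h` such that `κ 0 * κ s > 0` on `[0, h]`
  obtain ⟨h, hh, hhS, hhκ⟩ : ∃ h : ℝ, 0 < h ∧ (∀ s ∈ Icc 0 h, s ∈ S) ∧
      ∀ s ∈ Icc 0 h, 0 < κ 0 * κ s := by
    have h1 : ContinuousAt (fun s => κ 0 * κ s) 0 :=
      continuousAt_const.mul (hκc.continuousAt (hSopen.mem_nhds hS0))
    have h2 : ∀ᶠ s in 𝓝 (0 : ℝ), 0 < κ 0 * κ s :=
      h1.eventually (lt_mem_nhds (mul_self_pos.2 hκ0))
    obtain ⟨e, he, hes⟩ := Metric.mem_nhds_iff.1 (h2.and (hSopen.mem_nhds hS0))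
    refine ⟨e / 2, by positivity, fun s hs => (hes ?_).2, fun s hs => (hes ?_).1⟩ <;>
    · rw [Metric.mem_ball, Real.dist_eq, sub_zero, abs_lt]
      constructor <;> [linarith [hs.1]; linarith [hs.2]]
  have hthS : ∀ t ∈ Icc (0 : ℝ) 1, t * h ∈ S := fun t ht =>
    hhS _ ⟨mul_nonneg ht.1 hh.le, by nlinarith [ht.2]⟩
  -- the variation
  have hhu : h • u ≠ 0 := smul_ne_zero hh.ne' hu
  set Γ : ℝ × ℝ → V := fun p => x + (p.2 * h) • u + (p.1 * (p.2 * (1 - p.2))) • w with hΓ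
  set Γ' : ℝ × ℝ → V := fun p => h • u + (p.1 * (1 - 2 * p.2)) • w with hΓ'
  set U : Set (ℝ × ℝ) := {p | Γ p ∈ Metric.ball x r ∧ Γ' p ≠ 0} with hU
  have hΓc : ContDiff ℝ 2 Γ := by simp only [hΓ]; fun_prop
  have hΓ'c : ContDiff ℝ 2 Γ' := by simp only [hΓ']; fun_prop
  have hUopen : IsOpen U := by
    refine (Metric.isOpen_ball.preimage hΓc.continuous).inter ?_
    exact (isOpen_compl_singleton (x := (0 : V))).preimage hΓ'c.continuous
  have hU0 : ∀ t ∈ Icc (0 : ℝ) 1, ((0 : ℝ), t) ∈ U := by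
    intro t ht
    refine ⟨?_, ?_⟩
    · have := hthS t ht
      simpa [hΓ, hS] using this
    · simpa [hΓ'] using hhu
  set Φ : ℝ × ℝ → ℝ := fun p => F (Γ p) (Γ' p) with hΦ
  have hΦc : ContDiffOn ℝ 1 Φ U := by
    have h1 : ContDiffOn ℝ 1 G (M ×ˢ ({0}ᶜ : Set V)) := hF.c2.of_le (by norm_num)
    have h2 : ContDiff ℝ 1 (fun p => (Γ p, Γ' p)) := (hΓc.prodMk hΓ'c).of_le (by norm_num)
    exact h1.comp h2.contDiffOn (fun p hp => ⟨hball hp.1, hp.2⟩)
  have hder := hasDerivAt_param_integral hUopen hΦc hU0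
  -- minimality at `ε = 0`
  have hlocmin : IsLocalMin (fun ε : ℝ => ∫ t in (0 : ℝ)..1, Φ (ε, t)) 0 := by
    obtain ⟨δ, hδ, htube⟩ := exists_tube hUopen hU0
    filter_upwards [Icc_mem_nhds (show -δ < 0 by linarith) hδ] with ε hε
    have h1 := hmin (fun t => Γ (ε, t)) (by
        have : ContDiff ℝ 1 (fun t : ℝ => Γ (ε, t)) :=
          (hΓc.comp (contDiff_const.prodMk contDiff_id)).of_le (by norm_num)
        exact this)
      (fun t ht => (htube ε hε t ht).1)
    have hd : ∀ t : ℝ, deriv (fun t => Γ (ε, t)) t = Γ' (ε, t) := by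
      intro t
      have e1 : HasDerivAt (fun t : ℝ => (t * h) • u) (h • u) t := by
        have := ((hasDerivAt_id t).mul_const h).smul_const u
        rw [one_mul] at this
        exact this
      have e2 : HasDerivAt (fun t : ℝ => (ε * (t * (1 - t))) • w) ((ε * (1 - 2 * t)) • w) t := by
        have e3 : HasDerivAt (fun t : ℝ => ε * (t * (1 - t))) (ε * (1 - 2 * t)) t := by
          have := ((hasDerivAt_id t).mul ((hasDerivAt_id t).const_sub 1)).const_mul ε
          refine this.congr_deriv ?_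
          simp only [id]; ring
        exact e3.smul_const w
      have e4 : HasDerivAt (fun t => Γ (ε, t)) (h • u + (ε * (1 - 2 * t)) • w) t := by
        have := (e1.const_add x).add e2
        exact this
      exact e4.deriv
    have e0 : Γ (ε, 0) = x := by simp [hΓ]
    have e1 : Γ (ε, 1) = x + h • u := by simp [hΓ]
    simp only [e0, e1] at h1
    have e2 : ∀ t : ℝ, F (x + t • (x + h • u - x)) (x + h • u - x) = Φ (0, t) := by
      intro t
      have a1 : x + h • u - x = h • u := by abel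
      simp only [hΦ, hΓ, hΓ']
      rw [a1, smul_smul]
      simp
    simp only [hd, e2] at h1
    exact h1
  have hzero : ∫ t in (0 : ℝ)..1, fderiv ℝ Φ (0, t) (1, 0) = 0 :=
    hlocmin.hasDerivAt_eq_zero hder
  -- compute the derivative
  have hcomp : ∀ t ∈ Icc (0 : ℝ) 1, fderiv ℝ Φ (0, t) (1, 0)
      = t * (1 - t) * h * f (t * h) + (1 - 2 * t) * g (t * h) := by
    intro t ht
    have hmemM : x + (t * h) • u ∈ M := hSM _ (hthS t ht)
    have e1 : HasDerivAt (fun ε : ℝ => Γ (ε, t)) ((t * (1 - t)) • w) 0 := by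
      have a1 : HasDerivAt (fun ε : ℝ => (ε * (t * (1 - t))) • w) ((t * (1 - t)) • w) 0 := by
        have := ((hasDerivAt_id (0 : ℝ)).mul_const (t * (1 - t))).smul_const w
        rw [one_mul] at this
        exact this
      exact a1.const_add (x + (t * h) • u)
    have e2 : HasDerivAt (fun ε : ℝ => Γ' (ε, t)) ((1 - 2 * t) • w) 0 := by
      have a1 : HasDerivAt (fun ε : ℝ => (ε * (1 - 2 * t)) • w) ((1 - 2 * t) • w) 0 := by
        have := ((hasDerivAt_id (0 : ℝ)).mul_const (1 - 2 * t)).smul_const w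
        rw [one_mul] at this
        exact this
      exact a1.const_add (h • u)
    have e3 := e1.prodMk e2
    have a3 : Γ (0, t) = x + (t * h) • u := by simp [hΓ]
    have a4 : Γ' (0, t) = h • u := by simp [hΓ']
    have e4 : HasFDerivAt G (fderiv ℝ G (x + (t * h) • u, h • u)) (Γ (0, t), Γ' (0, t)) := by
      rw [a3, a4]
      exact hF.hasFDerivAt hmemM hhu
    have e5 : HasDerivAt (fun ε : ℝ => Φ (ε, t))
        (fderiv ℝ G (x + (t * h) • u, h • u) ((t * (1 - t)) • w, (1 - 2 * t) • w)) 0 :=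
      HasFDerivAt.comp_hasDerivAt (l := G) (f := fun ε : ℝ => (Γ (ε, t), Γ' (ε, t))) 0 e4 e3
    have e6 : HasDerivAt (fun ε : ℝ => Φ (ε, t)) (fderiv ℝ Φ (0, t) (1, 0)) 0 := by
      have hmem : ((0 : ℝ), t) ∈ U := hU0 t ht
      have hd : HasFDerivAt Φ (fderiv ℝ Φ (0, t)) (0, t) :=
        ((hΦc.contDiffAt (hUopen.mem_nhds hmem)).differentiableAt (by norm_num)).hasFDerivAt
      have hl : HasDerivAt (fun ε : ℝ => (ε, t)) ((1 : ℝ), (0 : ℝ)) 0 :=
        (hasDerivAt_id (0 : ℝ)).prodMk (hasDerivAt_const 0 t)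
      exact HasFDerivAt.comp_hasDerivAt (l := Φ) (f := fun ε : ℝ => (ε, t)) 0 hd hl
    rw [e6.unique e5]
    have e7 : (((t * (1 - t)) • w, (1 - 2 * t) • w) : V × V)
        = (t * (1 - t)) • ((w, 0) : V × V) + (1 - 2 * t) • ((0, w) : V × V) := by
      simp
    rw [e7, map_add, map_smul, map_smul, ← hF.Fx_eq hmemM hhu, ← hF.Fy_eq hmemM hhu,
      hF.Fx_smul hmemM hu hh.ne', hF.Fy_smul hmemM hu hh, abs_of_pos hh]
    simp only [smul_eq_mul, hf, hg]
    ring
  -- integration by parts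
  have hcontf : ContinuousOn (fun t => f (t * h)) (Icc (0 : ℝ) 1) :=
    hfc.comp (by fun_prop) hthS
  have hcontg : ContinuousOn (fun t => g (t * h)) (Icc (0 : ℝ) 1) :=
    hgc.comp (by fun_prop) hthS
  have hcontg1 : ContinuousOn (fun t => g1 (t * h)) (Icc (0 : ℝ) 1) :=
    hg1c.comp (by fun_prop) hthS
  have hc1 : ContinuousOn (fun t : ℝ => 1 - 2 * t) (Icc (0 : ℝ) 1) := by fun_prop
  have hc2 : ContinuousOn (fun t : ℝ => t * (1 - t) * h) (Icc (0 : ℝ) 1) := by fun_prop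
  have hparts : ∫ t in (0 : ℝ)..1, ((1 - 2 * t) * g (t * h) + t * (1 - t) * h * g1 (t * h)) = 0 := by
    have h1 : ∀ t ∈ uIcc (0 : ℝ) 1, HasDerivAt (fun t => t * (1 - t) * g (t * h))
        ((1 - 2 * t) * g (t * h) + t * (1 - t) * h * g1 (t * h)) t := by
      intro t ht
      rw [uIcc_of_le zero_le_one] at ht
      have a1 : HasDerivAt (fun t : ℝ => t * (1 - t)) (1 - 2 * t) t := by
        have := (hasDerivAt_id t).mul ((hasDerivAt_id t).const_sub 1)
        refine this.congr_deriv ?_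
        simp only [id]; ring
      have a2 : HasDerivAt (fun t => g (t * h)) (g1 (t * h) * h) t := by
        have a3 : HasDerivAt (fun t : ℝ => t * h) h t := by
          simpa using (hasDerivAt_id t).mul_const h
        exact HasDerivAt.comp t (hgd _ (hthS t ht)) a3
      refine (a1.mul a2).congr_deriv ?_
      ring
    rw [intervalIntegral.integral_eq_sub_of_hasDerivAt h1]
    · ring
    · refine ContinuousOn.intervalIntegrable ?_
      rw [uIcc_of_le zero_le_one]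
      exact (hc1.mul hcontg).add (hc2.mul hcontg1)
  have hfin : ∫ t in (0 : ℝ)..1, t * (1 - t) * h * κ (t * h) = 0 := by
    have h1 : ∫ t in (0 : ℝ)..1, (t * (1 - t) * h * f (t * h) + (1 - 2 * t) * g (t * h)) = 0 := by
      refine Eq.trans ?_ hzero
      refine intervalIntegral.integral_congr fun t ht => ?_
      rw [uIcc_of_le zero_le_one] at ht
      exact (hcomp t ht).symm
    have h2 : (fun t : ℝ => t * (1 - t) * h * κ (t * h)) = fun t =>
        (t * (1 - t) * h * f (t * h) + (1 - 2 * t) * g (t * h))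
        - ((1 - 2 * t) * g (t * h) + t * (1 - t) * h * g1 (t * h)) := by
      funext t; simp only [hκ]; ring
    rw [h2, intervalIntegral.integral_sub, h1, hparts, sub_zero]
    · refine ContinuousOn.intervalIntegrable ?_
      rw [uIcc_of_le zero_le_one]
      exact (hc2.mul hcontf).add (hc1.mul hcontg)
    · refine ContinuousOn.intervalIntegrable ?_
      rw [uIcc_of_le zero_le_one]
      exact (hc1.mul hcontg).add (hc2.mul hcontg1)
  have hpos : 0 < ∫ t in (0 : ℝ)..1, κ 0 * (t * (1 - t) * h * κ (t * h)) := by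
    refine intervalIntegral.intervalIntegral_pos_of_pos_on ?_ ?_ zero_lt_one
    · refine ContinuousOn.intervalIntegrable ?_
      rw [uIcc_of_le zero_le_one]
      have : ContinuousOn (fun t => κ (t * h)) (Icc (0 : ℝ) 1) := hcontf.sub hcontg1
      exact continuousOn_const.mul (hc2.mul this)
    · intro t ht
      have h1 := hhκ (t * h) ⟨mul_nonneg ht.1.le hh.le, by nlinarith [ht.2]⟩
      have h2 : 0 < t * (1 - t) * h := mul_pos (mul_pos ht.1 (by linarith [ht.2])) hh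
      nlinarith [mul_pos h1 h2]
  rw [intervalIntegral.integral_const_mul, hfin, mul_zero] at hpos
  exact lt_irrefl _ hpos

end FData

end Pool.Agent.Lib_MP_1de93e_gt
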