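import Mathlib
import Pool.Agent.Lib_MP_1de93e_gt.Variation

/-!
# From the Radon condition and Hamel's equation to the structure of `F`
-/

namespace Pool.Agent.Lib_MP_1de93e_gt

open Set Filter Topology

variable {M : Set V} {F : V → V → ℝ}

/-- one-sided bound for the derivative of a norm -/
lemma C2Norm.fd_le {N : V → ℝ} (hN : C2Norm N) {z : V} (hz : z ≠ 0) (w : V) :
    fderiv ℝ N z w ≤ N w := by
  have hl : HasDerivAt (fun t : ℝ => z + t • w) w 0 := by
    have := ((hasDerivAt_id (0 : ℝ)).smul_const w).const_add z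
    rw [one_smul] at this
    exact this
  have h' : HasFDerivAt N (fderiv ℝ N z) (z + (0 : ℝ) • w) := by
    simpa using (hN.diff hz).hasFDerivAt
  have h1 : HasDerivAt (fun t : ℝ => N (z + t • w)) (fderiv ℝ N z w) 0 :=
    HasFDerivAt.comp_hasDerivAt (f := fun t : ℝ => z + t • w) (l := N) 0 h' hl
  have h2 := h1.tendsto_slope_zero_right
  refine le_of_tendsto h2 ?_
  filter_upwards [self_mem_nhdsWithin] with t ht
  have ht' : (0 : ℝ) < t := ht
  have h3 := hN.add z (t • w)
  rw [hN.smul, abs_of_pos ht'] at h3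
  simp only [zero_add, zero_smul, add_zero, smul_eq_mul]
  rw [inv_mul_le_iff₀ ht']
  linarith

/-- The Radon inequality. -/
lemma C2Norm.radon_ineq {N : V → ℝ} (hN : C2Norm N) (hR : RadonDiff N) {y : V} (hy : y ≠ 0)
    (w : V) : N (xi N y) * det y w ≤ N y * N w := by
  have h1 := hN.fd_le (hN.xi_ne hy) w
  rw [hN.fd_at_xi hR hy] at h1
  have h2 := hN.pos y hy
  rw [div_mul_eq_mul_div, div_le_iff₀ h2] at h1
  linarith

lemma hasFDerivAt_div {E : Type*} [NormedAddCommGroup E] [NormedSpace ℝ E] {f g : E → ℝ}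
    {f' g' : E →L[ℝ] ℝ} {x : E} (hf : HasFDerivAt f f' x) (hg : HasFDerivAt g g' x) (h0 : g x ≠ 0) :
    HasFDerivAt (fun y => f y / g y) ((g x ^ 2)⁻¹ • (g x • f' - f x • g')) x := by
  have h1 : HasFDerivAt (fun y => (g y)⁻¹) ((-(g x ^ 2)⁻¹) • g') x :=
    (hasDerivAt_inv h0).comp_hasFDerivAt x hg
  have h2 := hf.mul h1
  have h3 : (fun y => f y / g y) = fun y => f y * (g y)⁻¹ := by
    funext y; rw [div_eq_mul_inv]
  rw [h3]
  refine h2.congr_fderiv ?_
  refine ContinuousLinearMap.ext fun (w : E) => ?_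
  simp only [smul_apply, smul_eq_mul, add_apply, sub_apply]
  field_simp
  ring

/-- A function on a convex set whose derivative in the direction `y` vanishes is constant along
that direction. -/
lemma const_along {E : Type*} [NormedAddCommGroup E] [NormedSpace ℝ E] {φ : V → E}
    {φ' : V → V →L[ℝ] E} (hM : Convex ℝ M)
    (hφ : ∀ x ∈ M, HasFDerivAt φ (φ' x) x) {y : V} (h0 : ∀ x ∈ M, φ' x y = 0) {x : V} (hx : x ∈ M)
    (hxy : x + y ∈ M) : φ (x + y) = φ x := by
  have hseg : ∀ t ∈ Icc (0 : ℝ) 1, x + t • y ∈ M := by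
    intro t ht
    have := hM hx hxy (show 0 ≤ 1 - t by linarith [ht.2]) ht.1 (by ring)
    convert this using 1
    module
  have hd : ∀ t ∈ Icc (0 : ℝ) 1, HasDerivAt (fun t : ℝ => φ (x + t • y)) 0 t := by
    intro t ht
    have hl : HasDerivAt (fun t : ℝ => x + t • y) y t := by
      have := ((hasDerivAt_id t).smul_const y).const_add x
      rw [one_smul] at this
      exact this
    have h1 := HasFDerivAt.comp_hasDerivAt (l := φ) t (hφ _ (hseg t ht)) hl
    rw [h0 _ (hseg t ht)] at h1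
    exact h1
  have h2 := constant_of_has_deriv_right_zero (f := fun t : ℝ => φ (x + t • y)) (a := 0) (b := 1)
    (fun t ht => (hd t ht).continuousAt.continuousWithinAt)
    (fun t ht => (hd t ⟨ht.1, ht.2.le⟩).hasDerivWithinAt) 1 (right_mem_Icc.2 zero_le_one)
  simpa using h2

/-- the conjugate value `c(x) = F(x, ξ(x, y))` -/
noncomputable def cc (F : V → V → ℝ) (x : V) : ℝ := F x (xi (F x) (1, 0))

lemma e1_ne : ((1, 0) : V) ≠ 0 := by simp

namespace FData

variable (hF : FData M F)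
include hF

lemma cc_eq (hR : ∀ x ∈ M, RadonDiff (F x)) {x y : V} (hx : x ∈ M) (hy : y ≠ 0) :
    F x (xi (F x) y) = cc F x :=
  (hF.c2norm hx).c_const (hR x hx) hy e1_ne

lemma cc_pos {x : V} (hx : x ∈ M) : 0 < cc F x :=
  hF.norm x hx |>.pos _ ((hF.c2norm hx).xi_ne e1_ne)

lemma differentiableAt_cc {x : V} (hx : x ∈ M) : DifferentiableAt ℝ (cc F) x := by
  set G : V × V → ℝ := fun p => F p.1 p.2 with hG
  -- `ξ` is differentiable in `x`
  have h1 : DifferentiableAt ℝ (fun x' : V => fderiv ℝ G (x', ((1, 0) : V))) x := by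
    have h2 : DifferentiableAt ℝ (fun x' : V => (x', ((1, 0) : V))) x := by fun_prop
    exact DifferentiableAt.comp (g := fderiv ℝ G) (f := fun x' : V => (x', ((1, 0) : V))) x
      (hF.differentiableAt_D hx e1_ne) h2
  have h3 : DifferentiableAt ℝ (fun x' : V =>
      ((-(fderiv ℝ G (x', ((1, 0) : V)) (0, (0, 1))), fderiv ℝ G (x', ((1, 0) : V)) (0, (1, 0))) : V))
      x := by
    exact ((h1.clm_apply (differentiableAt_const _)).neg).prodMk
      (h1.clm_apply (differentiableAt_const _))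
  have h4 : (fun x' : V => xi (F x') (1, 0)) =ᶠ[𝓝 x] (fun x' : V =>
      ((-(fderiv ℝ G (x', ((1, 0) : V)) (0, (0, 1))), fderiv ℝ G (x', ((1, 0) : V)) (0, (1, 0))) : V))
      := by
    filter_upwards [hF.isOpen.mem_nhds hx] with x' hx'
    have e1 := hF.Fy_eq hx' e1_ne ((0, 1) : V)
    have e2 := hF.Fy_eq hx' e1_ne ((1, 0) : V)
    simp only [Fy] at e1 e2
    simp only [xi, rot]
    rw [e1, e2]
  have h5 : DifferentiableAt ℝ (fun x' : V => xi (F x') (1, 0)) x := h3.congr_of_eventuallyEq h4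
  have h6 : DifferentiableAt ℝ (fun x' : V => (x', xi (F x') (1, 0))) x :=
    differentiableAt_id.prodMk h5
  exact DifferentiableAt.comp (g := G) (f := fun x' : V => (x', xi (F x') (1, 0))) x
    (hF.hasFDerivAt hx ((hF.c2norm hx).xi_ne e1_ne)).differentiableAt h6

/-- The derivative in `x` of the Radon condition. -/
lemma radon_x (hR : ∀ x ∈ M, RadonDiff (F x)) {x y : V} (hx : x ∈ M) (hy : y ≠ 0) (w : V) :
    Fx F x y w * cc F x + F x y * Fx F x (xi (F x) y) w = fderiv ℝ (cc F) x w * F x y := by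
  set v := xi (F x) y with hv
  have hN := hF.c2norm hx
  have hv0 : v ≠ 0 := hN.xi_ne hy
  have h1 := hF.hasFDerivAt_x hx hy
  have h2 := hF.hasFDerivAt_x hx hv0
  have h3 := (hF.differentiableAt_cc hx).hasFDerivAt
  have h4 : HasFDerivAt (fun x' => F x' y * F x' v - cc F x' * det y v)
      ((F x y • Fx F x v + F x v • Fx F x y) - (det y v) • fderiv ℝ (cc F) x) x :=
    (h1.mul h2).sub (h3.mul_const (det y v))
  have hcv : F x v = cc F x := hF.cc_eq hR hx hy
  have hdet : det y v = F x y := hN.det_xi hy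
  have h5 : IsLocalMin (fun x' => F x' y * F x' v - cc F x' * det y v) x := by
    filter_upwards [hF.isOpen.mem_nhds hx] with x' hx'
    have e1 := (hF.c2norm hx').radon_ineq (hR x' hx') hy v
    rw [hF.cc_eq hR hx' hy, hdet] at e1
    rw [hcv, hdet]
    linarith
  have h6 := h5.hasFDerivAt_eq_zero h4
  have h7 := congrArg (fun L : V →L[ℝ] ℝ => L w) h6
  simp only [sub_apply, add_apply, smul_apply, smul_eq_mul, zero_apply] at h7
  rw [hcv, hdet] at h7
  linarith

/-- the derivative of `y ↦ F_x(x,y)[y]` is `2 F_x(x,y)` -/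
lemma hasFDerivAt_Fxyy (hmin : LocMin M F) {x y : V} (hx : x ∈ M) (hy : y ≠ 0) :
    HasFDerivAt (fun y => Fx F x y y) ((2 : ℝ) • Fx F x y) y := by
  set G : V × V → ℝ := fun p => F p.1 p.2 with hG
  have h1 : HasFDerivAt (fun y' : V => fderiv ℝ G (x, y'))
      ((fderiv ℝ (fderiv ℝ G) (x, y)).comp (ContinuousLinearMap.inr ℝ V V)) y := by
    have h2 : HasFDerivAt (fun y' : V => (x, y')) (ContinuousLinearMap.inr ℝ V V) y :=
      (hasFDerivAt_const x y).prodMk (hasFDerivAt_id y)
    exact HasFDerivAt.comp (g := fderiv ℝ G) (f := fun y' : V => (x, y')) y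
      (hF.differentiableAt_D hx hy).hasFDerivAt h2
  have h3 : HasFDerivAt (fun y' : V => ((y', 0) : V × V)) (ContinuousLinearMap.inl ℝ V V) y :=
    (hasFDerivAt_id y).prodMk (hasFDerivAt_const (0 : V) y)
  have h4 := h1.clm_apply h3
  have h5 : (fun y => Fx F x y y) =ᶠ[𝓝 y] fun y' : V => fderiv ℝ G (x, y') (y', 0) := by
    filter_upwards [isOpen_compl_singleton.mem_nhds hy] with y' hy'
    exact hF.Fx_eq hx hy' y'
  have h6 := h4.congr_of_eventuallyEq h5
  refine h6.congr_fderiv ?_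
  refine ContinuousLinearMap.ext fun (w : V) => ?_
  have hsymm : fderiv ℝ (fderiv ℝ G) (x, y) (0, w) (y, 0)
      = fderiv ℝ (fderiv ℝ G) (x, y) (y, 0) (0, w) :=
    (hF.contDiffAt hx hy).isSymmSndFDerivAt (by simp) (0, w) (y, 0)
  have hham : Fx F x y w = fderiv ℝ (fderiv ℝ G) (x, y) (y, 0) (0, w) := hF.hamel hmin hx hy w
  have hfx := hF.Fx_eq hx hy w
  simp only [smul_apply, smul_eq_mul, add_apply, ContinuousLinearMap.comp_apply,
    ContinuousLinearMap.inl_apply, ContinuousLinearMap.inr_apply,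
    ContinuousLinearMap.flip_apply]
  rw [hsymm, ← hham, ← hfx]
  ring

/-- **`P` is linear**: `F_x(x,y)[y] = (2/3) (d log c)[y] F(x,y)`. -/
theorem Fx_self (hmin : LocMin M F) (hR : ∀ x ∈ M, RadonDiff (F x)) {x y : V} (hx : x ∈ M)
    (hy : y ≠ 0) :
    Fx F x y y = 2 / 3 * (fderiv ℝ (cc F) x y / cc F x) * F x y := by
  set N : V → ℝ := F x with hNdef
  have hN : C2Norm N := hF.c2norm hx
  have hRx : RadonDiff N := hR x hx
  set c : ℝ := cc F x with hc
  have hcpos : 0 < c := hF.cc_pos hx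
  set Q : V → ℝ := fun y => Fx F x y y / (2 * N y) - fderiv ℝ (cc F) x y / (3 * c) with hQ
  have hdQ : ∀ z : V, z ≠ 0 → HasFDerivAt Q
      (((2 * N z)^2)⁻¹ • ((2 * N z) • ((2 : ℝ) • Fx F x z) - (Fx F x z z) • ((2 : ℝ) • fderiv ℝ N z))
        - (3 * c)⁻¹ • fderiv ℝ (cc F) x) z := by
    intro z hz
    have h1 := hF.hasFDerivAt_Fxyy hmin hx hz
    have h2 : HasFDerivAt (fun y => 2 * N y) ((2 : ℝ) • fderiv ℝ N z) z :=
      (hN.diff hz).hasFDerivAt.const_mul 2
    have h2ne : 2 * N z ≠ 0 := by have := hN.pos z hz; positivity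
    have h3 := hasFDerivAt_div h1 h2 h2ne
    have h4 : HasFDerivAt (fun y => fderiv ℝ (cc F) x y / (3 * c)) ((3 * c)⁻¹ • fderiv ℝ (cc F) x) z := by
      have h5 := (fderiv ℝ (cc F) x).hasFDerivAt (x := z)
      have h6 := h5.mul_const (3 * c)⁻¹
      simpa [div_eq_mul_inv] using h6
    exact h3.sub h4
  have hrel : QRel N Q := by
    refine ⟨?_, fun z hz => (hdQ z hz).differentiableAt, ?_⟩
    · intro a z
      by_cases ha : a = 0
      · subst ha
        simp [hQ]
      by_cases hz : z = 0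
      · subst hz
        simp [hQ]
      simp only [hQ]
      rw [hF.Fx_smul hx hz ha, map_smul, map_smul, hN.smul]
      have h1 := hN.pos z hz
      have h2 : 0 < |a| := abs_pos.2 ha
      simp only [smul_eq_mul]
      field_simp
    · intro z hz
      have hξ := hN.xi_ne hz
      have hcx : N (xi N z) = c := hF.cc_eq hR hx hz
      rw [(hdQ _ hξ).fderiv]
      simp only [sub_apply, smul_apply, smul_eq_mul]
      rw [hRx z hz, hcx]
      have h1 := hF.radon_x hR hx hz z
      have h2 := hN.pos z hz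
      simp only [hQ]
      have h3 : Fx F x (xi N z) z = (fderiv ℝ (cc F) x z * N z - Fx F x z z * c) / N z := by
        rw [eq_div_iff h2.ne']
        linarith
      rw [h3]
      field_simp
      ring
  have h0 := hrel.eq_zero hN hRx y
  simp only [hQ] at h0
  have h1 := hN.pos y hy
  have h2 : Fx F x y y / (2 * N y) = fderiv ℝ (cc F) x y / (3 * c) := by linarith
  rw [div_eq_div_iff (by positivity) (by positivity)] at h2
  field_simp
  linarith

/-- the full `x`-derivative of `F` -/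
theorem Fx_formula (hmin : LocMin M F) (hR : ∀ x ∈ M, RadonDiff (F x)) {x y : V} (hx : x ∈ M)
    (hy : y ≠ 0) (w : V) :
    Fx F x y w = 1 / 3 * (fderiv ℝ (cc F) x w / cc F x * F x y
      + fderiv ℝ (cc F) x y / cc F x * Fy F x y w) := by
  have h1 := hF.hasFDerivAt_Fxyy hmin hx hy
  have h2 : HasFDerivAt (fun y => fderiv ℝ (cc F) x y) (fderiv ℝ (cc F) x) y :=
    (fderiv ℝ (cc F) x).hasFDerivAt
  have h3 : HasFDerivAt (F x) (Fy F x y) y := ((hF.c2norm hx).diff hy).hasFDerivAt
  have h4 := (h2.mul h3).const_mul (2 / 3 / cc F x)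
  have h5 : (fun y => Fx F x y y) =ᶠ[𝓝 y]
      fun y => 2 / 3 / cc F x * (fderiv ℝ (cc F) x y * F x y) := by
    filter_upwards [isOpen_compl_singleton.mem_nhds hy] with y' hy'
    rw [hF.Fx_self hmin hR hx hy']
    ring
  have h6 := h1.unique (h4.congr_of_eventuallyEq h5)
  have h7 := congrArg (fun L : V →L[ℝ] ℝ => L w) h6
  simp only [smul_apply, smul_eq_mul, add_apply] at h7
  have : Fx F x y w = 1 / 2 * (2 * Fx F x y w) := by ring
  rw [this, h7]
  ring

end FData

end Pool.Agent.Lib_MP_1de93e_gt
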