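import Mathlib
import Pool.Agent.Lib_MP_1de93e_gt.Structure

/-!
# The function `λ = c^{-1/3}` and its Hessian
-/

namespace Pool.Agent.Lib_MP_1de93e_gt

open Set Filter Topology

variable {M : Set V} {F : V → V → ℝ}

/-- `λ = c^{-1/3}` -/
noncomputable def lam (F : V → V → ℝ) (x : V) : ℝ := (cc F x) ^ (-(1 / 3) : ℝ)

namespace FData

variable (hF : FData M F)
include hF

lemma lam_pos {x : V} (hx : x ∈ M) : 0 < lam F x := Real.rpow_pos_of_pos (hF.cc_pos hx) _

lemma hasFDerivAt_lam' {x : V} (hx : x ∈ M) :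
    HasFDerivAt (lam F) ((-(1 / 3) * (lam F x / cc F x)) • fderiv ℝ (cc F) x) x := by
  have hc := hF.cc_pos hx
  have h1 := (hF.differentiableAt_cc hx).hasFDerivAt.rpow_const (p := (-(1 / 3) : ℝ)) (Or.inl hc.ne')
  refine h1.congr_fderiv ?_
  have h2 : cc F x ^ (-(1 / 3) - 1 : ℝ) = lam F x / cc F x := by
    rw [lam, Real.rpow_sub hc, Real.rpow_one]
  rw [h2]

lemma differentiableAt_lam {x : V} (hx : x ∈ M) : DifferentiableAt ℝ (lam F) x :=
  (hF.hasFDerivAt_lam' hx).differentiableAt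

lemma hasFDerivAt_lam {x : V} (hx : x ∈ M) : HasFDerivAt (lam F) (fderiv ℝ (lam F) x) x :=
  (hF.differentiableAt_lam hx).hasFDerivAt

lemma fderiv_cc {x : V} (hx : x ∈ M) (w : V) :
    fderiv ℝ (cc F) x w / cc F x = -3 * (fderiv ℝ (lam F) x w / lam F x) := by
  rw [(hF.hasFDerivAt_lam' hx).fderiv]
  have h1 := hF.cc_pos hx
  have h2 := hF.lam_pos hx
  simp only [smul_apply, smul_eq_mul]
  field_simp

theorem Fx_lam (hmin : LocMin M F) (hR : ∀ x ∈ M, RadonDiff (F x)) {x y : V} (hx : x ∈ M)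
    (hy : y ≠ 0) (w : V) :
    Fx F x y w = -(fderiv ℝ (lam F) x w * F x y + fderiv ℝ (lam F) x y * Fy F x y w) / lam F x := by
  rw [hF.Fx_formula hmin hR hx hy w, hF.fderiv_cc hx, hF.fderiv_cc hx]
  have h2 := hF.lam_pos hx
  field_simp
  ring

theorem Fx_lam_self (hmin : LocMin M F) (hR : ∀ x ∈ M, RadonDiff (F x)) {x y : V} (hx : x ∈ M)
    (hy : y ≠ 0) :
    Fx F x y y = -(2 * fderiv ℝ (lam F) x y * F x y) / lam F x := by
  rw [hF.Fx_lam hmin hR hx hy y]
  have : Fy F x y y = F x y := (hF.c2norm hx).eul hy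
  rw [this]
  ring

/-- `λ` is of class `C²` -/
theorem contDiffOn_lam (hmin : LocMin M F) (hR : ∀ x ∈ M, RadonDiff (F x)) :
    ContDiffOn ℝ 2 (lam F) M := by
  set G : V × V → ℝ := fun p => F p.1 p.2 with hG
  have hG1 : ContDiffOn ℝ 1 (fderiv ℝ G) (M ×ˢ ({0}ᶜ : Set V)) :=
    hF.c2.fderiv_of_isOpen hF.isOpen_prod (by norm_num)
  have hG2 : ContDiffOn ℝ 1 G (M ×ˢ ({0}ᶜ : Set V)) := hF.c2.of_le (by norm_num)
  -- the functions `P(·, e)`
  have hP : ∀ e : V, e ≠ 0 → ContDiffOn ℝ 1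
      (fun x => fderiv ℝ G (x, e) (e, 0) / (2 * F x e)) M := by
    intro e he
    have hm : MapsTo (fun x : V => (x, e)) M (M ×ˢ ({0}ᶜ : Set V)) := fun x hx => ⟨hx, he⟩
    have h1 : ContDiffOn ℝ 1 (fun x : V => fderiv ℝ G (x, e)) M :=
      hG1.comp (f := fun x : V => (x, e)) (by fun_prop) hm
    have h2 : ContDiffOn ℝ 1 (fun x : V => F x e) M :=
      hG2.comp (f := fun x : V => (x, e)) (by fun_prop) hm
    have h3 : ContDiffOn ℝ 1 (fun x : V => fderiv ℝ G (x, e) (e, 0)) M :=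
      h1.clm_apply contDiffOn_const
    refine h3.div (contDiffOn_const.mul h2) fun x hx => ?_
    have := (hF.norm x hx).pos e he
    positivity
  have hPval : ∀ e : V, e ≠ 0 → ∀ x ∈ M, fderiv ℝ G (x, e) (e, 0) / (2 * F x e)
      = -(fderiv ℝ (lam F) x e / lam F x) := by
    intro e he x hx
    rw [← hF.Fx_eq hx he, hF.Fx_lam_self hmin hR hx he]
    have h1 := hF.lam_pos hx
    have h2 := (hF.norm x hx).pos e he
    field_simp
  have he1 : ((1, 0) : V) ≠ 0 := by simp
  have he2 : ((0, 1) : V) ≠ 0 := by simp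
  set P1 : V → ℝ := fun x => fderiv ℝ G (x, (1, 0)) ((1, 0), 0) / (2 * F x (1, 0)) with hP1
  set P2 : V → ℝ := fun x => fderiv ℝ G (x, (0, 1)) ((0, 1), 0) / (2 * F x (0, 1)) with hP2
  have hP1c : ContDiffOn ℝ 1 P1 M := hP _ he1
  have hP2c : ContDiffOn ℝ 1 P2 M := hP _ he2
  set B : V → (V →L[ℝ] ℝ) := fun x =>
    (-(lam F x * P1 x)) • ContinuousLinearMap.fst ℝ ℝ ℝ
      + (-(lam F x * P2 x)) • ContinuousLinearMap.snd ℝ ℝ ℝ with hB
  have hfd : ∀ x ∈ M, fderiv ℝ (lam F) x = B x := by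
    intro x hx
    refine ContinuousLinearMap.ext fun (w : V) => ?_
    rw [lin_eq (fderiv ℝ (lam F) x) w]
    have e1 : P1 x = _ := hPval _ he1 x hx
    have e2 : P2 x = _ := hPval _ he2 x hx
    have h1 := hF.lam_pos hx
    simp only [hB, add_apply, smul_apply, smul_eq_mul, ContinuousLinearMap.coe_fst',
      ContinuousLinearMap.coe_snd']
    rw [e1, e2]
    field_simp
  have hlamd : DifferentiableOn ℝ (lam F) M := fun x hx =>
    (hF.differentiableAt_lam hx).differentiableWithinAt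
  have hBcont : ContinuousOn B M := by
    have h1 : ContinuousOn (lam F) M := hlamd.continuousOn
    exact (((h1.mul hP1c.continuousOn).neg).smul continuousOn_const).add
      (((h1.mul hP2c.continuousOn).neg).smul continuousOn_const)
  have hlam1 : ContDiffOn ℝ 1 (lam F) M := by
    rw [show (1 : WithTop ℕ∞) = 0 + 1 by norm_num, contDiffOn_succ_iff_fderiv_of_isOpen hF.isOpen]
    refine ⟨hlamd, by simp, ?_⟩
    rw [contDiffOn_zero]
    exact hBcont.congr hfd
  have hB1 : ContDiffOn ℝ 1 B M := by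
    exact (((hlam1.mul hP1c).neg).smul contDiffOn_const).add
      (((hlam1.mul hP2c).neg).smul contDiffOn_const)
  rw [show (2 : WithTop ℕ∞) = 1 + 1 by norm_num, contDiffOn_succ_iff_fderiv_of_isOpen hF.isOpen]
  exact ⟨hlamd, by simp, hB1.congr hfd⟩

/-- the second derivative of `λ` -/
lemma hasFDerivAt_dlam (hmin : LocMin M F) (hR : ∀ x ∈ M, RadonDiff (F x)) {x : V} (hx : x ∈ M) :
    HasFDerivAt (fderiv ℝ (lam F)) (fderiv ℝ (fderiv ℝ (lam F)) x) x := by
  have h1 : ContDiffAt ℝ 2 (lam F) x :=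
    (hF.contDiffOn_lam hmin hR).contDiffAt (hF.isOpen.mem_nhds hx)
  have h2 : ContDiffAt ℝ 1 (fderiv ℝ (lam F)) x := h1.fderiv_right (by norm_num)
  exact (h2.differentiableAt (by norm_num)).hasFDerivAt

lemma symm_lam (hmin : LocMin M F) (hR : ∀ x ∈ M, RadonDiff (F x)) {x : V} (hx : x ∈ M)
    (v w : V) :
    fderiv ℝ (fderiv ℝ (lam F)) x v w = fderiv ℝ (fderiv ℝ (lam F)) x w v := by
  have h1 : ContDiffAt ℝ 2 (lam F) x :=
    (hF.contDiffOn_lam hmin hR).contDiffAt (hF.isOpen.mem_nhds hx)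
  exact h1.isSymmSndFDerivAt (by simp) v w

omit hF in
lemma hasDerivAt_line {E : Type*} [NormedAddCommGroup E] [NormedSpace ℝ E] {φ : V → E}
    {φ' : V →L[ℝ] E} {x y : V} (h : HasFDerivAt φ φ' x) :
    HasDerivAt (fun s : ℝ => φ (x + s • y)) (φ' y) 0 := by
  have hl : HasDerivAt (fun s : ℝ => x + s • y) y 0 := by
    have := ((hasDerivAt_id (0 : ℝ)).smul_const y).const_add x
    rw [one_smul] at this
    exact this
  have h' : HasFDerivAt φ φ' (x + (0 : ℝ) • y) := by simpa using h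
  exact HasFDerivAt.comp_hasDerivAt (l := φ) (f := fun s : ℝ => x + s • y) 0 h' hl

/-- **The Hessian relation** `λ_{yw} F = λ_{yy} F_y[w]`. -/
theorem hess_rel (hM : Convex ℝ M) (hmin : LocMin M F) (hR : ∀ x ∈ M, RadonDiff (F x)) {x y : V}
    (hx : x ∈ M) (hy : y ≠ 0) (w : V) :
    fderiv ℝ (fderiv ℝ (lam F)) x y w * F x y
      = fderiv ℝ (fderiv ℝ (lam F)) x y y * Fy F x y w := by
  -- `E(x) = λ² F(x, y)` is constant along `y`
  set E : V → ℝ := fun x => lam F x ^ 2 * F x y with hE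
  have hEd : ∀ z ∈ M, HasFDerivAt E
      ((lam F z ^ 2) • Fx F z y + (F z y) • ((2 * lam F z) • fderiv ℝ (lam F) z)) z := by
    intro z hz
    have h1 := (hF.hasFDerivAt_lam hz).pow 2
    have h2 := h1.mul (hF.hasFDerivAt_x hz hy)
    refine h2.congr_fderiv ?_
    refine ContinuousLinearMap.ext fun (w : V) => ?_
    simp only [smul_apply, smul_eq_mul, add_apply, nsmul_eq_mul]
    norm_num
  have hE0 : ∀ z ∈ M, ((lam F z ^ 2) • Fx F z y + (F z y) • ((2 * lam F z) • fderiv ℝ (lam F) z)) y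
      = 0 := by
    intro z hz
    simp only [smul_apply, smul_eq_mul, add_apply]
    rw [hF.Fx_lam_self hmin hR hz hy]
    have := hF.lam_pos hz
    field_simp
    ring
  -- the derivative of `E` in the direction `w`, expressed by `λ` and `F_y`
  have hEw : ∀ z ∈ M, fderiv ℝ E z w
      = lam F z * (fderiv ℝ (lam F) z w * F z y - fderiv ℝ (lam F) z y * Fy F z y w) := by
    intro z hz
    rw [(hEd z hz).fderiv]
    simp only [smul_apply, smul_eq_mul, add_apply]
    rw [hF.Fx_lam hmin hR hz hy w]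
    have := hF.lam_pos hz
    field_simp
    ring
  -- it is constant along `y` near `x`
  have hconst : ∀ᶠ s : ℝ in 𝓝 0, fderiv ℝ E (x + s • y) w = fderiv ℝ E x w := by
    have hc : ContinuousAt (fun s : ℝ => x + s • y) 0 := by fun_prop
    have hx0 : x + (0 : ℝ) • y ∈ M := by simpa using hx
    filter_upwards [hc (hF.isOpen.mem_nhds hx0)] with s hs
    have hs' : x + s • y ∈ M := hs
    have h1 : HasDerivAt (fun τ : ℝ => E (x + s • y + τ • w)) (fderiv ℝ E (x + s • y) w) 0 :=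
      hasDerivAt_line (hEd _ hs').differentiableAt.hasFDerivAt
    have h2 : HasDerivAt (fun τ : ℝ => E (x + τ • w)) (fderiv ℝ E x w) 0 :=
      hasDerivAt_line (hEd _ hx).differentiableAt.hasFDerivAt
    refine h1.unique (h2.congr_of_eventuallyEq ?_)
    have hc1 : ContinuousAt (fun τ : ℝ => x + s • y + τ • w) 0 := by fun_prop
    have hc2 : ContinuousAt (fun τ : ℝ => x + τ • w) 0 := by fun_prop
    have hx1 : x + s • y + (0 : ℝ) • w ∈ M := by simpa using hs'
    have hx2 : x + (0 : ℝ) • w ∈ M := by simpa using hx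
    filter_upwards [hc1 (hF.isOpen.mem_nhds hx1), hc2 (hF.isOpen.mem_nhds hx2)] with τ h3 h4
    have h3' : x + s • y + τ • w ∈ M := h3
    have h4' : x + τ • w ∈ M := h4
    have e1 : x + s • y + τ • w = (x + τ • w) + s • y := by abel
    rw [e1] at h3' ⊢
    refine const_along hM hEd (fun z hz => ?_) h4' h3'
    rw [map_smul, hE0 z hz, smul_zero]
  -- differentiate along `y`
  have hd1 : HasDerivAt (fun s : ℝ => fderiv ℝ E (x + s • y) w) 0 0 :=
    (hasDerivAt_const (0 : ℝ) (fderiv ℝ E x w)).congr_of_eventuallyEq hconst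
  have hl0 : HasDerivAt (fun s : ℝ => lam F (x + s • y)) (fderiv ℝ (lam F) x y) 0 :=
    hasDerivAt_line (hF.hasFDerivAt_lam hx)
  have hlD : HasDerivAt (fun s : ℝ => fderiv ℝ (lam F) (x + s • y))
      (fderiv ℝ (fderiv ℝ (lam F)) x y) 0 :=
    hasDerivAt_line (hF.hasFDerivAt_dlam hmin hR hx)
  have hlw : HasDerivAt (fun s : ℝ => fderiv ℝ (lam F) (x + s • y) w)
      (fderiv ℝ (fderiv ℝ (lam F)) x y w) 0 := by
    have := hlD.clm_apply (hasDerivAt_const (0 : ℝ) w)
    simpa using this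
  have hly : HasDerivAt (fun s : ℝ => fderiv ℝ (lam F) (x + s • y) y)
      (fderiv ℝ (fderiv ℝ (lam F)) x y y) 0 := by
    have := hlD.clm_apply (hasDerivAt_const (0 : ℝ) y)
    simpa using this
  have hFd : HasDerivAt (fun s : ℝ => F (x + s • y) y) (Fx F x y y) 0 :=
    hasDerivAt_line (φ := fun z => F z y) (hF.hasFDerivAt_x hx hy)
  have hx0 : x + (0 : ℝ) • y ∈ M := by simpa using hx
  have hFyd : HasDerivAt (fun s : ℝ => Fy F (x + s • y) y w) (Fx F x y w) 0 := by
    have h1 := hF.hasDerivAt_Fy w y 0 hx0 hy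
    rw [hF.hamel hmin hx hy w]
    simpa using h1
  have hd2 : HasDerivAt (fun s : ℝ =>
      lam F (x + s • y) * (fderiv ℝ (lam F) (x + s • y) w * F (x + s • y) y
        - fderiv ℝ (lam F) (x + s • y) y * Fy F (x + s • y) y w))
      (fderiv ℝ (lam F) x y * (fderiv ℝ (lam F) (x + (0 : ℝ) • y) w * F (x + (0 : ℝ) • y) y
        - fderiv ℝ (lam F) (x + (0 : ℝ) • y) y * Fy F (x + (0 : ℝ) • y) y w)
       + lam F (x + (0 : ℝ) • y) * ((fderiv ℝ (fderiv ℝ (lam F)) x y w * F (x + (0 : ℝ) • y) y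
          + fderiv ℝ (lam F) (x + (0 : ℝ) • y) w * Fx F x y y)
          - (fderiv ℝ (fderiv ℝ (lam F)) x y y * Fy F (x + (0 : ℝ) • y) y w
          + fderiv ℝ (lam F) (x + (0 : ℝ) • y) y * Fx F x y w))) 0 :=
    hl0.mul ((hlw.mul hFd).sub (hly.mul hFyd))
  have hev : (fun s : ℝ => fderiv ℝ E (x + s • y) w) =ᶠ[𝓝 0] fun s : ℝ =>
      lam F (x + s • y) * (fderiv ℝ (lam F) (x + s • y) w * F (x + s • y) y
        - fderiv ℝ (lam F) (x + s • y) y * Fy F (x + s • y) y w) := by
    have hc : ContinuousAt (fun s : ℝ => x + s • y) 0 := by fun_prop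
    filter_upwards [hc (hF.isOpen.mem_nhds hx0)] with s hs
    exact hEw _ hs
  have hfin := hd1.unique (hd2.congr_of_eventuallyEq hev)
  simp only [zero_smul, add_zero] at hfin
  rw [hF.Fx_lam hmin hR hx hy w, hF.Fx_lam_self hmin hR hx hy] at hfin
  have hpos := hF.lam_pos hx
  have : lam F x * (fderiv ℝ (fderiv ℝ (lam F)) x y w * F x y
      - fderiv ℝ (fderiv ℝ (lam F)) x y y * Fy F x y w) = 0 := by
    rw [hfin]
    field_simp
    ring
  rcases mul_eq_zero.1 this with h | h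
  · exact absurd h hpos.ne'
  · linarith

/-- **Pointwise dichotomy**: the Hessian of `λ` is a multiple of `F²`. -/
theorem hess_eq (hM : Convex ℝ M) (hmin : LocMin M F) (hR : ∀ x ∈ M, RadonDiff (F x)) {x : V}
    (hx : x ∈ M) : ∃ k : ℝ, ∀ y : V, fderiv ℝ (fderiv ℝ (lam F)) x y y = k * F x y ^ 2 := by
  set H := fderiv ℝ (fderiv ℝ (lam F)) x with hH
  have hN := hF.c2norm hx
  set φ : V → ℝ := fun y => H y y / F x y ^ 2 with hφ
  have hd : ∀ y : V, y ≠ 0 → HasFDerivAt φ (0 : V →L[ℝ] ℝ) y := by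
    intro y hy
    have h1 : HasFDerivAt (fun y : V => H y y) ((2 : ℝ) • H y) y := by
      have h2 : HasFDerivAt (fun y : V => H y) H y := H.hasFDerivAt
      have h2' : HasFDerivAt (fun y : V => y) (ContinuousLinearMap.id ℝ V) y := hasFDerivAt_id y
      have h3 := h2.clm_apply h2'
      refine h3.congr_fderiv ?_
      refine ContinuousLinearMap.ext fun (w : V) => ?_
      simp only [smul_apply, smul_eq_mul, add_apply, ContinuousLinearMap.comp_apply,
        ContinuousLinearMap.flip_apply, ContinuousLinearMap.id_apply]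
      rw [hF.symm_lam hmin hR hx w y]
      ring
    have h2 : HasFDerivAt (fun y => F x y ^ 2) ((2 * F x y) • Fy F x y) y := by
      have h3 : HasFDerivAt (F x) (Fy F x y) y := (hN.diff hy).hasFDerivAt
      refine (h3.pow 2).congr_fderiv ?_
      refine ContinuousLinearMap.ext fun (w : V) => ?_
      simp only [smul_apply, smul_eq_mul, nsmul_eq_mul]
      norm_num
    have hpos := hN.pos y hy
    refine (hasFDerivAt_div h1 h2 (by positivity)).congr_fderiv ?_
    refine ContinuousLinearMap.ext fun (w : V) => ?_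
    simp only [smul_apply, smul_eq_mul, sub_apply, zero_apply]
    have h3 := hF.hess_rel hM hmin hR hx hy w
    rw [← hH] at h3
    have h4 : F x y ^ 2 * (2 * H y w) - H y y * (2 * F x y * Fy F x y w)
        = 2 * F x y * (H y w * F x y - H y y * Fy F x y w) := by ring
    rw [h4, h3, sub_self, mul_zero, mul_zero]
  have hopen : IsOpen ({0}ᶜ : Set V) := isOpen_compl_singleton
  have hconn : IsPreconnected ({0}ᶜ : Set V) := by
    refine (isConnected_compl_singleton_of_one_lt_rank ?_ _).isPreconnected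
    rw [rank_prod', Module.rank_self]
    norm_num
  refine ⟨φ (1, 0), fun y => ?_⟩
  by_cases hy : y = 0
  · subst hy
    rw [hN.zero]
    simp
  have h1 : φ y = φ (1, 0) :=
    hopen.is_const_of_fderiv_eq_zero hconn
      (fun z hz => (hd z hz).differentiableAt.differentiableWithinAt)
      (fun z hz => (hd z hz).fderiv) hy e1_ne
  rw [← h1]
  have hpos := hN.pos y hy
  simp only [hφ]
  field_simp

end FData

end Pool.Agent.Lib_MP_1de93e_gt
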