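import Mathlib
import Pool.Agent.Lib_MP_1de93e_gt.Hessian

/-!
# The global dichotomy
-/

namespace Pool.Agent.Lib_MP_1de93e_gt

open Set Filter Topology

variable {M : Set V} {F : V → V → ℝ}

lemma isEuclid_iff (N : V → ℝ) : IsEuclid N ↔ ∀ y : V, N y ^ 2 = N (1, 0) ^ 2 * y.1 ^ 2
    + (N (1, 1) ^ 2 - N (1, 0) ^ 2 - N (0, 1) ^ 2) * (y.1 * y.2) + N (0, 1) ^ 2 * y.2 ^ 2 := by
  constructor
  · rintro ⟨a, b, c, h⟩ y
    have h1 := h (1, 0)
    have h2 := h (0, 1)
    have h3 := h (1, 1)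
    norm_num at h1 h2 h3
    rw [h y, h1, h2, h3]
    ring
  · intro h
    exact ⟨_, _, _, h⟩

lemma bilin_eq (H : V →L[ℝ] V →L[ℝ] ℝ) (v w : V) :
    H v w = v.1 * w.1 * H (1, 0) (1, 0) + v.1 * w.2 * H (1, 0) (0, 1)
      + v.2 * w.1 * H (0, 1) (1, 0) + v.2 * w.2 * H (0, 1) (0, 1) := by
  have h : v = v.1 • ((1, 0) : V) + v.2 • ((0, 1) : V) := by
    ext <;> simp
  conv_lhs => rw [h]
  rw [map_add, map_smul, map_smul]
  simp only [add_apply, smul_apply, smul_eq_mul]
  rw [lin_eq (H (1, 0)) w, lin_eq (H (0, 1)) w]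
  ring

lemma e2_ne : ((0, 1) : V) ≠ 0 := by simp

lemma lin_key (L : V →L[ℝ] ℝ) {a b c : ℝ} {u v w : V} (h : a • u = b • v + c • w) :
    a * L u = b * L v + c * L w := by
  have h1 := congrArg L h
  rw [map_smul, map_add, map_smul, map_smul] at h1
  simpa using h1

namespace FData

variable (hF : FData M F)
include hF

lemma continuousOn_F (y : V) : ContinuousOn (fun x => F x y) M := by
  by_cases hy : y = 0
  · subst hy
    refine (continuousOn_const (c := (0 : ℝ))).congr fun x hx => (hF.norm x hx).zero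
  · intro x hx
    exact (hF.hasFDerivAt_x hx hy).continuousAt.continuousWithinAt

/-- non-Euclidean points form an open set -/
lemma nonEuclid_open {x : V} (hx : x ∈ M) (hne : ¬ IsEuclid (F x)) :
    ∀ᶠ z in 𝓝 x, z ∈ M ∧ ¬ IsEuclid (F z) := by
  rw [isEuclid_iff] at hne
  push Not at hne
  obtain ⟨y, hy⟩ := hne
  have hc : ∀ y : V, ContinuousAt (fun x => F x y) x := fun y =>
    (hF.continuousOn_F y).continuousAt (hF.isOpen.mem_nhds hx)
  have h1 : ContinuousAt (fun z => F z y ^ 2 - (F z (1, 0) ^ 2 * y.1 ^ 2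
    + (F z (1, 1) ^ 2 - F z (1, 0) ^ 2 - F z (0, 1) ^ 2) * (y.1 * y.2) + F z (0, 1) ^ 2 * y.2 ^ 2)) x := by
    have a1 := hc y
    have a2 := hc (1, 0)
    have a3 := hc (1, 1)
    have a4 := hc (0, 1)
    fun_prop
  have h2 : F x y ^ 2 - (F x (1, 0) ^ 2 * y.1 ^ 2
    + (F x (1, 1) ^ 2 - F x (1, 0) ^ 2 - F x (0, 1) ^ 2) * (y.1 * y.2) + F x (0, 1) ^ 2 * y.2 ^ 2) ≠ 0 :=
    sub_ne_zero.2 hy
  filter_upwards [h1.eventually_ne h2, hF.isOpen.mem_nhds hx] with z hz hzM
  refine ⟨hzM, fun he => ?_⟩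
  rw [isEuclid_iff] at he
  exact (sub_ne_zero.1 hz) (he y)

/-- At a non-Euclidean point the Hessian of `λ` vanishes. -/
lemma hess_zero (hM : Convex ℝ M) (hmin : LocMin M F) (hR : ∀ x ∈ M, RadonDiff (F x)) {x : V}
    (hx : x ∈ M) (hne : ¬ IsEuclid (F x)) : fderiv ℝ (fderiv ℝ (lam F)) x = 0 := by
  obtain ⟨k, hk⟩ := hF.hess_eq hM hmin hR hx
  set H := fderiv ℝ (fderiv ℝ (lam F)) x with hH
  have hsymm : H (0, 1) (1, 0) = H (1, 0) (0, 1) := hF.symm_lam hmin hR hx _ _
  have hk0 : k = 0 := by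
    by_contra hk0
    apply hne
    refine ⟨H (1, 0) (1, 0) / k, 2 * H (1, 0) (0, 1) / k, H (0, 1) (0, 1) / k, fun y => ?_⟩
    have h1 := hk y
    rw [bilin_eq H y y, hsymm] at h1
    have h2 : F x y ^ 2 = (k * F x y ^ 2) / k := by field_simp
    rw [h2, ← h1]
    field_simp
    ring
  have h0 : ∀ y : V, H y y = 0 := fun y => by rw [hk y, hk0, zero_mul]
  have a1 := h0 (1, 0)
  have a2 := h0 (0, 1)
  have a3 := h0 (1, 1)
  rw [bilin_eq H (1, 1) (1, 1), hsymm, a1, a2] at a3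
  have a4 : H (1, 0) (0, 1) = 0 := by norm_num at a3; linarith
  refine ContinuousLinearMap.ext fun (v : V) => ContinuousLinearMap.ext fun (w : V) => ?_
  rw [bilin_eq H v w, hsymm, a1, a2, a4]
  simp

/-- **Transport along a segment from a non-Euclidean point.** -/
theorem transport (hM : Convex ℝ M) (hmin : LocMin M F) (hR : ∀ x ∈ M, RadonDiff (F x))
    {x₀ z : V} (hx₀ : x₀ ∈ M) (hz : x₀ + z ∈ M) (hne : ¬ IsEuclid (F x₀)) :
    fderiv ℝ (lam F) (x₀ + z) = fderiv ℝ (lam F) x₀ ∧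
    lam F (x₀ + z) = lam F x₀ + fderiv ℝ (lam F) x₀ z ∧
    ∀ y : V, F (x₀ + z) ((1 + fderiv ℝ (lam F) x₀ z / lam F x₀) •
      (y + (fderiv ℝ (lam F) x₀ y / lam F x₀) • z)) = F x₀ y := by
  set ℓ := fderiv ℝ (lam F) x₀ with hℓ
  set l0 := lam F x₀ with hl0
  have hl0pos : 0 < l0 := hF.lam_pos hx₀
  have hseg : ∀ t ∈ Icc (0 : ℝ) 1, x₀ + t • z ∈ M := by
    intro t ht
    have := hM hx₀ hz (show 0 ≤ 1 - t by linarith [ht.2]) ht.1 (by ring)
    convert this using 1
    module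
  set Y : ℝ → V → V := fun t y => (1 + t * (ℓ z / l0)) • (y + (t * (ℓ y / l0)) • z) with hY
  set S : Set ℝ := {t | fderiv ℝ (lam F) (x₀ + t • z) = ℓ ∧ lam F (x₀ + t • z) = l0 + t * ℓ z ∧
    ∀ y : V, F (x₀ + t • z) (Y t y) = F x₀ y} with hS
  have hpath : Continuous (fun t : ℝ => x₀ + t • z) := by fun_prop
  have hYc : ∀ y, Continuous (fun t => Y t y) := fun y => by simp only [hY]; fun_prop
  have hdlc : ContinuousOn (fderiv ℝ (lam F)) M := fun x hx =>
    (hF.hasFDerivAt_dlam hmin hR hx).continuousAt.continuousWithinAt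
  have hlc : ContinuousOn (lam F) M := fun x hx =>
    (hF.differentiableAt_lam hx).continuousAt.continuousWithinAt
  -- continuity of `F` jointly
  have hFc : ContinuousOn (fun p : V × V => F p.1 p.2) (M ×ˢ ({0}ᶜ : Set V)) := hF.c2.continuousOn
  -- on `S`, `Y t y ≠ 0` for `y ≠ 0`
  have hYne : ∀ t ∈ Icc (0 : ℝ) 1, lam F (x₀ + t • z) = l0 + t * ℓ z → ∀ y : V, y ≠ 0 →
      Y t y ≠ 0 := by
    intro t ht hlt y hy
    have hpos : 0 < l0 + t * ℓ z := by rw [← hlt]; exact hF.lam_pos (hseg t ht)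
    have h1 : 1 + t * (ℓ z / l0) = (l0 + t * ℓ z) / l0 := by field_simp
    have h2 : 0 < 1 + t * (ℓ z / l0) := by rw [h1]; positivity
    refine smul_ne_zero h2.ne' ?_
    intro h3
    have h4 : ℓ (y + (t * (ℓ y / l0)) • z) = 0 := by rw [h3, map_zero]
    rw [map_add, map_smul, smul_eq_mul] at h4
    have h5 : ℓ y * (1 + t * (ℓ z / l0)) = 0 := by
      rw [← h4]; field_simp
    have h6 : ℓ y = 0 := (mul_eq_zero.1 h5).resolve_right h2.ne'
    rw [h6] at h3
    simp at h3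
    exact hy h3
  have hclosed : IsClosed (S ∩ Icc (0 : ℝ) 1) := by
    -- we use sequential closedness
    rw [← isSeqClosed_iff_isClosed]
    intro u t hu hut
    have ht : t ∈ Icc (0 : ℝ) 1 := isClosed_Icc.mem_of_tendsto hut
      (Filter.Eventually.of_forall fun n => (hu n).2)
    have hxt := hseg t ht
    have hpt : Tendsto (fun n => x₀ + u n • z) atTop (𝓝 (x₀ + t • z)) :=
      (hpath.tendsto t).comp hut
    have h1 : Tendsto (fun n => fderiv ℝ (lam F) (x₀ + u n • z)) atTop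
        (𝓝 (fderiv ℝ (lam F) (x₀ + t • z))) :=
      ((hdlc.continuousAt (hF.isOpen.mem_nhds hxt)).tendsto).comp hpt
    have h1' : fderiv ℝ (lam F) (x₀ + t • z) = ℓ := by
      refine tendsto_nhds_unique h1 ?_
      refine tendsto_const_nhds.congr fun n => ((hu n).1.1).symm
    have h2 : Tendsto (fun n => lam F (x₀ + u n • z)) atTop (𝓝 (lam F (x₀ + t • z))) :=
      ((hlc.continuousAt (hF.isOpen.mem_nhds hxt)).tendsto).comp hpt
    have h2' : lam F (x₀ + t • z) = l0 + t * ℓ z := by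
      refine tendsto_nhds_unique h2 ?_
      have h3 : Tendsto (fun n => l0 + u n * ℓ z) atTop (𝓝 (l0 + t * ℓ z)) :=
        (hut.mul_const (ℓ z)).const_add l0
      exact h3.congr fun n => ((hu n).1.2.1).symm
    refine ⟨⟨h1', h2', fun y => ?_⟩, ht⟩
    by_cases hy : y = 0
    · subst hy
      have : Y t 0 = 0 := by simp [hY]
      rw [this, (hF.norm _ hxt).zero, (hF.norm _ hx₀).zero]
    have hYt := hYne t ht h2' y hy
    have h3 : ContinuousAt (fun p : V × V => F p.1 p.2) (x₀ + t • z, Y t y) :=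
      hFc.continuousAt (hF.isOpen_prod.mem_nhds ⟨hxt, hYt⟩)
    have h4 : Tendsto (fun n => (x₀ + u n • z, Y (u n) y)) atTop (𝓝 (x₀ + t • z, Y t y)) :=
      hpt.prodMk_nhds (((hYc y).tendsto t).comp hut)
    have h5 := h3.tendsto.comp h4
    refine tendsto_nhds_unique h5 ?_
    refine tendsto_const_nhds.congr fun n => ?_
    exact ((hu n).1.2.2 y).symm
  have h0S : (0 : ℝ) ∈ S := by
    refine ⟨by simp [hℓ], by simp [hl0], fun y => ?_⟩
    simp [hY]
  have hstep : ∀ t ∈ S ∩ Ico (0 : ℝ) 1, S ∈ 𝓝[>] t := by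
    rintro t ⟨⟨ht1, ht2, ht3⟩, ht⟩
    have htI : t ∈ Icc (0 : ℝ) 1 := ⟨ht.1, ht.2.le⟩
    have hxt := hseg t htI
    have hlt : 0 < l0 + t * ℓ z := by rw [← ht2]; exact hF.lam_pos hxt
    have hkt : (0 : ℝ) < 1 + t * (ℓ z / l0) := by
      have h1 : 1 + t * (ℓ z / l0) = (l0 + t * ℓ z) / l0 := by field_simp
      rw [h1]; positivity
    -- `F (x_t)` is not Euclidean
    have hnet : ¬ IsEuclid (F (x₀ + t • z)) := by
      rintro ⟨a, b, c, h⟩
      apply hne
      -- the linear map `Y t`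
      set k := 1 + t * (ℓ z / l0) with hk
      set p := t * (ℓ (1, 0) / l0) with hp
      set q := t * (ℓ (0, 1) / l0) with hq
      have hlin : ∀ y : V, Y t y = (k * (y.1 + (y.1 * p + y.2 * q) * z.1),
          k * (y.2 + (y.1 * p + y.2 * q) * z.2)) := by
        intro y
        have h1 : t * (ℓ y / l0) = y.1 * p + y.2 * q := by
          rw [lin_eq ℓ y, hp, hq]; ring
        simp only [hY]
        rw [h1, ← hk]
        ext
        · simp only [Prod.smul_fst, Prod.fst_add, smul_eq_mul]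
        · simp only [Prod.smul_snd, Prod.snd_add, smul_eq_mul]
      refine ⟨k^2 * (a * (1 + p * z.1)^2 + b * ((1 + p * z.1) * (p * z.2)) + c * (p * z.2)^2),
        k^2 * (2 * a * (1 + p * z.1) * (q * z.1) + b * ((1 + p * z.1) * (1 + q * z.2) + (q * z.1) * (p * z.2))
          + 2 * c * (p * z.2) * (1 + q * z.2)),
        k^2 * (a * (q * z.1)^2 + b * ((q * z.1) * (1 + q * z.2)) + c * (1 + q * z.2)^2), fun y => ?_⟩
      rw [← ht3 y, h, hlin y]
      ring
    -- a right neighbourhood of `t`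
    have hev : ∀ᶠ s in 𝓝 t, (x₀ + s • z ∈ M ∧ ¬ IsEuclid (F (x₀ + s • z))) :=
      hpath.continuousAt.eventually (hF.nonEuclid_open hxt hnet)
    obtain ⟨δ, hδ, hδs⟩ := Metric.eventually_nhds_iff.1 hev
    have hmin' : t < min (t + δ) 1 := lt_min (by linarith) ht.2
    refine mem_of_superset (Ioo_mem_nhdsGT hmin') ?_
    intro s hs
    have hs1 : s < t + δ := lt_of_lt_of_le hs.2 (min_le_left _ _)
    have hs2 : s < 1 := lt_of_lt_of_le hs.2 (min_le_right _ _)
    have hIcc : ∀ r ∈ Icc t s, x₀ + r • z ∈ M ∧ ¬ IsEuclid (F (x₀ + r • z)) := by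
      intro r hr
      refine hδs ?_
      rw [Real.dist_eq, abs_lt]
      constructor <;> [linarith [hr.1]; linarith [hr.2]]
    have hrI : ∀ r ∈ Icc t s, r ∈ Icc (0 : ℝ) 1 := fun r hr =>
      ⟨le_trans ht.1 hr.1, le_trans hr.2 hs2.le⟩
    have hld : ∀ r : ℝ, HasDerivAt (fun t : ℝ => x₀ + t • z) z r := by
      intro r
      have := ((hasDerivAt_id r).smul_const z).const_add x₀
      rw [one_smul] at this
      exact this
    -- `dλ` is constant
    have hdl : ∀ r ∈ Icc t s, fderiv ℝ (lam F) (x₀ + r • z) = ℓ := by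
      intro r hr
      have hder : ∀ r ∈ Icc t s, HasDerivAt (fun r : ℝ => fderiv ℝ (lam F) (x₀ + r • z)) 0 r := by
        intro r hr
        have h1 := HasFDerivAt.comp_hasDerivAt (l := fderiv ℝ (lam F)) (f := fun r : ℝ => x₀ + r • z)
          r (hF.hasFDerivAt_dlam hmin hR (hIcc r hr).1) (hld r)
        rw [hF.hess_zero hM hmin hR (hIcc r hr).1 (hIcc r hr).2] at h1
        exact h1
      have h2 := constant_of_has_deriv_right_zero
        (f := fun r : ℝ => fderiv ℝ (lam F) (x₀ + r • z)) (a := t) (b := s)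
        (fun r hr => (hder r hr).continuousAt.continuousWithinAt)
        (fun r hr => (hder r ⟨hr.1, hr.2.le⟩).hasDerivWithinAt) r hr
      rw [h2, ht1]
    -- `λ` is affine
    have hla : ∀ r ∈ Icc t s, lam F (x₀ + r • z) = l0 + r * ℓ z := by
      intro r hr
      have hder : ∀ r ∈ Icc t s, HasDerivAt (fun r : ℝ => lam F (x₀ + r • z) - r * ℓ z) 0 r := by
        intro r hr
        have h1 := HasFDerivAt.comp_hasDerivAt (l := lam F) (f := fun r : ℝ => x₀ + r • z)
          r (hF.hasFDerivAt_lam (hIcc r hr).1) (hld r)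
        rw [hdl r hr] at h1
        have h2 := h1.sub ((hasDerivAt_id r).mul_const (ℓ z))
        rw [one_mul, sub_self] at h2
        exact h2
      have h2 := constant_of_has_deriv_right_zero
        (f := fun r : ℝ => lam F (x₀ + r • z) - r * ℓ z) (a := t) (b := s)
        (fun r hr => (hder r hr).continuousAt.continuousWithinAt)
        (fun r hr => (hder r ⟨hr.1, hr.2.le⟩).hasDerivWithinAt) r hr
      rw [ht2] at h2
      linarith
    -- transport
    have hsmem : s ∈ Icc t s := ⟨hs.1.le, le_rfl⟩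
    refine ⟨hdl s hsmem, hla s hsmem, fun y => ?_⟩
    by_cases hy : y = 0
    · subst hy
      have : Y s 0 = 0 := by simp [hY]
      rw [this, (hF.norm _ (hIcc s hsmem).1).zero, (hF.norm _ hx₀).zero]
    have hder : ∀ r ∈ Icc t s, HasDerivAt (fun r : ℝ => F (x₀ + r • z) (Y r y)) 0 r := by
      intro r hr
      have hxr := (hIcc r hr).1
      have hYr := hYne r (hrI r hr) (hla r hr) y hy
      have e1 : HasDerivAt (fun r : ℝ => 1 + r * (ℓ z / l0)) (ℓ z / l0) r := by
        have := ((hasDerivAt_id r).mul_const (ℓ z / l0)).const_add 1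
        rw [one_mul] at this
        exact this
      have e2 : HasDerivAt (fun r : ℝ => y + (r * (ℓ y / l0)) • z) ((ℓ y / l0) • z) r := by
        have := (((hasDerivAt_id r).mul_const (ℓ y / l0)).smul_const z).const_add y
        rw [one_mul] at this
        exact this
      have e3 := e1.smul e2
      obtain ⟨Y', hY'⟩ : ∃ Y' : V, Y' = (1 + r * (ℓ z / l0)) • ((ℓ y / l0) • z)
          + (ℓ z / l0) • (y + (r * (ℓ y / l0)) • z) := ⟨_, rfl⟩
      have e4 : HasDerivAt (fun r => Y r y) Y' r := by rw [hY']; exact e3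
      have e5 := (hld r).prodMk e4
      have e6 := HasFDerivAt.comp_hasDerivAt (l := fun p : V × V => F p.1 p.2)
        (f := fun r : ℝ => (x₀ + r • z, Y r y)) r (hF.hasFDerivAt hxr hYr) e5
      refine e6.congr_deriv ?_
      have e7 : ((z, Y') : V × V) = ((z, 0) : V × V) + ((0, Y') : V × V) := by simp
      rw [e7, map_add, ← hF.Fx_eq hxr hYr, ← hF.Fy_eq hxr hYr, hF.Fx_lam hmin hR hxr hYr,
        hdl r hr]
      have hpos := hF.lam_pos hxr
      have hla' := hla r hr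
      -- `λ_r Y' = ℓ z • Y + ℓ Y • z`
      have hkey : lam F (x₀ + r • z) • Y' = ℓ z • Y r y + ℓ (Y r y) • z := by
        have hℓY : ℓ (Y r y) = (1 + r * (ℓ z / l0)) * (ℓ y + (r * (ℓ y / l0)) * ℓ z) := by
          simp only [hY]
          rw [map_smul, map_add, map_smul]
          simp only [smul_eq_mul]
        rw [hla', hℓY, hY']
        simp only [hY]
        ext
        · simp only [Prod.smul_fst, Prod.fst_add, smul_eq_mul]
          field_simp
          ring
        · simp only [Prod.smul_snd, Prod.snd_add, smul_eq_mul]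
          field_simp
          ring
      have h8 : Fy F (x₀ + r • z) (Y r y) Y' = (ℓ z * F (x₀ + r • z) (Y r y)
          + ℓ (Y r y) * Fy F (x₀ + r • z) (Y r y) z) / lam F (x₀ + r • z) := by
        rw [eq_div_iff hpos.ne']
        have h9 := lin_key (Fy F (x₀ + r • z) (Y r y)) hkey
        have h10 : Fy F (x₀ + r • z) (Y r y) (Y r y) = F (x₀ + r • z) (Y r y) :=
          (hF.c2norm hxr).eul hYr
        rw [h10] at h9
        linarith
      rw [h8]
      field_simp
      ring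
    have h2 := constant_of_has_deriv_right_zero
      (f := fun r : ℝ => F (x₀ + r • z) (Y r y)) (a := t) (b := s)
      (fun r hr => (hder r hr).continuousAt.continuousWithinAt)
      (fun r hr => (hder r ⟨hr.1, hr.2.le⟩).hasDerivWithinAt) s hsmem
    rw [h2, ht3 y]
  have hall := hclosed.Icc_subset_of_forall_mem_nhdsWithin h0S hstep (right_mem_Icc.2 zero_le_one)
  obtain ⟨h1, h2, h3⟩ := hall
  simp only [one_smul, one_mul] at h1 h2 h3
  refine ⟨h1, h2, fun y => ?_⟩
  have := h3 y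
  simp only [hY, one_mul] at this
  exact this

/-- **Structure theorem.** -/
theorem structure_thm (hM : Convex ℝ M) (hmin : LocMin M F) (hR : ∀ x ∈ M, RadonDiff (F x)) :
    (∀ x ∈ M, IsEuclid (F x)) ∨ ∃ x₀ ∈ M, ∃ m : V →L[ℝ] ℝ, (∀ x ∈ M, 0 < 1 + m (x - x₀)) ∧
      ∀ x ∈ M, ∀ v : V, F x v = F x₀ ((1 + m (x - x₀))⁻¹ • v
        - (((1 + m (x - x₀)) ^ 2)⁻¹ * m v) • (x - x₀)) := by
  by_cases hall : ∀ x ∈ M, IsEuclid (F x)
  · exact Or.inl hall
  push Not at hall
  obtain ⟨x₀, hx₀, hne⟩ := hall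
  right
  have hl0 := hF.lam_pos hx₀
  set m : V →L[ℝ] ℝ := (lam F x₀)⁻¹ • fderiv ℝ (lam F) x₀ with hm
  have hmv : ∀ v : V, m v = fderiv ℝ (lam F) x₀ v / lam F x₀ := by
    intro v
    simp only [hm, smul_apply, smul_eq_mul]
    field_simp
  have hpos : ∀ x ∈ M, 0 < 1 + m (x - x₀) := by
    intro x hx
    have hxz : x₀ + (x - x₀) ∈ M := by simpa using hx
    obtain ⟨-, h2, -⟩ := hF.transport hM hmin hR hx₀ hxz hne
    have h3 := hF.lam_pos hxz
    rw [h2] at h3
    rw [hmv]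
    have : 1 + fderiv ℝ (lam F) x₀ (x - x₀) / lam F x₀
      = (lam F x₀ + fderiv ℝ (lam F) x₀ (x - x₀)) / lam F x₀ := by field_simp
    rw [this]
    positivity
  refine ⟨x₀, hx₀, m, hpos, fun x hx v => ?_⟩
  have hxz : x₀ + (x - x₀) ∈ M := by simpa using hx
  obtain ⟨-, -, h3⟩ := hF.transport hM hmin hR hx₀ hxz hne
  set z := x - x₀ with hz
  have hk := hpos x hx
  set k := 1 + m z with hkdef
  have h4 := h3 (k⁻¹ • v - ((k ^ 2)⁻¹ * m v) • z)
  rw [← hmv, ← hmv, ← hkdef] at h4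
  have hxe : x₀ + z = x := by rw [hz]; abel
  rw [hxe] at h4
  rw [← h4]
  congr 1
  have hmz : m z = k - 1 := by rw [hkdef]; ring
  have h5 : m (k⁻¹ • v - ((k ^ 2)⁻¹ * m v) • z) = (k ^ 2)⁻¹ * m v := by
    rw [map_sub, map_smul, map_smul, smul_eq_mul, smul_eq_mul, hmz]
    field_simp
    ring
  rw [h5]
  rw [sub_add_cancel, smul_smul, mul_inv_cancel₀ hk.ne', one_smul]

end FData

end Pool.Agent.Lib_MP_1de93e_gt
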