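import Mathlib
import Pool.Agent.Lib_MP_1de93e_gt.Dichotomy

/-!
# Projective-metric planes of affine type and Finsler metrics
-/

namespace Pool.Agent.Lib_MP_1de93e_gt

open Set Filter Topology MeasureTheory intervalIntegral

lemma C2Norm.radonDiff {N : V → ℝ} (hN : C2Norm N) (h : SymmPerp N) : RadonDiff N := by
  intro y hy
  have hξ := hN.xi_ne hy
  have h1 : Birkhoff N y (xi N y) := by
    intro t
    have h2 := hN.fd_le hy (y + t • xi N y)
    rw [map_add, map_smul, hN.fd_xi, smul_zero, add_zero, hN.eul hy] at h2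
    exact h2
  have h3 := h _ _ h1
  have hl : HasDerivAt (fun t : ℝ => xi N y + t • y) y 0 := by
    have := ((hasDerivAt_id (0 : ℝ)).smul_const y).const_add (xi N y)
    rw [one_smul] at this
    exact this
  have h' : HasFDerivAt N (fderiv ℝ N (xi N y)) (xi N y + (0 : ℝ) • y) := by
    simpa using (hN.diff hξ).hasFDerivAt
  have h4 : HasDerivAt (fun t : ℝ => N (xi N y + t • y)) (fderiv ℝ N (xi N y) y) 0 :=
    HasFDerivAt.comp_hasDerivAt (f := fun t : ℝ => xi N y + t • y) (l := N) 0 h' hl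
  have h5 : IsLocalMin (fun t : ℝ => N (xi N y + t • y)) 0 := by
    refine Filter.Eventually.of_forall fun t => ?_
    simpa using h3 t
  exact h5.hasDerivAt_eq_zero h4

section

variable {M : Set V} {d : V → V → ℝ} {F : V → V → ℝ}

lemma segment_mem (hM : Convex ℝ M) {P Q : V} (hP : P ∈ M) (hQ : Q ∈ M) {t : ℝ}
    (ht : t ∈ Icc (0 : ℝ) 1) : P + t • (Q - P) ∈ M := by
  have := hM hP hQ (show 0 ≤ 1 - t by linarith [ht.2]) ht.1 (by ring)
  convert this using 1
  module

/-- integral inequality for a `C²` norm -/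
lemma C2Norm.integral_le {N : V → ℝ} (hN : C2Norm N) {f : ℝ → V} (hf : Continuous f)
    (hNf : ContinuousOn (fun t => N (f t)) (Icc (0 : ℝ) 1)) :
    N (∫ t in (0 : ℝ)..1, f t) ≤ ∫ t in (0 : ℝ)..1, N (f t) := by
  set v := ∫ t in (0 : ℝ)..1, f t with hv
  by_cases h0 : v = 0
  · rw [h0, hN.zero]
    refine intervalIntegral.integral_nonneg zero_le_one fun t ht => ?_
    by_cases h1 : f t = 0
    · rw [h1, hN.zero]
    · exact (hN.pos _ h1).le
  · have h1 : fderiv ℝ N v v = N v := hN.eul h0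
    have h2 : fderiv ℝ N v v = ∫ t in (0 : ℝ)..1, fderiv ℝ N v (f t) := by
      conv_lhs => rw [hv]
      exact (ContinuousLinearMap.intervalIntegral_comp_comm (fderiv ℝ N v)
        (hf.intervalIntegrable 0 1)).symm
    rw [← h1, h2]
    refine intervalIntegral.integral_mono_on zero_le_one ?_ ?_ fun t ht => hN.fd_le h0 (f t)
    · exact ((fderiv ℝ N v).continuous.comp hf).intervalIntegrable 0 1
    · refine ContinuousOn.intervalIntegrable ?_
      rwa [uIcc_of_le zero_le_one]

/-- a norm is continuous if it is `C²` off `0` -/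
lemma C2Norm.continuous {N : V → ℝ} (hN : C2Norm N) : Continuous N := by
  rw [continuous_iff_continuousAt]
  intro y
  by_cases hy : y = 0
  · subst hy
    -- `N` is bounded by `C ‖·‖`
    have hb : ∀ z : V, N z ≤ (N (1, 0) + N (0, 1)) * ‖z‖ := by
      intro z
      have h : z = z.1 • ((1, 0) : V) + z.2 • ((0, 1) : V) := by
        ext <;> simp
      have h1 : N z ≤ |z.1| * N (1, 0) + |z.2| * N (0, 1) := by
        conv_lhs => rw [h]
        refine (hN.add _ _).trans ?_
        rw [hN.smul, hN.smul]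
      have h2 : |z.1| ≤ ‖z‖ := norm_fst_le z
      have h3 : |z.2| ≤ ‖z‖ := norm_snd_le z
      have h4 := hN.pos (1, 0) (by simp)
      have h5 := hN.pos (0, 1) (by simp)
      nlinarith
    have h1 : Tendsto (fun z : V => (N (1, 0) + N (0, 1)) * ‖z‖) (𝓝 0) (𝓝 0) := by
      have h2 : Continuous (fun z : V => (N (1, 0) + N (0, 1)) * ‖z‖) := by fun_prop
      simpa using h2.tendsto 0
    have h0 : N 0 = 0 := hN.zero
    unfold ContinuousAt
    rw [h0]
    refine squeeze_zero (fun z => ?_) hb h1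
    by_cases hz : z = 0
    · rw [hz, h0]
    · exact (hN.pos z hz).le
  · exact (hN.diff hy).continuousAt

variable (hP : ProjMetricPlane M d) (hd : IsFinsler M d F)
include hP hd

/-- the straight segment is a competitor -/
lemma dist_le_segment {P Q : V} (h1 : P ∈ M) (h2 : Q ∈ M) :
    d P Q ≤ ∫ t in (0 : ℝ)..1, F (P + t • (Q - P)) (Q - P) := by
  refine (hd.length P h1 Q h2).1 ⟨fun t => P + t • (Q - P), by fun_prop, by simp, by simp,
    fun t ht => segment_mem hP.convex h1 h2 ht, ?_⟩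
  refine intervalIntegral.integral_congr fun t _ => ?_
  have h3 : HasDerivAt (fun t : ℝ => P + t • (Q - P)) (Q - P) t := by
    have := ((hasDerivAt_id t).smul_const (Q - P)).const_add P
    rw [one_smul] at this
    exact this
  simp only [h3.deriv]

lemma cont_speed {γ : ℝ → V} (hγ : ContDiff ℝ 1 γ) (hγM : ∀ t ∈ Icc (0 : ℝ) 1, γ t ∈ M) :
    ContinuousOn (fun t => F (γ t) (deriv γ t)) (Icc (0 : ℝ) 1) := by
  have h1 : Continuous (deriv γ) := hγ.continuous_deriv (by norm_num)
  have h2 : ContinuousOn (fun t => (γ t, deriv γ t)) (Icc (0 : ℝ) 1) :=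
    (hγ.continuous.prodMk h1).continuousOn
  exact hd.cont.comp h2 fun t ht => ⟨hγM t ht, mem_univ _⟩

lemma F_nonneg {x : V} (hx : x ∈ M) (y : V) : 0 ≤ F x y := by
  by_cases hy : y = 0
  · rw [hy, (hd.norm x hx).zero]
  · exact ((hd.norm x hx).pos y hy).le

/-- intermediate points of a curve are not farther than its length -/
lemma dist_le_length {γ : ℝ → V} (hγ : ContDiff ℝ 1 γ) (hγM : ∀ t ∈ Icc (0 : ℝ) 1, γ t ∈ M)
    {s : ℝ} (hs : s ∈ Icc (0 : ℝ) 1) :
    d (γ 0) (γ s) ≤ ∫ t in (0 : ℝ)..1, F (γ t) (deriv γ t) := by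
  have hcs := cont_speed hP hd hγ hγM
  have h0M : γ 0 ∈ M := hγM 0 (left_mem_Icc.2 zero_le_one)
  rcases hs.1.eq_or_lt with h0 | h0
  · rw [← h0, hP.self _ h0M]
    exact intervalIntegral.integral_nonneg zero_le_one fun t ht => F_nonneg hP hd (hγM t ht) _
  have hmap : ∀ t ∈ Icc (0 : ℝ) 1, s * t ∈ Icc (0 : ℝ) 1 := fun t ht =>
    ⟨mul_nonneg hs.1 ht.1, by nlinarith [hs.2, ht.2, ht.1, hs.1]⟩
  have h1 : d (γ 0) (γ s) ≤ ∫ t in (0 : ℝ)..1, F (γ (s * t)) (s • deriv γ (s * t)) := by
    refine (hd.length _ h0M _ (hγM s hs)).1 ⟨fun t => γ (s * t), ?_, by simp, by simp,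
      fun t ht => hγM _ (hmap t ht), ?_⟩
    · exact hγ.comp (by fun_prop)
    · refine intervalIntegral.integral_congr fun t _ => ?_
      have h2 : HasDerivAt (fun t : ℝ => s * t) s t := by
        simpa using (hasDerivAt_id t).const_mul s
      have h3 : HasDerivAt γ (deriv γ (s * t)) (s * t) :=
        (hγ.differentiable (by norm_num) _).hasDerivAt
      have h4 := HasDerivAt.scomp t h3 h2
      have h5 : deriv (fun t => γ (s * t)) t = s • deriv γ (s * t) := h4.deriv
      simp only [h5]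
  refine h1.trans ?_
  have h2 : ∫ t in (0 : ℝ)..1, F (γ (s * t)) (s • deriv γ (s * t))
      = ∫ t in (0 : ℝ)..1, s * F (γ (s * t)) (deriv γ (s * t)) := by
    refine intervalIntegral.integral_congr fun t ht => ?_
    rw [uIcc_of_le zero_le_one] at ht
    rw [(hd.norm _ (hγM _ (hmap t ht))).smul, abs_of_pos h0]
  rw [h2, intervalIntegral.integral_const_mul, intervalIntegral.integral_comp_mul_left
    (fun t => F (γ t) (deriv γ t)) h0.ne', smul_eq_mul, ← mul_assoc, mul_inv_cancel₀ h0.ne', one_mul,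
    mul_zero, mul_one]
  have h3 : IntervalIntegrable (fun t => F (γ t) (deriv γ t)) volume 0 1 := by
    refine ContinuousOn.intervalIntegrable ?_
    rwa [uIcc_of_le zero_le_one]
  have h4 : IntervalIntegrable (fun t => F (γ t) (deriv γ t)) volume 0 s :=
    h3.mono_set (by rw [uIcc_of_le zero_le_one, uIcc_of_le hs.1]; exact Icc_subset_Icc le_rfl hs.2)
  have h5 : IntervalIntegrable (fun t => F (γ t) (deriv γ t)) volume s 1 :=
    h3.mono_set (by rw [uIcc_of_le zero_le_one, uIcc_of_le hs.2]; exact Icc_subset_Icc hs.1 le_rfl)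
  rw [← intervalIntegral.integral_add_adjacent_intervals h4 h5]
  have h6 : 0 ≤ ∫ t in s..1, F (γ t) (deriv γ t) :=
    intervalIntegral.integral_nonneg hs.2 fun t ht =>
      F_nonneg hP hd (hγM t ⟨hs.1.trans ht.1, ht.2⟩) _
  linarith

/-- local comparison of `F x` with `F A` -/
lemma exists_ball {A : V} (hA : A ∈ M) {ε : ℝ} (hε : 0 < ε) :
    ∃ r : ℝ, 0 < r ∧ Metric.ball A r ⊆ M ∧ ∀ x ∈ Metric.ball A r, ∀ y : V,
      (1 - ε) * F A y ≤ F x y := by
  obtain ⟨r0, hr0, hr0M⟩ := Metric.isOpen_iff.1 hP.isOpen A hA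
  have hS : IsCompact (Metric.sphere (0 : V) 1) := isCompact_sphere _ _
  set U : Set (V × V) := {p | p.1 ∈ Metric.ball A r0 ∧ 0 < F p.1 p.2 - (1 - ε) * F A p.2} with hU
  have hcont : ContinuousOn (fun p : V × V => F p.1 p.2 - (1 - ε) * F A p.2)
      (Metric.ball A r0 ×ˢ univ) := by
    have h1 : ContinuousOn (fun p : V × V => F p.1 p.2) (Metric.ball A r0 ×ˢ univ) :=
      hd.cont.mono (prod_mono hr0M Subset.rfl)
    have h2 : ContinuousOn (fun p : V × V => F A p.2) (Metric.ball A r0 ×ˢ univ) := by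
      exact hd.cont.comp (f := fun p : V × V => (A, p.2)) (by fun_prop)
        (fun p _ => ⟨hA, mem_univ _⟩)
    exact h1.sub (continuousOn_const.mul h2)
  have hUopen : IsOpen U := by
    have h1 := hcont.isOpen_inter_preimage (Metric.isOpen_ball.prod isOpen_univ)
      (isOpen_Ioi (a := (0 : ℝ)))
    convert h1 using 1
    ext p
    simp [hU, and_comm]
  have hsub : ({A} : Set V) ×ˢ Metric.sphere (0 : V) 1 ⊆ U := by
    rintro ⟨a, y⟩ ⟨ha, hy⟩
    have ha' : a = A := ha
    subst ha'
    have hy0 : y ≠ 0 := by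
      rintro rfl
      simp at hy
    have := (hd.norm a hA).pos y hy0
    refine ⟨Metric.mem_ball_self hr0, ?_⟩
    simp only
    nlinarith
  obtain ⟨u, v, hu, hv, h0u, h1v, huv⟩ := generalized_tube_lemma isCompact_singleton hS hUopen hsub
  obtain ⟨r, hr, hru⟩ := Metric.isOpen_iff.1 hu A (h0u rfl)
  refine ⟨min r r0, lt_min hr hr0, (Metric.ball_subset_ball (min_le_right _ _)).trans hr0M,
    fun x hx y => ?_⟩
  have hxr : x ∈ Metric.ball A r := Metric.ball_subset_ball (min_le_left _ _) hx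
  have hxM : x ∈ M := hr0M (Metric.ball_subset_ball (min_le_right _ _) hx)
  by_cases hy : y = 0
  · rw [hy, (hd.norm x hxM).zero, (hd.norm A hA).zero, mul_zero]
  have hyn : 0 < ‖y‖ := norm_pos_iff.2 hy
  have hmem : ‖y‖⁻¹ • y ∈ Metric.sphere (0 : V) 1 := by
    simp [norm_smul, hyn.ne']
  have h1 := (huv (mk_mem_prod (hru hxr) (h1v hmem))).2
  simp only at h1
  rw [(hd.norm x hxM).smul, (hd.norm A hA).smul, abs_of_pos (inv_pos.2 hyn)] at h1
  have h2 : ‖y‖⁻¹ * F x y - (1 - ε) * (‖y‖⁻¹ * F A y) = ‖y‖⁻¹ * (F x y - (1 - ε) * F A y) := by ring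
  rw [h2] at h1
  have h3 := (mul_pos_iff_of_pos_left (inv_pos.2 hyn)).1 h1
  linarith

/-- lower bound for the distance near `A` -/
lemma dist_ge {A : V} (hA : A ∈ M) (hC : C2Norm (F A)) {ε : ℝ} (hε : 0 < ε) (hε1 : ε < 1) :
    ∀ᶠ B in 𝓝 A, B ∈ M ∧ (1 - ε) * F A (B - A) ≤ d A B := by
  obtain ⟨r, hr, hrM, hball⟩ := exists_ball hP hd hA hε
  obtain ⟨ρ, hρ, hρball⟩ := (hP.topology A hA (Metric.ball A r)).1 (Metric.ball_mem_nhds A hr)
  have h1 : ∀ᶠ B in 𝓝 A, (1 - ε) * F A (B - A) < ρ := by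
    have h2 : Continuous (fun B : V => (1 - ε) * F A (B - A)) :=
      continuous_const.mul (hC.continuous.comp (continuous_id.sub continuous_const))
    have h3 : (fun B : V => (1 - ε) * F A (B - A)) A < ρ := by
      simp only [sub_self]
      rw [hC.zero, mul_zero]
      exact hρ
    exact h2.continuousAt.eventually (gt_mem_nhds h3)
  filter_upwards [h1, hP.isOpen.mem_nhds hA] with B hB hBM
  refine ⟨hBM, ?_⟩
  refine (hd.length A hA B hBM).2 ?_
  rintro L ⟨γ, hγ, hγ0, hγ1, hγM, rfl⟩
  by_cases hL : ∫ t in (0 : ℝ)..1, F (γ t) (deriv γ t) < ρ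
  · have hin : ∀ t ∈ Icc (0 : ℝ) 1, γ t ∈ Metric.ball A r := by
      intro t ht
      have h4 := dist_le_length hP hd hγ hγM ht
      rw [hγ0] at h4
      exact hρball _ (hγM t ht) (lt_of_le_of_lt h4 hL)
    have hdc : Continuous (deriv γ) := hγ.continuous_deriv (by norm_num)
    have h5 : ∫ t in (0 : ℝ)..1, deriv γ t = B - A := by
      rw [intervalIntegral.integral_deriv_eq_sub (fun t _ => hγ.differentiable (by norm_num) t)
        (hdc.intervalIntegrable 0 1), hγ0, hγ1]
    have hNc : ContinuousOn (fun t => F A (deriv γ t)) (Icc (0 : ℝ) 1) :=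
      (hC.continuous.comp hdc).continuousOn
    have h6 := hC.integral_le hdc hNc
    rw [h5] at h6
    have h7 : (1 - ε) * ∫ t in (0 : ℝ)..1, F A (deriv γ t)
        ≤ ∫ t in (0 : ℝ)..1, F (γ t) (deriv γ t) := by
      rw [← intervalIntegral.integral_const_mul]
      refine intervalIntegral.integral_mono_on zero_le_one ?_ ?_ fun t ht => hball _ (hin t ht) _
      · refine ContinuousOn.intervalIntegrable ?_
        rw [uIcc_of_le zero_le_one]
        exact continuousOn_const.mul hNc
      · refine ContinuousOn.intervalIntegrable ?_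
        rw [uIcc_of_le zero_le_one]
        exact cont_speed hP hd hγ hγM
    have h8 : (1 - ε) * F A (B - A) ≤ (1 - ε) * ∫ t in (0 : ℝ)..1, F A (deriv γ t) :=
      mul_le_mul_of_nonneg_left h6 (by linarith)
    exact h8.trans h7
  · exact hB.le.trans (not_lt.1 hL)

/-- **Length of segments.** -/
theorem dist_eq_integral (hC : ∀ x ∈ M, C2Norm (F x)) {P Q : V} (h1 : P ∈ M) (h2 : Q ∈ M) :
    d P Q = ∫ t in (0 : ℝ)..1, F (P + t • (Q - P)) (Q - P) := by
  set v := Q - P with hv
  set D : ℝ → ℝ := fun t => d P (P + t • v) with hD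
  set f : ℝ → ℝ := fun t => F (P + t • v) v with hf
  have hmem : ∀ t ∈ Icc (0 : ℝ) 1, P + t • v ∈ M := fun t ht => segment_mem hP.convex h1 h2 ht
  have hfc : ContinuousOn f (Icc (0 : ℝ) 1) := by
    exact hd.cont.comp (f := fun t : ℝ => (P + t • v, v)) (by fun_prop)
      (fun t ht => ⟨hmem t ht, mem_univ _⟩)
  -- additivity
  have hadd : ∀ s ∈ Icc (0 : ℝ) 1, ∀ t ∈ Icc (0 : ℝ) 1, s ≤ t →
      D t = D s + d (P + s • v) (P + t • v) := by
    intro s hs t ht hst
    refine ((hP.additive P h1 _ (hmem s hs) _ (hmem t ht)).2 ?_).symm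
    rcases ht.1.eq_or_lt with h0 | h0
    · have hs0 : s = 0 := le_antisymm (hst.trans h0.symm.le) hs.1
      rw [hs0, zero_smul, add_zero]
      exact left_mem_segment _ _ _
    · rw [segment_eq_image']
      refine ⟨s / t, ⟨div_nonneg hs.1 ht.1, (div_le_one h0).2 hst⟩, ?_⟩
      simp only
      rw [add_sub_cancel_left, smul_smul, div_mul_cancel₀ _ h0.ne']
  -- upper bound for the distance of two points of the segment
  have hub : ∀ s ∈ Icc (0 : ℝ) 1, ∀ t ∈ Icc (0 : ℝ) 1, s ≤ t →
      d (P + s • v) (P + t • v) ≤ ∫ r in s..t, f r := by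
    intro s hs t ht hst
    have h3 := dist_le_segment hP hd (hmem s hs) (hmem t ht)
    have h4 : P + t • v - (P + s • v) = (t - s) • v := by module
    rw [h4] at h3
    rcases hst.eq_or_lt with h0 | h0
    · subst h0
      rw [hP.self _ (hmem s hs), intervalIntegral.integral_same]
    · have h5 : ∀ r : ℝ, P + s • v + r • ((t - s) • v) = P + (s + (t - s) * r) • v := by
        intro r; module
      have h6 : ∫ r in (0 : ℝ)..1, F (P + s • v + r • ((t - s) • v)) ((t - s) • v)
          = ∫ r in (0 : ℝ)..1, (t - s) * f (s + (t - s) * r) := by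
        refine intervalIntegral.integral_congr fun r hr => ?_
        rw [uIcc_of_le zero_le_one] at hr
        have h7 : s + (t - s) * r ∈ Icc (0 : ℝ) 1 := by
          constructor
          · nlinarith [hs.1, hr.1]
          · nlinarith [hs.1, hr.2, ht.2]
        simp only [h5, hf]
        rw [(hd.norm _ (hmem _ h7)).smul, abs_of_pos (by linarith)]
      rw [h6, intervalIntegral.integral_const_mul,
        intervalIntegral.integral_comp_add_mul f (by linarith : t - s ≠ 0) s, smul_eq_mul,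
        ← mul_assoc, mul_inv_cancel₀ (by linarith), one_mul] at h3
      simpa using h3
  -- a bound for `f`
  obtain ⟨C, hCb⟩ := isCompact_Icc.exists_bound_of_continuousOn hfc
  have hfint : ∀ s ∈ Icc (0 : ℝ) 1, ∀ t ∈ Icc (0 : ℝ) 1, IntervalIntegrable f volume s t := by
    intro s hs t ht
    refine ContinuousOn.intervalIntegrable (hfc.mono ?_)
    exact (convex_Icc (0 : ℝ) 1).ordConnected.uIcc_subset hs ht
  have hnn : ∀ s ∈ Icc (0 : ℝ) 1, ∀ t ∈ Icc (0 : ℝ) 1, 0 ≤ d (P + s • v) (P + t • v) := by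
    intro s hs t ht
    by_cases h3 : P + s • v = P + t • v
    · rw [h3, hP.self _ (hmem t ht)]
    · exact (hP.pos _ (hmem s hs) _ (hmem t ht) h3).le
  have hlip : ∀ s ∈ Icc (0 : ℝ) 1, ∀ t ∈ Icc (0 : ℝ) 1, s ≤ t → |D t - D s| ≤ C * (t - s) := by
    intro s hs t ht hst
    have h3 := hadd s hs t ht hst
    have h4 := hub s hs t ht hst
    have h5 := hnn s hs t ht
    have h6 : ∫ r in s..t, f r ≤ C * (t - s) := by
      have h7 : ∫ r in s..t, f r ≤ ∫ _ in s..t, C := by
        refine intervalIntegral.integral_mono_on hst (hfint s hs t ht) intervalIntegrable_const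
          fun r hr => ?_
        exact (le_abs_self _).trans (hCb r ⟨hs.1.trans hr.1, hr.2.trans ht.2⟩)
      rw [intervalIntegral.integral_const, smul_eq_mul] at h7
      linarith
    rw [h3, add_sub_cancel_left, abs_of_nonneg h5]
    linarith
  have hDc : ContinuousOn D (Icc (0 : ℝ) 1) := by
    have hC0 : 0 ≤ C := (abs_nonneg _).trans (hCb 0 (left_mem_Icc.2 zero_le_one))
    have : LipschitzOnWith (Real.toNNReal C) D (Icc (0 : ℝ) 1) := by
      refine LipschitzOnWith.of_dist_le_mul fun s hs t ht => ?_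
      rw [Real.dist_eq, Real.dist_eq, Real.coe_toNNReal _ hC0]
      rcases le_total s t with hst | hst
      · have := hlip s hs t ht hst
        rw [abs_sub_comm, abs_sub_comm s t, abs_of_nonneg (by linarith : 0 ≤ t - s)]
        exact this
      · have := hlip t ht s hs hst
        rw [abs_of_nonneg (by linarith : 0 ≤ s - t)]
        exact this
    exact this.continuousOn
  -- right derivative
  have hder : ∀ t ∈ Ioo (0 : ℝ) 1, HasDerivWithinAt D (f t) (Ioi t) t := by
    intro t ht
    have htI : t ∈ Icc (0 : ℝ) 1 := ⟨ht.1.le, ht.2.le⟩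
    rw [hasDerivWithinAt_iff_tendsto_slope' (self_notMem_Ioi)]
    have hA := hmem t htI
    have hslope : ∀ s ∈ Ioo t 1, slope D t s = d (P + t • v) (P + s • v) / (s - t) := by
      intro s hs
      have hsI : s ∈ Icc (0 : ℝ) 1 := ⟨htI.1.trans hs.1.le, hs.2.le⟩
      rw [slope_def_field, hadd t htI s hsI hs.1.le, add_sub_cancel_left]
    have hnear : ∀ᶠ s in 𝓝[>] t, s ∈ Ioo t 1 := Ioo_mem_nhdsGT ht.2
    have hft : 0 ≤ f t := F_nonneg hP hd hA v
    refine tendsto_order.2 ⟨fun a ha => ?_, fun b hb => ?_⟩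
    · -- lower bound
      set ε : ℝ := min (1 / 2) ((f t - a) / (2 * (f t + 1))) with hε
      have hε0 : 0 < ε := lt_min (by norm_num) (div_pos (by linarith) (by linarith))
      have hε1 : ε < 1 := lt_of_le_of_lt (min_le_left _ _) (by norm_num)
      have hεf : a < (1 - ε) * f t := by
        have h3 : ε ≤ (f t - a) / (2 * (f t + 1)) := min_le_right _ _
        rw [le_div_iff₀ (by linarith)] at h3
        nlinarith
      have hge := dist_ge hP hd hA (hC _ hA) hε0 hε1
      have hpath : Tendsto (fun s : ℝ => P + s • v) (𝓝[>] t) (𝓝 (P + t • v)) := by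
        have : Continuous (fun s : ℝ => P + s • v) := by fun_prop
        exact (this.tendsto t).mono_left nhdsWithin_le_nhds
      filter_upwards [hpath.eventually hge, hnear] with s h3 hs
      have hst : 0 < s - t := by linarith [hs.1]
      have h4 : P + s • v - (P + t • v) = (s - t) • v := by module
      have h5 := h3.2
      rw [h4, (hd.norm _ hA).smul, abs_of_pos hst] at h5
      rw [hslope s hs, lt_div_iff₀ hst]
      have h6 : F (P + t • v) v = f t := rfl
      rw [h6] at h5
      nlinarith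
    · -- upper bound
      have hcat : ContinuousAt f t := hfc.continuousAt (Icc_mem_nhds ht.1 ht.2)
      have h3 : ∀ᶠ r in 𝓝 t, f r < (f t + b) / 2 := hcat.eventually (gt_mem_nhds (by linarith))
      obtain ⟨δ, hδ, hδf⟩ := Metric.eventually_nhds_iff.1 h3
      have hnear2 : ∀ᶠ s in 𝓝[>] t, s ∈ Ioo t (t + δ) := Ioo_mem_nhdsGT (by linarith)
      filter_upwards [hnear, hnear2] with s hs hs2
      have hst : 0 < s - t := by linarith [hs.1]
      have hsI : s ∈ Icc (0 : ℝ) 1 := ⟨htI.1.trans hs.1.le, hs.2.le⟩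
      have h4 := hub t htI s hsI hs.1.le
      have h5 : ∫ r in t..s, f r ≤ ∫ _ in t..s, (f t + b) / 2 := by
        refine intervalIntegral.integral_mono_on hs.1.le (hfint t htI s hsI) intervalIntegrable_const
          fun r hr => ?_
        refine (hδf ?_).le
        rw [Real.dist_eq, abs_lt]
        constructor <;> [linarith [hr.1]; linarith [hr.2, hs2.2]]
      rw [intervalIntegral.integral_const, smul_eq_mul] at h5
      rw [hslope s hs, div_lt_iff₀ hst]
      nlinarith
  have h3 := intervalIntegral.integral_eq_sub_of_hasDeriv_right (f := D) (f' := f) (a := 0) (b := 1)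
    (by rw [uIcc_of_le zero_le_one]; exact hDc)
    (by rw [min_eq_left zero_le_one, max_eq_right zero_le_one]; exact hder)
    (hfint 0 (left_mem_Icc.2 zero_le_one) 1 (right_mem_Icc.2 zero_le_one))
  rw [h3]
  simp only [hD, hv]
  rw [zero_smul, add_zero, hP.self P h1, one_smul, sub_zero]
  congr 1
  abel

/-- straight segments are shortest -/
lemma locMin (hC : ∀ x ∈ M, C2Norm (F x)) : LocMin M F := by
  intro x hx
  obtain ⟨r, hr, hrM⟩ := Metric.isOpen_iff.1 hP.isOpen x hx
  refine ⟨r, hr, hrM, fun γ hγ hγr => ?_⟩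
  have hγM : ∀ t ∈ Icc (0 : ℝ) 1, γ t ∈ M := fun t ht => hrM (hγr t ht)
  have h0 := hγM 0 (left_mem_Icc.2 zero_le_one)
  have h1 := hγM 1 (right_mem_Icc.2 zero_le_one)
  rw [← dist_eq_integral hP hd hC h0 h1]
  exact (hd.length _ h0 _ h1).1 ⟨γ, hγ, rfl, rfl, hγM, rfl⟩

end

end Pool.Agent.Lib_MP_1de93e_gt
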