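import Mathlib
import Pool.Agent.Lib_MP_1de93e_gt.Metric

/-!
# Distance formula and completeness in the flat case
-/

namespace Pool.Agent.Lib_MP_1de93e_gt

open Set Filter Topology MeasureTheory intervalIntegral

section

variable {M : Set V} {d : V → V → ℝ} {F : V → V → ℝ} {N : V → ℝ} {x₀ : V} {m : V →L[ℝ] ℝ}

/-- the distance formula in the flat case -/
lemma dist_flat (hP : ProjMetricPlane M d) (hd : IsFinsler M d F) (hC : ∀ x ∈ M, C2Norm (F x))
    (hN : IsNorm N) (hm : ∀ x ∈ M, 0 < 1 + m (x - x₀))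
    (hF : ∀ x ∈ M, ∀ v : V, F x v = N ((1 + m (x - x₀))⁻¹ • v
        - (((1 + m (x - x₀)) ^ 2)⁻¹ * m v) • (x - x₀))) {P Q : V} (h1 : P ∈ M) (h2 : Q ∈ M) :
    d P Q = N (proj x₀ m Q - proj x₀ m P) := by
  rw [dist_eq_integral hP hd hC h1 h2]
  set v := Q - P with hv
  set kP := 1 + m (P - x₀) with hkP
  set kQ := 1 + m (Q - x₀) with hkQ
  have hkPp : 0 < kP := hm P h1
  have hkQp : 0 < kQ := hm Q h2
  have hmv : m v = kQ - kP := by
    rw [hkP, hkQ, hv, map_sub, map_sub, map_sub]; ring
  have hmem : ∀ t ∈ Icc (0 : ℝ) 1, P + t • v ∈ M := fun t ht => segment_mem hP.convex h1 h2 ht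
  have hkt : ∀ t : ℝ, 1 + m (P + t • v - x₀) = kP + t * m v := by
    intro t
    have e0 : P + t • v - x₀ = (P - x₀) + t • v := by abel
    rw [hkP, e0, map_add, map_smul, smul_eq_mul]; ring
  have hktp : ∀ t ∈ Icc (0 : ℝ) 1, 0 < kP + t * m v := by
    intro t ht
    rw [← hkt]; exact hm _ (hmem t ht)
  have hval : ∀ t ∈ Icc (0 : ℝ) 1, F (P + t • v) v
      = (kP * kQ / (kP + t * m v) ^ 2) * N (proj x₀ m Q - proj x₀ m P) := by
    intro t ht
    have hk := hktp t ht
    rw [hF _ (hmem t ht), hkt]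
    have h3 : (kP + t * m v)⁻¹ • v - (((kP + t * m v) ^ 2)⁻¹ * m v) • (P + t • v - x₀)
        = (kP * kQ / (kP + t * m v) ^ 2) • (proj x₀ m Q - proj x₀ m P) := by
      have h4 : proj x₀ m Q = kQ⁻¹ • (Q - x₀) := rfl
      have h5 : proj x₀ m P = kP⁻¹ • (P - x₀) := rfl
      rw [h4, h5]
      have hne := hk.ne'
      rw [hmv] at hne ⊢
      rw [hv]
      ext
      · simp only [Prod.smul_fst, Prod.fst_sub, Prod.fst_add, smul_eq_mul]
        field_simp
        ring
      · simp only [Prod.smul_snd, Prod.snd_sub, Prod.snd_add, smul_eq_mul]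
        field_simp
        ring
    rw [h3, hN.smul, abs_of_pos (by positivity)]
  have hint : ∫ t in (0 : ℝ)..1, kP * kQ / (kP + t * m v) ^ 2 = 1 := by
    have h3 : ∀ t ∈ uIcc (0 : ℝ) 1, HasDerivAt (fun t => t * kQ / (kP + t * m v))
        (kP * kQ / (kP + t * m v) ^ 2) t := by
      intro t ht
      rw [uIcc_of_le zero_le_one] at ht
      have hk := hktp t ht
      have e1 : HasDerivAt (fun t : ℝ => t * kQ) kQ t := by
        simpa using (hasDerivAt_id t).mul_const kQ
      have e2 : HasDerivAt (fun t : ℝ => kP + t * m v) (m v) t := by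
        simpa using ((hasDerivAt_id t).mul_const (m v)).const_add kP
      refine (e1.div e2 hk.ne').congr_deriv ?_
      field_simp
      ring
    rw [intervalIntegral.integral_eq_sub_of_hasDerivAt h3]
    · rw [hmv]
      have : kP + 1 * (kQ - kP) = kQ := by ring
      rw [this]
      field_simp
      ring
    · refine ContinuousOn.intervalIntegrable ?_
      rw [uIcc_of_le zero_le_one]
      refine ContinuousOn.div (by fun_prop) (by fun_prop) fun t ht => ?_
      have := hktp t ht
      positivity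
  have h3 : ∫ t in (0 : ℝ)..1, F (P + t • v) v
      = ∫ t in (0 : ℝ)..1, (kP * kQ / (kP + t * m v) ^ 2) * N (proj x₀ m Q - proj x₀ m P) := by
    refine intervalIntegral.integral_congr fun t ht => ?_
    rw [uIcc_of_le zero_le_one] at ht
    exact hval t ht
  rw [h3, intervalIntegral.integral_mul_const, hint, one_mul]

/-- **Completeness in the flat case.** -/
lemma complete_flat (hP : ProjMetricPlane M d) (hcomp : IsCompleteMetric M d)
    (hN : IsNorm N) (hx₀ : x₀ ∈ M) (hm : ∀ x ∈ M, 0 < 1 + m (x - x₀))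
    (hdist : ∀ P ∈ M, ∀ Q ∈ M, d P Q = N (proj x₀ m Q - proj x₀ m P)) :
    M = univ ∧ m = 0 := by
  set W : Set V := {X | 0 < 1 - m X ∧ x₀ + (1 - m X)⁻¹ • X ∈ M} with hW
  have hprojinv : ∀ X ∈ W, proj x₀ m (x₀ + (1 - m X)⁻¹ • X) = X := by
    intro X hX
    have h1 : x₀ + (1 - m X)⁻¹ • X - x₀ = (1 - m X)⁻¹ • X := by abel
    have h2 : 1 + m ((1 - m X)⁻¹ • X) = (1 - m X)⁻¹ := by
      rw [map_smul, smul_eq_mul]
      have := hX.1.ne'
      field_simp
      ring
    rw [proj, h1, h2, inv_inv, smul_smul, mul_inv_cancel₀ hX.1.ne', one_smul]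
  have hprojW : ∀ x ∈ M, proj x₀ m x ∈ W := by
    intro x hx
    have hk := hm x hx
    set k := 1 + m (x - x₀) with hkd
    have h1 : m (x - x₀) = k - 1 := by rw [hkd]; ring
    have h2 : 1 - m (proj x₀ m x) = k⁻¹ := by
      rw [proj, ← hkd, map_smul, smul_eq_mul, h1]
      field_simp
      ring
    refine ⟨by rw [h2]; positivity, ?_⟩
    rw [h2, inv_inv, proj, ← hkd, smul_smul, mul_inv_cancel₀ hk.ne', one_smul]
    simpa using hx
  have hWopen : IsOpen W := by
    have h1 : IsOpen {X : V | 0 < 1 - m X} := isOpen_lt continuous_const (by fun_prop)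
    have h2 : ContinuousOn (fun X : V => x₀ + (1 - m X)⁻¹ • X) {X : V | 0 < 1 - m X} := by
      have e1 : ContinuousOn (fun X : V => 1 - m X) {X : V | 0 < 1 - m X} := by fun_prop
      have e2 : ContinuousOn (fun X : V => (1 - m X)⁻¹) {X : V | 0 < 1 - m X} :=
        e1.inv₀ fun X hX => (show (0 : ℝ) < 1 - m X from hX).ne'
      exact continuousOn_const.add (e2.smul continuousOn_id)
    exact h2.isOpen_inter_preimage h1 hP.isOpen
  have hWuniv : ∀ X : V, X ∈ W := by
    intro X
    set S : Set ℝ := {s | s • X ∈ W} with hS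
    have hSopen : IsOpen S := hWopen.preimage (by fun_prop)
    have h0 : (0 : ℝ) ∈ S := by
      simp only [hS, mem_ofPred_eq, zero_smul]
      refine ⟨by simp, by simpa using hx₀⟩
    have hclosed : IsClosed (S ∩ Icc (0 : ℝ) 1) := by
      rw [← isSeqClosed_iff_isClosed]
      intro u s hu hus
      have hs : s ∈ Icc (0 : ℝ) 1 := isClosed_Icc.mem_of_tendsto hus
        (Filter.Eventually.of_forall fun n => (hu n).2)
      refine ⟨?_, hs⟩
      -- the points of `M`
      set p : ℕ → V := fun n => x₀ + (1 - m (u n • X))⁻¹ • (u n • X) with hp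
      have hpM : ∀ n, p n ∈ M := fun n => (hu n).1.2
      have hpproj : ∀ n, proj x₀ m (p n) = u n • X := fun n => hprojinv _ (hu n).1
      have hNX : 0 ≤ N X := by
        by_cases hX : X = 0
        · rw [hX, hN.zero]
        · exact (hN.pos X hX).le
      have hdp : ∀ i j, d (p i) (p j) = |u j - u i| * N X := by
        intro i j
        rw [hdist _ (hpM i) _ (hpM j), hpproj, hpproj, ← sub_smul, hN.smul]
      have hcau : ∀ ε > 0, ∃ n₀, ∀ i ≥ n₀, ∀ j ≥ n₀, d (p i) (p j) < ε := by
        intro ε hε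
        have h1 := hus.cauchySeq
        rw [Metric.cauchySeq_iff] at h1
        obtain ⟨n₀, hn₀⟩ := h1 (ε / (N X + 1)) (by positivity)
        refine ⟨n₀, fun i hi j hj => ?_⟩
        rw [hdp]
        have h2 := hn₀ j hj i hi
        rw [Real.dist_eq] at h2
        have h3 : |u j - u i| * N X ≤ |u j - u i| * (N X + 1) :=
          mul_le_mul_of_nonneg_left (by linarith) (abs_nonneg _)
        have h4 : |u j - u i| * (N X + 1) < ε := by
          rwa [lt_div_iff₀ (by linarith)] at h2
        linarith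
      obtain ⟨y, hyM, hy⟩ := hcomp p hpM hcau
      -- `proj y = s • X`
      have hNc : Tendsto (fun n => N (proj x₀ m y - u n • X)) atTop (𝓝 0) := by
        rw [Metric.tendsto_atTop]
        intro ε hε
        obtain ⟨n₀, hn₀⟩ := hy ε hε
        refine ⟨n₀, fun n hn => ?_⟩
        have h1 := hn₀ n hn
        rw [hdist _ (hpM n) _ hyM, hpproj] at h1
        rw [Real.dist_eq, sub_zero, abs_of_nonneg]
        · exact h1
        · by_cases h0 : proj x₀ m y - u n • X = 0
          · rw [h0, hN.zero]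
          · exact (hN.pos _ h0).le
      have hNc2 : Tendsto (fun n => N (u n • X - s • X)) atTop (𝓝 0) := by
        have h1 : ∀ n, N (u n • X - s • X) = |u n - s| * N X := by
          intro n; rw [← sub_smul, hN.smul]
        simp only [h1]
        have h2 : Tendsto (fun n => |u n - s| * N X) atTop (𝓝 (|s - s| * N X)) :=
          ((hus.sub_const s).abs).mul_const _
        simpa using h2
      have hzero : N (proj x₀ m y - s • X) ≤ 0 := by
        have h1 := hNc.add hNc2
        rw [add_zero] at h1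
        refine ge_of_tendsto' h1 fun n => ?_
        have h2 : proj x₀ m y - s • X = (proj x₀ m y - u n • X) + (u n • X - s • X) := by abel
        rw [h2]
        exact hN.add _ _
      have hEq : proj x₀ m y - s • X = 0 := by
        by_contra hne
        exact absurd (hN.pos _ hne) (not_lt.2 hzero)
      have h5 : s • X = proj x₀ m y := (sub_eq_zero.1 hEq).symm
      show s • X ∈ W
      rw [h5]
      exact hprojW y hyM
    have hall := hclosed.Icc_subset_of_forall_mem_nhdsWithin h0
      (fun t ht => mem_nhdsWithin_of_mem_nhds (hSopen.mem_nhds ht.1)) (right_mem_Icc.2 zero_le_one)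
    have : (1 : ℝ) • X ∈ W := hall
    simpa using this
  have hm0 : m = 0 := by
    refine ContinuousLinearMap.ext fun (X : V) => ?_
    by_contra hne
    have h1 := (hWuniv ((m X)⁻¹ • X)).1
    rw [map_smul, smul_eq_mul] at h1
    rw [zero_apply] at hne
    rw [inv_mul_cancel₀ hne] at h1
    linarith
  refine ⟨?_, hm0⟩
  rw [eq_univ_iff_forall]
  intro x
  have h1 := (hWuniv (x - x₀)).2
  rw [hm0] at h1
  simpa using h1

end

end Pool.Agent.Lib_MP_1de93e_gt
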