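import Mathlib
import Pool.Agent.Lib_MP_1de93e_gt.Final

/-!
# MP_1de93e_gt: Finsler functions of class `C²`, perpendicularity in the tangent planes

Let `(M, d)` be a projective-metric plane of affine type, `d` the length metric of a Finsler
function `F` of class `C²` off the zero section, such that Birkhoff orthogonality is symmetric in
each tangent plane. Then either all norms `F x` are Euclidean (the plane is Riemannian), or a
projective map embeds `(M, d)` isometrically in a Radon plane; if `(M, d)` is complete, then in the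
second case `M = ℝ²` and `(M, d)` is a Radon plane.
-/

namespace Pool.Agent.Lib_MP_1de93e_gt.SmoothTangentPerp

open Set Pool.Agent.Lib_MP_1de93e_gt

theorem smoothTangentPerp (M : Set V) (d : V → V → ℝ) (F : V → V → ℝ)
    (hP : ProjMetricPlane M d) (hd : IsFinsler M d F)
    (hC2 : ContDiffOn ℝ 2 (fun p : V × V => F p.1 p.2) (M ×ˢ {0}ᶜ))
    (hperp : ∀ x ∈ M, SymmPerp (F x)) :
    (∀ x ∈ M, IsEuclid (F x)) ∨
    ∃ N : V → ℝ, IsNorm N ∧ SymmPerp N ∧
      (∃ x₀ ∈ M, ∃ m : V →L[ℝ] ℝ, (∀ x ∈ M, 0 < 1 + m (x - x₀)) ∧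
        ∀ P ∈ M, ∀ Q ∈ M, d P Q = N (proj x₀ m Q - proj x₀ m P)) ∧
      (IsCompleteMetric M d → M = univ ∧ ∀ P Q : V, d P Q = N (Q - P)) := by
  have hF : FData M F := ⟨hP.isOpen, hd.norm, hC2⟩
  have hC : ∀ x ∈ M, C2Norm (F x) := fun x hx => hF.c2norm hx
  have hR : ∀ x ∈ M, RadonDiff (F x) := fun x hx => (hC x hx).radonDiff (hperp x hx)
  have hmin : LocMin M F := locMin hP hd hC
  rcases hF.structure_thm hP.convex hmin hR with h | ⟨x₀, hx₀, m, hm, hform⟩
  · exact Or.inl h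
  · right
    have hdist : ∀ P ∈ M, ∀ Q ∈ M, d P Q = F x₀ (proj x₀ m Q - proj x₀ m P) :=
      fun P h1 Q h2 => dist_flat hP hd hC (hd.norm x₀ hx₀) hm hform h1 h2
    refine ⟨F x₀, hd.norm x₀ hx₀, hperp x₀ hx₀, ⟨x₀, hx₀, m, hm, hdist⟩, fun hcomp => ?_⟩
    obtain ⟨h1, h2⟩ := complete_flat hP hcomp (hd.norm x₀ hx₀) hx₀ hm hdist
    refine ⟨h1, fun P Q => ?_⟩
    rw [hdist P (h1 ▸ mem_univ P) Q (h1 ▸ mem_univ Q), h2]
    simp [proj]

end Pool.Agent.Lib_MP_1de93e_gt.SmoothTangentPerp
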